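import Pool.Agent.Helper58.TB.Count
import Pool.Agent.Helper33.CV.Cube

/-!
MP_8ee768_co, project TH-Y', stage 0: cube bits (bit index = mask of a subset of `{0, .., 10}`).

`TRI`, `QUA`: all triples, all quads; `SING`: the bits `2 ^ d`; `tmq b`: the triples inside the quad
with the bit `b = 2 ^ q`.
-/

set_option autoImplicit false
set_option maxRecDepth 100000

namespace Pool.Agent.Helper57.TZ

open Finset
open Pool.Agent.Helper79.CV (L length_L mem_L lt_of_mem_L nodup_L)
open Pool.Agent.Helper33.CV (layM testBit_layM orL testBit_orL)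
open Pool.Agent.Helper69.TY (abv abv_eq above mem_above)

/-- bits of all triples -/
def TRI : ℕ := nat_lit 0x10000000000000000000000000000000100000000000000010000000100010116000000000000000000000000000000010000000000000001000000010001011600000000000000010000000100010116000000010001011600010116011616680000000000000000000000000000000100000000000000010000000100010116000000000000000100000001000101160000000100010116000101160116166800000000000000010000000100010116000000010001011600010116011616680000000100010116000101160116166800010116011616680116166816686880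

/-- bits of all quads -/
def QUA : ℕ := nat_lit 0x1000000000000000100000001000101160000000000000001000000010001011600000001000101160001011601161668000000000000000100000001000101160000000100010116000101160116166800000001000101160001011601161668000101160116166801161668166868800000000000000001000000010001011600000001000101160001011601161668000000010001011600010116011616680001011601161668011616681668688000000001000101160001011601161668000101160116166801161668166868800001011601161668011616681668688001161668166868801668688068808000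

/-- the bits `2 ^ d`, `d < 11` -/
def SING : ℕ := nat_lit 0x10000000000000000000000000000000000000000000000000000000000000000000000000000000000000000000000000000000000000000000000000000000100000000000000000000000000000000000000000000000000000000000000010000000000000000000000000000000100000000000000010000000100010116

/-- the multiplier: bits `1024 - 2 ^ v`, `v < 11` -/
def KM : ℕ := nat_lit 0xd101000100000001000000000000000100000000000000000000000000000001000000000000000000000000000000000000000000000000000000000000000100000000000000000000000000000000000000000000000000000000000000000000000000000000000000000000000000000000000000000000000000000001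

theorem TRI_eq : TRI = layM 11 3 := by decide +kernel

theorem QUA_eq : QUA = layM 11 4 := by decide +kernel

theorem SING_eq : SING = orL ((List.range 11).map fun d => 2 ^ d) := by decide +kernel

theorem testBit_TRI (m : ℕ) : TRI.testBit m = decide (m ∈ L 11 3) := by
  rw [TRI_eq, testBit_layM]

theorem testBit_QUA (m : ℕ) : QUA.testBit m = decide (m ∈ L 11 4) := by
  rw [QUA_eq, testBit_layM]

theorem testBit_SING (i : ℕ) : SING.testBit i = true ↔ ∃ d < 11, i = 2 ^ d := by
  rw [SING_eq, testBit_orL, List.mem_map]
  constructor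
  · rintro ⟨d, hd, rfl⟩
    exact ⟨d, List.mem_range.1 hd, rfl⟩
  · rintro ⟨d, hd, rfl⟩
    exact ⟨d, List.mem_range.2 hd, rfl⟩

/-- the triples of the quad with the bit `b` -/
def tmq (b : ℕ) : ℕ := Nat.land (Nat.shiftRight (Nat.mul KM b) 1024) TRI

/-- the table of the triples of the quads -/
def tmqOK : Bool := (L 11 4).all fun q =>
  Nat.beq (tmq (2 ^ q)) (orL ((L 11 3).filter fun m => Nat.beq (Nat.land m q) m))

theorem tmqOK_ok : tmqOK = true := by decide +kernel

theorem tmq_eq {q : ℕ} (hq : q ∈ L 11 4) :
    tmq (2 ^ q) = orL ((L 11 3).filter fun m => Nat.beq (Nat.land m q) m) := by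
  have h := tmqOK_ok
  unfold tmqOK at h
  rw [List.all_eq_true] at h
  exact Nat.eq_of_beq_eq_true (h q hq)

/-- **the triples inside a quad** -/
theorem testBit_tmq {q : ℕ} (hq : q ∈ L 11 4) (m : ℕ) :
    (tmq (2 ^ q)).testBit m = true ↔ m ∈ L 11 3 ∧ m &&& q = m := by
  rw [tmq_eq hq, testBit_orL, List.mem_filter]
  refine and_congr_right fun _ => ?_
  have e : Nat.land m q = m &&& q := rfl
  rw [e, Nat.beq_eq]

/-- the same by positions -/
theorem mem_abv_iff {q t : ℕ} (hq : q < 330) (ht : t < 165) :
    q ∈ abv.getD t [] ↔ ((L 11 3).getD t 0) &&& ((L 11 4).getD q 0) = (L 11 3).getD t 0 := by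
  have ht' : t < (L 11 3).length := by
    rw [length_L]
    exact ht
  have hq' : q < (L 11 4).length := by
    rw [length_L]
    exact hq
  have e : abv.getD t [] = above ((L 11 3).getD t 0) 0 (L 11 4) := by
    rw [abv_eq, List.getD_eq_getElem?_getD, List.getElem?_map, List.getElem?_eq_getElem ht',
      List.getD_eq_getElem _ _ ht']
    rfl
  rw [e, mem_above, List.getD_eq_getElem _ _ hq']
  constructor
  · rintro ⟨h, -, h2⟩
    exact h2
  · intro h
    exact ⟨hq', Nat.zero_le _, h⟩

theorem testBit_tmq_pos {q t : ℕ} (hq : q < 330) (ht : t < 165) :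
    (tmq (2 ^ ((L 11 4).getD q 0))).testBit ((L 11 3).getD t 0) = true ↔ q ∈ abv.getD t [] := by
  have ht' : t < (L 11 3).length := by
    rw [length_L]
    exact ht
  have hq' : q < (L 11 4).length := by
    rw [length_L]
    exact hq
  rw [mem_abv_iff hq ht, testBit_tmq (by rw [List.getD_eq_getElem _ _ hq']; exact List.getElem_mem hq')]
  refine ⟨fun h => h.2, fun h => ⟨?_, h⟩⟩
  rw [List.getD_eq_getElem _ _ ht']
  exact List.getElem_mem ht'

theorem tmq_sub_TRI (b m : ℕ) (h : (tmq b).testBit m = true) : TRI.testBit m = true := by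
  have e : tmq b = (Nat.shiftRight (Nat.mul KM b) 1024) &&& TRI := rfl
  rw [e, Nat.testBit_and, Bool.and_eq_true] at h
  exact h.2

/-! ## the candidates above a triple -/

/-- the bit of a triple `p + 2 ^ d` read at `2 ^ d` after a shift by the pair `p` -/
theorem testBit_shift (X p i : ℕ) : (Nat.shiftRight X p).testBit i = X.testBit (p + i) := by
  have e : Nat.shiftRight X p = X >>> p := rfl
  rw [e, Nat.testBit_shiftRight]

/-- the available quads above a triple -/
theorem testBit_cand (AV m i : ℕ) :
    (Nat.land (Nat.shiftRight AV m) SING).testBit i = true ↔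
      (∃ d < 11, i = 2 ^ d) ∧ AV.testBit (m + i) = true := by
  have e : Nat.land (Nat.shiftRight AV m) SING = (Nat.shiftRight AV m) &&& SING := rfl
  rw [e, Nat.testBit_and, Bool.and_eq_true, testBit_SING, testBit_shift, and_comm]

/-- facts about a triple and a point -/
def quaOK : Bool := (L 11 3).all fun m => (List.range 11).all fun d =>
  cond (m.testBit d) (!(QUA.testBit (m + 2 ^ d)))
    (QUA.testBit (m + 2 ^ d) && Nat.beq (m + 2 ^ d) (Nat.lor m (2 ^ d)))

theorem quaOK_ok : quaOK = true := by decide +kernel

/-- `m + 2 ^ d` is a quad only for `d` outside the triple `m` -/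
theorem notMem_of_qua {m d : ℕ} (hm : m ∈ L 11 3) (hd : d < 11)
    (h : QUA.testBit (m + 2 ^ d) = true) : m.testBit d = false := by
  have h1 := quaOK_ok
  unfold quaOK at h1
  rw [List.all_eq_true] at h1
  have h2 := h1 m hm
  rw [List.all_eq_true] at h2
  have h3 := h2 d (List.mem_range.2 hd)
  cases h4 : m.testBit d
  · rfl
  · rw [h4, cond_true, h] at h3
    exact absurd h3 (by decide)

theorem qua_of_notMem {m d : ℕ} (hm : m ∈ L 11 3) (hd : d < 11) (h : m.testBit d = false) :
    m + 2 ^ d ∈ L 11 4 ∧ m + 2 ^ d = m ||| 2 ^ d := by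
  have h1 := quaOK_ok
  unfold quaOK at h1
  rw [List.all_eq_true] at h1
  have h2 := h1 m hm
  rw [List.all_eq_true] at h2
  have h3 := h2 d (List.mem_range.2 hd)
  rw [h, cond_false, Bool.and_eq_true, testBit_QUA, decide_eq_true_eq] at h3
  exact ⟨h3.1, Nat.eq_of_beq_eq_true h3.2⟩

/-- every quad above a triple is `m + 2 ^ d` -/
def aboveOK : Bool := (L 11 3).all fun m => (L 11 4).all fun q =>
  !(Nat.beq (Nat.land m q) m) || (List.range 11).any fun d =>
    Nat.beq q (m + 2 ^ d) && !(m.testBit d)

theorem aboveOK_ok : aboveOK = true := by decide +kernel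

theorem exists_point {m q : ℕ} (hm : m ∈ L 11 3) (hq : q ∈ L 11 4) (h : m &&& q = m) :
    ∃ d < 11, m.testBit d = false ∧ q = m + 2 ^ d := by
  have h1 := aboveOK_ok
  unfold aboveOK at h1
  rw [List.all_eq_true] at h1
  have h2 := h1 m hm
  rw [List.all_eq_true] at h2
  have h3 := h2 q hq
  have e : Nat.beq (Nat.land m q) m = true := by
    have e2 : Nat.land m q = m := h
    rw [e2]
    exact Nat.beq_refl m
  rw [e, Bool.not_true, Bool.false_or, List.any_eq_true] at h3
  obtain ⟨d, hd, h4⟩ := h3
  rw [Bool.and_eq_true, Bool.not_eq_true'] at h4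
  exact ⟨d, List.mem_range.1 hd, h4.2, Nat.eq_of_beq_eq_true h4.1⟩

/-- **the candidates are the available quads above the triple** -/
theorem cand_spec {AV m : ℕ} (hm : m ∈ L 11 3) (hAV : ∀ i, AV.testBit i = true → i ∈ L 11 4)
    (q : ℕ) : (AV.testBit q = true ∧ m &&& q = m) ↔
      ∃ d < 11, (Nat.land (Nat.shiftRight AV m) SING).testBit (2 ^ d) = true ∧ q = m + 2 ^ d := by
  constructor
  · rintro ⟨h1, h2⟩
    obtain ⟨d, hd, -, h3⟩ := exists_point hm (hAV q h1) h2
    refine ⟨d, hd, ?_, h3⟩
    rw [testBit_cand]
    exact ⟨⟨d, hd, rfl⟩, by rw [← h3]; exact h1⟩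
  · rintro ⟨d, hd, h1, rfl⟩
    rw [testBit_cand] at h1
    have h2 := hAV _ h1.2
    have h3 : m.testBit d = false := notMem_of_qua hm hd (by
      rw [testBit_QUA, decide_eq_true_eq]
      exact h2)
    refine ⟨h1.2, ?_⟩
    rw [(qua_of_notMem hm hd h3).2]
    refine Nat.eq_of_testBit_eq fun j => ?_
    rw [Nat.testBit_and, Nat.testBit_or]
    cases m.testBit j <;> simp

/-! ## the lowest bit -/

/-- the lowest bit of a positive number -/
theorem low_spec {al : ℕ} (h : al ≠ 0) : ∃ i, al.testBit i = true ∧
    (∀ j < i, al.testBit j = false) ∧ Nat.sub al (Nat.land al (Nat.pred al)) = 2 ^ i ∧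
    ∀ j, (Nat.land al (Nat.pred al)).testBit j = (al.testBit j && decide (j ≠ i)) := by
  obtain ⟨i, k, hk, rfl⟩ := Nat.exists_eq_two_pow_mul_odd h
  obtain ⟨r, rfl⟩ := hk
  have h0 : 0 < 2 ^ i := Nat.two_pow_pos i
  have h1 : 2 ^ i * (2 * r + 1) = 2 ^ i * (2 * r) + 2 ^ i := by ring
  have h2 : Nat.pred (2 ^ i * (2 * r + 1)) = 2 ^ i * (2 * r) + (2 ^ i - 1) := by
    rw [h1]
    show 2 ^ i * (2 * r) + 2 ^ i - 1 = _
    omega
  have t1 : ∀ j, (2 ^ i * (2 * r + 1)).testBit j = (decide (i ≤ j) && (2 * r + 1).testBit (j - i)) := by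
    intro j
    rw [Nat.testBit_two_pow_mul]
  have t2 : ∀ j, (2 ^ i * (2 * r) + (2 ^ i - 1)).testBit j =
      if j < i then (2 ^ i - 1).testBit j else (2 * r).testBit (j - i) := by
    intro j
    exact Nat.testBit_two_pow_mul_add _ (by omega) j
  have t3 : ∀ j, (2 * r + 1).testBit (j + 1) = (2 * r).testBit (j + 1) := by
    intro j
    rw [Nat.testBit_succ, Nat.testBit_succ]
    congr 1
    omega
  have t4 : (2 * r).testBit 0 = false := by
    rw [Nat.testBit_zero]
    simp
  have t5 : (2 * r + 1).testBit 0 = true := by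
    rw [Nat.testBit_zero]
    simp
  have hand : ∀ j, (Nat.land (2 ^ i * (2 * r + 1)) (Nat.pred (2 ^ i * (2 * r + 1)))).testBit j =
      (decide (i ≤ j) && (2 * r).testBit (j - i)) := by
    intro j
    have e : Nat.land (2 ^ i * (2 * r + 1)) (Nat.pred (2 ^ i * (2 * r + 1))) =
      (2 ^ i * (2 * r + 1)) &&& (Nat.pred (2 ^ i * (2 * r + 1))) := rfl
    rw [e, Nat.testBit_and, h2, t1, t2]
    by_cases hj : j < i
    · rw [decide_eq_false (by omega : ¬ i ≤ j), Bool.false_and, Bool.false_and, Bool.false_and]
    · rw [if_neg hj, decide_eq_true (by omega : i ≤ j), Bool.true_and, Bool.true_and]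
      rcases Nat.eq_zero_or_pos (j - i) with h3 | h3
      · rw [h3, t4, Bool.and_false]
      · obtain ⟨n, hn⟩ : ∃ n, j - i = n + 1 := ⟨j - i - 1, by omega⟩
        rw [hn, t3, Bool.and_self]
  have hval : Nat.land (2 ^ i * (2 * r + 1)) (Nat.pred (2 ^ i * (2 * r + 1))) = 2 ^ i * (2 * r) := by
    refine Nat.eq_of_testBit_eq fun j => ?_
    rw [hand, Nat.testBit_two_pow_mul]
  refine ⟨i, ?_, ?_, ?_, ?_⟩
  · rw [t1, decide_eq_true (le_refl i), Bool.true_and, Nat.sub_self, t5]
  · intro j hj
    rw [t1, decide_eq_false (by omega : ¬ i ≤ j), Bool.false_and]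
  · rw [hval, h1]
    show 2 ^ i * (2 * r) + 2 ^ i - 2 ^ i * (2 * r) = 2 ^ i
    omega
  · intro j
    rw [hand, t1]
    by_cases hj : j = i
    · subst hj
      rw [decide_eq_false (show ¬ (j ≠ j) from fun h => h rfl), Bool.and_false, Nat.sub_self, t4,
        Bool.and_false]
    · rw [decide_eq_true hj, Bool.and_true]
      by_cases hj2 : j < i
      · rw [decide_eq_false (by omega : ¬ i ≤ j), Bool.false_and, Bool.false_and]
      · obtain ⟨n, hn⟩ : ∃ n, j - i = n + 1 := ⟨j - i - 1, by omega⟩
        rw [hn, t3]

end Pool.Agent.Helper57.TZ
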