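import Pool.Agent.Helper57.TZ.DigW

/-!
MP_8ee768_co, project TH-Y', stage 0: the members of a sub-run below a state of the search, independent
of the representation of the states.

`St T Z F cap inc av e`: the member `e` contains the blocks `inc`, all its other blocks satisfy `av`.
`BadC`: an odd triple which must not be hit again.
-/

set_option autoImplicit false

namespace Pool.Agent.Helper57.TZ

open Finset
open Pool.Agent.Helper89.CV (ofMask)
open Pool.Agent.Helper97.CV
open Pool.Agent.Helper79.CV
open Pool.Agent.Helper82.TY (below)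
open Pool.Agent.Helper69.TY (CountLe Ent abv abv_eq xb parL pcb above mem_above)
open Pool.Agent.Helper58.TB

/-- members of the sub-run between `inc` and `inc` with the available blocks `av` -/
def St (T Z F cap inc : ℕ) (av : ℕ → Prop) (e : ℕ) : Prop :=
  SubRun T Z F cap e ∧ (∀ q, inc.testBit q = true → e.testBit q = true) ∧
    ∀ q, e.testBit q = true → inc.testBit q = true ∨ av q

/-- one more hit of the triple with the mask `m` breaks a zero point or the budget -/
def BadC (T Z F cap inc m : ℕ) : Prop :=
  (∃ v < 11, m.testBit v = true ∧ Z.testBit v = true ∧ 1 ≤ hv T inc v) ∨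
    cap < ∑ v ∈ range 11, bgt (F.testBit v) (hv T inc v) +
      ((range 11).filter fun v => m.testBit v = true ∧ dgt (F.testBit v) (hv T inc v) = 5).card

section

variable {T Z F cap inc : ℕ} {av : ℕ → Prop}

/-! ## splitting, dead states, pruning -/

/-- **splitting at an available block** -/
theorem St.split {q K1 K2 : ℕ}
    (h1 : CountLe (St T Z F cap (inc ||| 2 ^ q) fun r => av r ∧ r ≠ q) K1)
    (h2 : CountLe (St T Z F cap inc fun r => av r ∧ r ≠ q) K2) (hinc : inc.testBit q = false) :
    CountLe (St T Z F cap inc av) (K1 + K2) := by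
  refine countLe_split (fun e he => ?_) h1 h2
  obtain ⟨he1, he2, he3⟩ := he
  by_cases hq : e.testBit q = true
  · left
    refine ⟨he1, fun r hr => ?_, fun r hr => ?_⟩
    · rw [testBit_or_pow, Bool.or_eq_true, decide_eq_true_eq] at hr
      rcases hr with hr | rfl
      · exact he2 r hr
      · exact hq
    · by_cases hrq : r = q
      · left
        rw [testBit_or_pow, decide_eq_true hrq.symm, Bool.or_true]
      · rcases he3 r hr with h | h
        · left
          rw [testBit_or_pow, h, Bool.true_or]
        · exact Or.inr ⟨h, hrq⟩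
  · right
    refine ⟨he1, he2, fun r hr => ?_⟩
    have hrq : r ≠ q := fun h => hq (h ▸ hr)
    exact (he3 r hr).imp id fun h => ⟨h, hrq⟩

/-- fewer available blocks, the removed ones are in no member -/
theorem St.prune {av' : ℕ → Prop} {K : ℕ} (h : CountLe (St T Z F cap inc av') K)
    (hd : ∀ e, SubRun T Z F cap e → (∀ q, inc.testBit q = true → e.testBit q = true) →
      ∀ q, e.testBit q = true → inc.testBit q = false → av q → av' q) :
    CountLe (St T Z F cap inc av) K := by
  refine countLe_mono (fun e he => ⟨he.1, he.2.1, fun q hq => ?_⟩) h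
  by_cases h1 : inc.testBit q = true
  · exact Or.inl h1
  · rw [Bool.not_eq_true] at h1
    rcases he.2.2 q hq with h2 | h2
    · rw [h1] at h2
      exact absurd h2 Bool.false_ne_true
    · exact Or.inr (hd e he.1 he.2.1 q hq h1 h2)

/-- **an even triple without available block above it** -/
theorem St.dead_row {t : ℕ} (ht : t < 165) (hev : nT T inc t % 2 = 0)
    (hav : ∀ q ∈ abv.getD t [], av q → inc.testBit q = true) (K : ℕ) :
    CountLe (St T Z F cap inc av) K := by
  refine countLe_le (Nat.zero_le K) (countLe_zero fun e he => ?_)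
  obtain ⟨he1, he2, he3⟩ := he
  have h1 : cb e (abv.getD t []) = cb inc (abv.getD t []) := by
    refine cb_congr fun q hq => ?_
    rw [Bool.eq_iff_iff]
    refine ⟨fun h => ?_, he2 q⟩
    rcases he3 q h with h2 | h2
    · exact h2
    · exact hav q hq h2
  have h2 := he1.odd t ht
  unfold nT at h2 hev
  rw [h1] at h2
  omega

/-- a zero point is hit twice -/
theorem St.dead_zero {v : ℕ} (hv11 : v < 11) (hz : Z.testBit v = true) (h2 : 2 ≤ hv T inc v)
    (K : ℕ) : CountLe (St T Z F cap inc av) K :=
  countLe_le (Nat.zero_le K) (countLe_zero fun _ he =>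
    Pool.Agent.Helper57.TZ.dead_zero hv11 hz h2 he.2.1 he.1)

/-- the budget is exceeded -/
theorem St.dead_budget (hB : cap < ∑ v ∈ range 11, bgt (F.testBit v) (hv T inc v)) (K : ℕ) :
    CountLe (St T Z F cap inc av) K :=
  countLe_le (Nat.zero_le K) (countLe_zero fun _ he =>
    Pool.Agent.Helper57.TZ.dead_budget hB he.2.1 he.1)

/-! ## bad triples -/

theorem bgt_mono_flag {fl fl' : Bool} (h : fl = true → fl' = true) (x : ℕ) : bgt fl x ≤ bgt fl' x := by
  unfold bgt
  refine max_le_max ?_ le_rfl
  cases fl
  · exact Nat.zero_le _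
  · rw [h rfl]

/-- budget with the digit 5 counted -/
theorem bgt_five_le {fl fl' : Bool} {h h' : ℕ} (hf : fl = true → fl' = true) (hh : h ≤ h') :
    bgt fl h + (if dgt fl h = 5 then 1 else 0) ≤ bgt fl' h' + (if dgt fl' h' = 5 then 1 else 0) := by
  have e1 : ∀ (b : Bool) (x : ℕ), bgt b x + (if dgt b x = 5 then 1 else 0) = bgt b (x + 1) := by
    intro b x
    have h1 := (dgt_step b x 1 (by norm_num)).2
    have h2 := dgt_le b x
    rw [h1]
    by_cases h5 : dgt b x = 5
    · rw [if_pos h5, if_pos (by omega)]
    · rw [if_neg h5, if_neg (by omega)]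
  rw [e1, e1]
  exact (bgt_mono_flag hf _).trans (bgt_mono (by omega))

theorem badC_iff (m : ℕ) : BadC T Z F cap inc m ↔
    (∃ v < 11, m.testBit v = true ∧ Z.testBit v = true ∧ 1 ≤ hv T inc v) ∨
    cap < ∑ v ∈ range 11, (bgt (F.testBit v) (hv T inc v) +
      if m.testBit v = true ∧ dgt (F.testBit v) (hv T inc v) = 5 then 1 else 0) := by
  unfold BadC
  rw [card_filter, ← sum_add_distrib]

/-- **bad triples stay bad** -/
theorem BadC.mono {Z' F' inc' m : ℕ} (h : BadC T Z F cap inc m)
    (hinc : ∀ q, inc.testBit q = true → inc'.testBit q = true)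
    (hZ : ∀ v < 11, Z.testBit v = true → Z'.testBit v = true)
    (hF : ∀ v < 11, F.testBit v = true → F'.testBit v = true) : BadC T Z' F' cap inc' m := by
  rw [badC_iff] at h ⊢
  rcases h with ⟨v, hv11, h1, h2, h3⟩ | h
  · exact Or.inl ⟨v, hv11, h1, hZ v hv11 h2, h3.trans (hv_mono hinc v)⟩
  · right
    refine lt_of_lt_of_le h (sum_le_sum fun v hv' => ?_)
    rw [mem_range] at hv'
    have h1 := hv_mono (T := T) hinc v
    by_cases hm : m.testBit v = true
    · have h2 := bgt_five_le (hF v hv') h1
      rw [hm]
      simp only [true_and]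
      exact h2
    · have h2 : bgt (F.testBit v) (hv T inc v) ≤ bgt (F'.testBit v) (hv T inc' v) :=
        (bgt_mono_flag (hF v hv') _).trans (bgt_mono h1)
      rw [if_neg fun h3 => hm h3.1, if_neg fun h3 => hm h3.1]
      exact h2

/-- **quads above an odd bad triple are in no member** -/
theorem St.prune_bad {av' : ℕ → Prop} {K : ℕ} (h : CountLe (St T Z F cap inc av') K)
    (hd : ∀ q, av q → ¬ av' q → ∃ t < 165, q ∈ abv.getD t [] ∧ nT T inc t % 2 = 1 ∧
      BadC T Z F cap inc ((L 11 3).getD t 0)) : CountLe (St T Z F cap inc av) K := by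
  refine St.prune h fun e he hinc q hq hqi ha => ?_
  by_contra hna
  obtain ⟨t, ht, hqt, hodd, hbad⟩ := hd q ha hna
  rw [bad_of_digits he hinc ht hqt hodd hqi hbad] at hq
  exact Bool.false_ne_true hq

end

/-! ## the size of a member -/

theorem sum_cb (e : ℕ) : ∑ t ∈ range 165, cb e (abv.getD t []) = 4 * pcb e 330 := by
  have h1 := sum_cnt (D := fam 11 4 e) fun b hb => sub_of_mem_fam (by norm_num) hb
  rw [card_fam 11 4 e (by norm_num)] at h1
  have h2 : ∑ s ∈ tri 11, cnt (fam 11 4 e) s = ∑ t ∈ range 165, cb e (abv.getD t []) := by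
    symm
    refine sum_bij (fun t _ => ofMask ((L 11 3).getD t 0)) ?_ ?_ ?_ ?_
    · intro t ht
      rw [mem_range] at ht
      have hl : t < (L 11 3).length := by rw [length_L]; exact ht
      have h5 : Sub 11 3 (ofMask ((L 11 3).getD t 0)) := by
        rw [List.getD_eq_getElem _ _ hl]
        exact ofMask_getElem_sub (by norm_num) hl
      rw [mem_tri]
      refine ⟨fun x hx => ?_, h5.2⟩
      rw [mem_below]
      exact mk_lt_iff.1 h5.1 x hx
    · intro t ht r hr htr
      rw [mem_range] at ht hr
      have hl : t < (L 11 3).length := by rw [length_L]; exact ht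
      have hl2 : r < (L 11 3).length := by rw [length_L]; exact hr
      rw [List.getD_eq_getElem _ _ hl, List.getD_eq_getElem _ _ hl2] at htr
      rw [← rk_getElem (by norm_num : 11 ≤ 13) hl, ← rk_getElem (by norm_num : 11 ≤ 13) hl2, htr]
    · intro s hs
      rw [mem_tri] at hs
      have h9 : Sub 11 3 s := by
        refine ⟨mk_lt_iff.2 fun x hx => ?_, hs.2⟩
        have h10 := hs.1 hx
        rw [mem_below] at h10
        exact h10
      obtain ⟨t, ht, h10⟩ := exists_pos h9
      exact ⟨t, mem_range.2 ht, h10⟩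
    · intro t ht
      rw [mem_range] at ht
      exact cb_eq_cnt ht
  rw [← h2, h1]
  rfl

theorem three_points : ∀ t < 165, ((range 11).filter fun v =>
    ((L 11 3).getD t 0).testBit v = true).card = 3 := by decide +kernel

theorem sum_hC (T e : ℕ) : ∑ v ∈ range 11, hC T e v = 3 * ∑ t ∈ range 165, nT T e t / 2 := by
  unfold hC
  have h1 : ∀ v ∈ range 11, ∑ t ∈ (range 165).filter
      (fun t => ((L 11 3).getD t 0).testBit v = true), nT T e t / 2 =
      ∑ t ∈ range 165, if ((L 11 3).getD t 0).testBit v = true then nT T e t / 2 else 0 :=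
    fun v _ => sum_filter _ _
  rw [sum_congr rfl h1, sum_comm, mul_sum]
  refine sum_congr rfl fun t ht => ?_
  rw [← sum_filter, sum_const, three_points t (mem_range.1 ht), smul_eq_mul]

theorem sum_T (T : ℕ) : ∀ n, ∑ t ∈ range n, (T.testBit t).toNat = pcb T n := by
  intro n
  induction n with
  | zero => rfl
  | succ n ih =>
    rw [sum_range_succ, ih]
    rfl

/-- **the size of a member** -/
theorem SubRun_num {T Z F cap e : ℕ} (hT : pcb T 165 = 19) (hcap : cap ≤ 6)
    (he : SubRun T Z F cap e) : pcb e 330 ≤ 41 := by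
  have h1 : ∑ v ∈ range 11, hv T e v ≤ 11 + 3 * cap := by
    have h2 : ∀ v ∈ range 11, hv T e v = 1 + 3 * (hv T e v / 3) := by
      intro v hv'
      have := he.mod v (mem_range.1 hv')
      omega
    rw [sum_congr rfl h2, sum_add_distrib, ← mul_sum]
    have h3 := he.sum
    simp only [sum_const, card_range, smul_eq_mul, mul_one]
    omega
  have h2 : 3 * ∑ t ∈ range 165, nT T e t / 2 ≤ 11 + 3 * cap := by
    rw [← sum_hC]
    refine le_trans (sum_le_sum fun v _ => ?_) h1
    exact Nat.le_add_right _ _
  have h3 : ∑ t ∈ range 165, nT T e t = 165 + 2 * ∑ t ∈ range 165, nT T e t / 2 := by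
    have h4 : ∀ t ∈ range 165, nT T e t = 1 + 2 * (nT T e t / 2) := by
      intro t ht
      have := he.odd t (mem_range.1 ht)
      omega
    rw [sum_congr rfl h4, sum_add_distrib, ← mul_sum]
    simp only [sum_const, card_range, smul_eq_mul, mul_one]
  have h4 : ∑ t ∈ range 165, nT T e t = 4 * pcb e 330 + 19 := by
    rw [← sum_cb, ← hT, ← sum_T, ← sum_add_distrib]
    rfl
  omega

/-- **a complete state has one member** -/
theorem St.leaf {T Z F cap inc : ℕ} {av : ℕ → Prop} (hT : pcb T 165 = 19) (hcap : cap ≤ 6)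
    (h : ∀ t < 165, nT T inc t % 2 = 1) : CountLe (St T Z F cap inc av) 1 := by
  have key : ∀ e, St T Z F cap inc av e → ∀ q < 330, e.testBit q = inc.testBit q := by
    intro e he q hq
    by_contra hne
    obtain ⟨h1, h2, -⟩ := he
    have hinc := card_complete hT h
    -- the added blocks
    obtain ⟨R, hR⟩ : ∃ R, R = fam 11 4 e \ fam 11 4 inc := ⟨_, rfl⟩
    have hsub : fam 11 4 inc ⊆ fam 11 4 e := by
      intro s hs
      rw [mem_fam_iff (by norm_num : 11 ≤ 13)] at hs ⊢
      exact ⟨hs.1, h2 _ hs.2⟩
    have hcard : R.card + pcb inc 330 = pcb e 330 := by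
      have h3 := card_sdiff_add_card_eq_card hsub
      rw [← hR, card_fam 11 4 inc (by norm_num), card_fam 11 4 e (by norm_num)] at h3
      exact h3
    have hcnt : ∀ s, cnt R s + cnt (fam 11 4 inc) s = cnt (fam 11 4 e) s := by
      intro s
      unfold cnt
      rw [← card_union_of_disjoint]
      · refine congrArg card ?_
        ext b
        rw [mem_union, mem_filter, mem_filter, mem_filter, hR, mem_sdiff]
        constructor
        · rintro (⟨⟨h3, -⟩, h4⟩ | ⟨h3, h4⟩)
          · exact ⟨h3, h4⟩
          · exact ⟨hsub h3, h4⟩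
        · rintro ⟨h3, h4⟩
          by_cases h5 : b ∈ fam 11 4 inc
          · exact Or.inr ⟨h5, h4⟩
          · exact Or.inl ⟨⟨h3, h5⟩, h4⟩
      · rw [disjoint_left]
        intro b hb hb2
        rw [mem_filter, hR, mem_sdiff] at hb
        exact hb.1.2 (mem_filter.1 hb2).1
    have hl : q < (L 11 4).length := by rw [length_L]; exact hq
    have hqR : ofMask ((L 11 4)[q]) ∈ R := by
      rw [hR, mem_sdiff, mem_fam_iff (by norm_num : 11 ≤ 13), mem_fam_iff (by norm_num : 11 ≤ 13),
        rk_getElem (by norm_num : 11 ≤ 13) hl]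
      have h3 : e.testBit q = true ∧ inc.testBit q = false := by
        cases h4 : inc.testBit q
        · refine ⟨?_, rfl⟩
          rw [h4] at hne
          simpa using hne
        · rw [h4, h2 q h4] at hne
          exact absurd rfl hne
      refine ⟨⟨ofMask_getElem_sub (by norm_num) hl, h3.1⟩, fun h4 => ?_⟩
      rw [h3.2] at h4
      exact Bool.false_ne_true h4.2
    have h5 := five_le (R := R) (fun b hb => by
        rw [hR, mem_sdiff] at hb
        exact (sub_of_mem_fam (by norm_num) hb.1).2) (fun b hb s hs hs3 => by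
        rw [hR, mem_sdiff] at hb
        have h6 : Sub 11 3 s := by
          refine ⟨mk_lt_iff.2 fun x hx => ?_, hs3⟩
          exact mk_lt_iff.1 (sub_of_mem_fam (by norm_num) hb.1).1 x (hs hx)
        obtain ⟨t, ht, h7⟩ := exists_pos h6
        have h8 := h t ht
        have h9 := h1.odd t ht
        unfold nT at h8 h9
        rw [cb_eq_cnt ht, h7] at h8 h9
        have h10 := hcnt s
        omega) ⟨_, hqR⟩
    have h6 := SubRun_num hT hcap h1
    omega
  intro S hS
  rw [card_le_one]
  intro a ha b hb
  refine Nat.eq_of_testBit_eq fun q => ?_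
  by_cases hq : q < 330
  · rw [key a (hS a ha) q hq, key b (hS b hb) q hq]
  · rw [Nat.testBit_lt_two_pow (lt_of_lt_of_le (hS a ha).1.lt
      (Nat.pow_le_pow_right (by norm_num) (by omega))),
      Nat.testBit_lt_two_pow (lt_of_lt_of_le (hS b hb).1.lt
      (Nat.pow_le_pow_right (by norm_num) (by omega)))]

/-- **the start state of a sub-run** -/
theorem countSub_of_St {T Z F cap K : ℕ}
    (h : CountLe (St T Z F cap 0 fun q => q < 330) K) : CountSub T Z F cap K := by
  refine countLe_mono (fun e he => ⟨he, fun q hq => ?_, fun q hq => Or.inr ?_⟩) h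
  · rw [Nat.zero_testBit] at hq
    exact absurd hq Bool.false_ne_true
  · by_contra h1
    rw [Nat.testBit_lt_two_pow (lt_of_lt_of_le he.lt (Nat.pow_le_pow_right (by norm_num)
      (by omega)))] at hq
    exact Bool.false_ne_true hq

end Pool.Agent.Helper57.TZ
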