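import Pool.Agent.Helper57.TZ.Step

/-!
MP_8ee768_co, project TH-Y', stage 0: triples which must not be hit again.

`bad_triple`: if the triple `t` is odd in the state `inc` and one more hit of it breaks a zero point or
the budget, then no member of the sub-run above `inc` contains a further quad above `t`.
`dgt`: the digit of a point; `bad_of_digits`: the criterion by digits equal to 5.
-/

set_option autoImplicit false

namespace Pool.Agent.Helper57.TZ

open Finset
open Pool.Agent.Helper79.CV (L length_L mem_L lt_of_mem_L nodup_L)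
open Pool.Agent.Helper69.TY (abv abv_eq above mem_above)
open Pool.Agent.Helper58.TB (nT hC hP hv hv_insert nT_insert nT_mono SubRun)

section

variable {T Z F cap inc e q t : ℕ}

theorem testBit_or_pow (inc q r : ℕ) : (inc ||| 2 ^ q).testBit r = (inc.testBit r || decide (q = r)) := by
  rw [Nat.testBit_or, Nat.testBit_two_pow]

/-- one more hit of an odd triple -/
theorem hv_bad (ht : t < 165) (hqt : q ∈ abv.getD t []) (hodd : nT T inc t % 2 = 1)
    (hqi : inc.testBit q = false) (v : ℕ) :
    hv T inc v + (((L 11 3).getD t 0).testBit v).toNat ≤ hv T (inc ||| 2 ^ q) v := by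
  rw [hv_insert (inc := inc) (inc' := inc ||| 2 ^ q) (q := q) (fun r hr => by
    rw [testBit_or_pow, decide_eq_false (Ne.symm hr), Bool.or_false]) (by
    rw [testBit_or_pow, decide_eq_true rfl, Bool.or_true]) hqi]
  cases h : ((L 11 3).getD t 0).testBit v
  · exact Nat.le_add_right _ _
  · refine Nat.add_le_add_left (card_pos.2 ⟨t, ?_⟩) _
    rw [mem_filter, mem_range]
    exact ⟨ht, h, hqt, hodd⟩

/-- **an odd triple which must not be hit again** -/
theorem bad_triple (he : SubRun T Z F cap e) (hinc : ∀ r, inc.testBit r = true → e.testBit r = true)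
    (ht : t < 165) (hqt : q ∈ abv.getD t []) (hodd : nT T inc t % 2 = 1)
    (hqi : inc.testBit q = false)
    (bad : (∃ v < 11, ((L 11 3).getD t 0).testBit v = true ∧ Z.testBit v = true ∧
        1 ≤ hv T inc v) ∨
      cap < ∑ v ∈ range 11, max (F.testBit v).toNat
        ((hv T inc v + (((L 11 3).getD t 0).testBit v).toNat + 1) / 3)) :
    e.testBit q = false := by
  rw [← Bool.not_eq_true]
  intro hqe
  have h1 : ∀ r, (inc ||| 2 ^ q).testBit r = true → e.testBit r = true := by
    intro r hr
    rw [testBit_or_pow, Bool.or_eq_true, decide_eq_true_eq] at hr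
    rcases hr with hr | rfl
    · exact hinc r hr
    · exact hqe
  rcases bad with ⟨v, hv11, h2, h3, h4⟩ | h2
  · have h5 := he.le_one h1 hv11 h3
    have h6 := hv_bad (T := T) ht hqt hodd hqi v
    rw [h2] at h6
    simp only [Bool.toNat_true] at h6
    omega
  · have h5 := he.sum_le h1
    have h6 : ∑ v ∈ range 11, max (F.testBit v).toNat
        ((hv T inc v + (((L 11 3).getD t 0).testBit v).toNat + 1) / 3) ≤
        ∑ v ∈ range 11, max (F.testBit v).toNat ((hv T (inc ||| 2 ^ q) v + 1) / 3) := by
      refine sum_le_sum fun v _ => max_le_max le_rfl (Nat.div_le_div_right ?_)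
      have := hv_bad (T := T) ht hqt hodd hqi v
      omega
    omega

end

/-! ## digits -/

/-- the digit of a point with the excess `h`, flagged or not -/
def dgt (fl : Bool) (h : ℕ) : ℕ := cond (fl && Nat.ble h 1) (1 + h) (3 + (h + 1) % 3)

/-- the budget of a point -/
def bgt (fl : Bool) (h : ℕ) : ℕ := max fl.toNat ((h + 1) / 3)

theorem dgt_le (fl : Bool) (h : ℕ) : dgt fl h ≤ 5 := by
  unfold dgt
  cases h1 : fl && Nat.ble h 1
  · rw [cond_false]
    omega
  · rw [Bool.and_eq_true, Nat.ble_eq] at h1
    rw [cond_true]
    omega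

/-- digit and budget together -/
theorem dgt_add (fl : Bool) (h : ℕ) : dgt fl h + 3 * bgt fl h = 4 + h := by
  unfold dgt bgt
  cases fl
  · simp only [Bool.false_and, cond_false, Bool.toNat_false, Nat.zero_max]
    omega
  · rw [Bool.true_and]
    by_cases h1 : h ≤ 1
    · rw [Nat.ble_eq_true_of_le h1, cond_true]
      simp only [Bool.toNat_true]
      omega
    · rw [show Nat.ble h 1 = false from by
        rw [← Bool.not_eq_true, Nat.ble_eq]
        exact h1, cond_false]
      simp only [Bool.toNat_true]
      omega

/-- the digit after `j ≤ 3` more hits -/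
theorem dgt_step (fl : Bool) (h j : ℕ) (hj : j ≤ 3) :
    dgt fl (h + j) = (if 6 ≤ dgt fl h + j then dgt fl h + j - 3 else dgt fl h + j) ∧
      bgt fl (h + j) = bgt fl h + if 6 ≤ dgt fl h + j then 1 else 0 := by
  have h1 := dgt_add fl h
  have h2 := dgt_add fl (h + j)
  have h3 := dgt_le fl h
  have h4 := dgt_le fl (h + j)
  have h5 : ∀ x, 3 ≤ dgt fl x ∨ bgt fl x = fl.toNat := by
    intro x
    unfold dgt bgt
    cases fl
    · left
      rw [Bool.false_and, cond_false]
      omega
    · rw [Bool.true_and]
      by_cases h1 : x ≤ 1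
      · right
        simp only [Bool.toNat_true]
        omega
      · left
        rw [show Nat.ble x 1 = false from by
          rw [← Bool.not_eq_true, Nat.ble_eq]
          exact h1, cond_false]
        omega
  have h6 : bgt fl h ≤ bgt fl (h + j) := by
    unfold bgt
    exact max_le_max le_rfl (Nat.div_le_div_right (by omega))
  have h7 : fl.toNat ≤ bgt fl h := le_max_left _ _
  have h8 := h5 (h + j)
  by_cases h9 : 6 ≤ dgt fl h + j
  · rw [if_pos h9, if_pos h9]
    omega
  · rw [if_neg h9, if_neg h9]
    omega

/-- one more hit of a point with the digit 5 costs one unit -/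
theorem bgt_five {fl : Bool} {h : ℕ} (h5 : dgt fl h = 5) : bgt fl (h + 1) = bgt fl h + 1 := by
  have h1 := (dgt_step fl h 1 (by norm_num)).2
  rw [h5, if_pos (by norm_num)] at h1
  exact h1

theorem bgt_mono {fl : Bool} {h h' : ℕ} (hh : h ≤ h') : bgt fl h ≤ bgt fl h' := by
  unfold bgt
  exact max_le_max le_rfl (Nat.div_le_div_right (by omega))

section

variable {T Z F cap inc e q t : ℕ}

/-- **the criterion by digits**: the number of the points of the triple with the digit 5 -/
theorem bad_of_digits (he : SubRun T Z F cap e)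
    (hinc : ∀ r, inc.testBit r = true → e.testBit r = true)
    (ht : t < 165) (hqt : q ∈ abv.getD t []) (hodd : nT T inc t % 2 = 1)
    (hqi : inc.testBit q = false)
    (bad : (∃ v < 11, ((L 11 3).getD t 0).testBit v = true ∧ Z.testBit v = true ∧
        1 ≤ hv T inc v) ∨
      cap < ∑ v ∈ range 11, bgt (F.testBit v) (hv T inc v) +
        ((range 11).filter fun v => ((L 11 3).getD t 0).testBit v = true ∧
          dgt (F.testBit v) (hv T inc v) = 5).card) :
    e.testBit q = false := by
  refine bad_triple he hinc ht hqt hodd hqi (bad.imp id fun h => lt_of_lt_of_le h ?_)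
  rw [card_filter, ← sum_add_distrib]
  refine sum_le_sum fun v _ => ?_
  show _ ≤ bgt (F.testBit v) (hv T inc v + (((L 11 3).getD t 0).testBit v).toNat)
  by_cases h1 : ((L 11 3).getD t 0).testBit v = true ∧ dgt (F.testBit v) (hv T inc v) = 5
  · rw [if_pos h1, h1.1]
    simp only [Bool.toNat_true]
    rw [bgt_five h1.2]
  · rw [if_neg h1, Nat.add_zero]
    exact bgt_mono (Nat.le_add_right _ _)

/-- a sub-run has no member above a state with too large budget -/
theorem dead_budget (hB : cap < ∑ v ∈ range 11, bgt (F.testBit v) (hv T inc v))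
    (hinc : ∀ r, inc.testBit r = true → e.testBit r = true) : ¬ SubRun T Z F cap e := by
  intro he
  have h := he.sum_le hinc
  unfold bgt at hB
  omega

/-- a sub-run has no member above a state with two hits of a zero point -/
theorem dead_zero {v : ℕ} (hv11 : v < 11) (hz : Z.testBit v = true) (h2 : 2 ≤ hv T inc v)
    (hinc : ∀ r, inc.testBit r = true → e.testBit r = true) : ¬ SubRun T Z F cap e := by
  intro he
  have h := he.le_one hinc hv11 hz
  omega

end

end Pool.Agent.Helper57.TZ
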