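import Pool.Agent.Helper57.TZ.Par

/-!
MP_8ee768_co, project TH-Y', stage 0: numbers with 11 digits of 5 bits.

`dsum f = ∑ v < 11, f v * 32 ^ v`; sums, `land`, shifts, digit sums modulo 31.
-/

set_option autoImplicit false

namespace Pool.Agent.Helper57.TZ

open Finset

/-- the number with the digits `f 0, .., f (n - 1)` in base 32 -/
def dsn (f : ℕ → ℕ) : ℕ → ℕ
  | 0 => 0
  | n + 1 => f 0 + 32 * dsn (fun v => f (v + 1)) n

/-- the number with the digits `f 0, .., f 10` -/
def dsum (f : ℕ → ℕ) : ℕ := dsn f 11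

theorem dsn_congr {f g : ℕ → ℕ} : ∀ {n : ℕ}, (∀ v < n, f v = g v) → dsn f n = dsn g n := by
  intro n
  induction n generalizing f g with
  | zero => intro _; rfl
  | succ n ih =>
    intro h
    show f 0 + 32 * dsn _ n = g 0 + 32 * dsn _ n
    rw [h 0 (Nat.succ_pos n), ih fun v hv => h (v + 1) (by omega)]

theorem dsum_congr {f g : ℕ → ℕ} (h : ∀ v < 11, f v = g v) : dsum f = dsum g := dsn_congr h

theorem dsn_eq_sum (f : ℕ → ℕ) (n : ℕ) : dsn f n = ∑ v ∈ range n, f v * 32 ^ v := by
  induction n generalizing f with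
  | zero => rfl
  | succ n ih =>
    rw [sum_range_succ', pow_zero, mul_one]
    show f 0 + 32 * dsn _ n = _
    rw [ih, mul_sum, Nat.add_comm]
    refine congrArg (fun x => x + f 0) (sum_congr rfl fun v _ => ?_)
    rw [pow_succ]
    ring

theorem dsum_eq_sum (f : ℕ → ℕ) : dsum f = ∑ v ∈ range 11, f v * 32 ^ v := dsn_eq_sum f 11

theorem dsn_add (f g : ℕ → ℕ) (n : ℕ) : dsn f n + dsn g n = dsn (fun v => f v + g v) n := by
  induction n generalizing f g with
  | zero => rfl
  | succ n ih =>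
    show f 0 + 32 * dsn (fun v => f (v + 1)) n + (g 0 + 32 * dsn (fun v => g (v + 1)) n) =
      f 0 + g 0 + 32 * dsn (fun v => f (v + 1) + g (v + 1)) n
    rw [← ih]
    ring

theorem dsum_add (f g : ℕ → ℕ) : dsum f + dsum g = dsum (fun v => f v + g v) := dsn_add f g 11

theorem dsn_mul (c : ℕ) (f : ℕ → ℕ) (n : ℕ) : c * dsn f n = dsn (fun v => c * f v) n := by
  induction n generalizing f with
  | zero => rfl
  | succ n ih =>
    show c * (f 0 + 32 * dsn (fun v => f (v + 1)) n) = c * f 0 + 32 * dsn (fun v => c * f (v + 1)) n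
    rw [← ih]
    ring

theorem dsum_mul (c : ℕ) (f : ℕ → ℕ) : c * dsum f = dsum (fun v => c * f v) := dsn_mul c f 11

theorem dsum_sub {f g : ℕ → ℕ} (h : ∀ v < 11, g v ≤ f v) :
    dsum f - dsum g = dsum (fun v => f v - g v) := by
  have h1 : dsum (fun v => f v - g v) + dsum g = dsum f := by
    rw [dsum_add]
    exact dsum_congr fun v hv => Nat.sub_add_cancel (h v hv)
  omega

theorem dsn_lt {f : ℕ → ℕ} {n : ℕ} (h : ∀ v < n, f v < 32) : dsn f n < 32 ^ n := by
  induction n generalizing f with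
  | zero => exact Nat.one_pos
  | succ n ih =>
    have h1 := ih (f := fun v => f (v + 1)) fun v hv => h (v + 1) (by omega)
    have h2 := h 0 (Nat.succ_pos n)
    show f 0 + 32 * dsn (fun v => f (v + 1)) n < _
    rw [pow_succ]
    omega

theorem land_digit {a b c d : ℕ} (ha : a < 32) (hc : c < 32) :
    (a + 32 * b) &&& (c + 32 * d) = (a &&& c) + 32 * (b &&& d) := by
  have h5 : (32 : ℕ) = 2 ^ 5 := rfl
  have e : (a &&& c) < 32 := lt_of_le_of_lt Nat.and_le_left ha
  refine Nat.eq_of_testBit_eq fun i => ?_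
  rw [Nat.testBit_and, h5, Nat.add_comm a, Nat.add_comm c, Nat.add_comm (a &&& c),
    Nat.testBit_two_pow_mul_add _ (h5 ▸ ha), Nat.testBit_two_pow_mul_add _ (h5 ▸ hc),
    Nat.testBit_two_pow_mul_add _ (h5 ▸ e)]
  by_cases hi : i < 5
  · rw [if_pos hi, if_pos hi, if_pos hi, Nat.testBit_and]
  · rw [if_neg hi, if_neg hi, if_neg hi, Nat.testBit_and]

theorem dsn_land {f g : ℕ → ℕ} {n : ℕ} (hf : ∀ v < n, f v < 32) (hg : ∀ v < n, g v < 32) :
    dsn f n &&& dsn g n = dsn (fun v => f v &&& g v) n := by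
  induction n generalizing f g with
  | zero =>
    show 0 &&& 0 = 0
    rfl
  | succ n ih =>
    show (f 0 + 32 * dsn (fun v => f (v + 1)) n) &&& (g 0 + 32 * dsn (fun v => g (v + 1)) n) =
      (f 0 &&& g 0) + 32 * dsn (fun v => f (v + 1) &&& g (v + 1)) n
    rw [land_digit (hf 0 (Nat.succ_pos n)) (hg 0 (Nat.succ_pos n)),
      ih (fun v hv => hf (v + 1) (by omega)) fun v hv => hg (v + 1) (by omega)]

theorem dsum_land {f g : ℕ → ℕ} (hf : ∀ v < 11, f v < 32) (hg : ∀ v < 11, g v < 32) :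
    dsum f &&& dsum g = dsum (fun v => f v &&& g v) := dsn_land hf hg

/-- digit sums modulo 31 -/
theorem dsn_mod (f : ℕ → ℕ) (n : ℕ) : dsn f n % 31 = (∑ v ∈ range n, f v) % 31 := by
  induction n generalizing f with
  | zero => rfl
  | succ n ih =>
    rw [sum_range_succ']
    show (f 0 + 32 * dsn (fun v => f (v + 1)) n) % 31 = _
    have h1 := ih fun v => f (v + 1)
    omega

theorem dsum_mod {f : ℕ → ℕ} (h : ∑ v ∈ range 11, f v < 31) :
    dsum f % 31 = ∑ v ∈ range 11, f v := by
  unfold dsum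
  rw [dsn_mod, Nat.mod_eq_of_lt h]

theorem dsn_eq_zero {f : ℕ → ℕ} {n : ℕ} : dsn f n = 0 ↔ ∀ v < n, f v = 0 := by
  induction n generalizing f with
  | zero =>
    constructor
    · intro _ v hv
      omega
    · intro _
      rfl
  | succ n ih =>
    have h1 := ih (f := fun v => f (v + 1))
    constructor
    · intro h v hv
      have h2 : f 0 + 32 * dsn (fun v => f (v + 1)) n = 0 := h
      rcases v with _ | v
      · omega
      · exact h1.1 (by omega) v (by omega)
    · intro h
      show f 0 + 32 * dsn (fun v => f (v + 1)) n = 0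
      rw [h 0 (Nat.succ_pos n), h1.2 fun v hv => h (v + 1) (by omega)]

theorem dsum_eq_zero {f : ℕ → ℕ} : dsum f = 0 ↔ ∀ v < 11, f v = 0 := dsn_eq_zero

theorem dsn_inj {f g : ℕ → ℕ} {n : ℕ} (hf : ∀ v < n, f v < 32) (hg : ∀ v < n, g v < 32)
    (h : dsn f n = dsn g n) : ∀ v < n, f v = g v := by
  induction n generalizing f g with
  | zero =>
    intro v hv
    omega
  | succ n ih =>
    have h2 : f 0 + 32 * dsn (fun v => f (v + 1)) n = g 0 + 32 * dsn (fun v => g (v + 1)) n := h
    have h3 := hf 0 (Nat.succ_pos n)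
    have h4 := hg 0 (Nat.succ_pos n)
    intro v hv
    rcases v with _ | v
    · omega
    · exact ih (f := fun v => f (v + 1)) (g := fun v => g (v + 1)) (fun w hw => hf (w + 1) (by omega))
        (fun w hw => hg (w + 1) (by omega)) (by omega) v (by omega)

theorem dsum_inj {f g : ℕ → ℕ} (hf : ∀ v < 11, f v < 32) (hg : ∀ v < 11, g v < 32)
    (h : dsum f = dsum g) : ∀ v < 11, f v = g v := dsn_inj hf hg h

/-- the digit masks -/
def ONE5 : ℕ := nat_lit 1162219258676257

theorem ONE5_eq : ONE5 = dsum fun _ => 1 := by decide +kernel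

/-- **detecting the digits which are at least 6** -/
theorem over_spec {f : ℕ → ℕ} (hf : ∀ v < 11, f v ≤ 13) :
    Nat.land (dsum f + 2 * ONE5) (8 * ONE5) = dsum fun v => if 6 ≤ f v then 8 else 0 := by
  rw [ONE5_eq, dsum_mul, dsum_mul, dsum_add]
  have e := dsum_land (f := fun v => f v + 2 * 1) (g := fun _ => 8 * 1)
    (fun v hv => by have := hf v hv; show f v + 2 * 1 < 32; omega) (fun v _ => by norm_num)
  have e2 : Nat.land (dsum fun v => f v + 2 * 1) (dsum fun _ => 8 * 1) =
    (dsum fun v => f v + 2 * 1) &&& (dsum fun _ => 8 * 1) := rfl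
  rw [e2, e]
  refine dsum_congr fun v hv => ?_
  have h1 := hf v hv
  have h2 : ∀ x < 14, (x + 2 * 1) &&& (8 * 1) = if 6 ≤ x then 8 else 0 := by decide
  exact h2 (f v) (by omega)

theorem shift3 (f : ℕ → ℕ) : Nat.shiftRight (dsum fun v => 8 * f v) 3 = dsum f := by
  rw [← dsum_mul]
  have e : Nat.shiftRight (8 * dsum f) 3 = (8 * dsum f) >>> 3 := rfl
  rw [e, Nat.shiftRight_eq_div_pow]
  omega

/-- **normalization of the digits** -/
theorem norm_spec {f : ℕ → ℕ} (hf : ∀ v < 11, f v ≤ 13) {ov : ℕ}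
    (hov : ov = Nat.shiftRight (Nat.land (dsum f + 2 * ONE5) (8 * ONE5)) 3) :
    ov = (dsum fun v => if 6 ≤ f v then 1 else 0) ∧
      Nat.sub (dsum f) (3 * ov) = (dsum fun v => if 6 ≤ f v then f v - 3 else f v) ∧
      ov % 31 = ((range 11).filter fun v => 6 ≤ f v).card := by
  have h0 : (dsum fun v => if 6 ≤ f v then 8 else 0) =
      dsum fun v => 8 * (if 6 ≤ f v then 1 else 0) := by
    refine dsum_congr fun v _ => ?_
    by_cases h : 6 ≤ f v
    · rw [if_pos h, if_pos h]
    · rw [if_neg h, if_neg h]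
  have h1 : ov = dsum fun v => if 6 ≤ f v then 1 else 0 := by
    rw [hov, over_spec hf, h0, shift3]
  refine ⟨h1, ?_, ?_⟩
  · have h2 : dsum f - dsum (fun v => 3 * (if 6 ≤ f v then 1 else 0)) =
        dsum (fun v => f v - 3 * (if 6 ≤ f v then 1 else 0)) := by
      refine dsum_sub fun v _ => ?_
      by_cases h : 6 ≤ f v
      · rw [if_pos h]
        omega
      · rw [if_neg h]
        omega
    rw [h1, dsum_mul]
    refine Eq.trans h2 (dsum_congr fun v _ => ?_)
    by_cases h : 6 ≤ f v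
    · rw [if_pos h, if_pos h]
    · rw [if_neg h, if_neg h]
      rfl
  · rw [h1, dsum_mod, card_filter]
    refine lt_of_le_of_lt (b := ∑ v ∈ range 11, 1) (sum_le_sum fun v _ => ?_) (by decide)
    by_cases h : 6 ≤ f v
    · rw [if_pos h]
    · rw [if_neg h]
      exact Nat.zero_le _

end Pool.Agent.Helper57.TZ
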