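import Pool.Agent.Helper57.TZ.Bad
import Pool.Agent.Helper63.SIMD.Pack

/-!
MP_8ee768_co, project TH-Y', stage 0: numbers with 11 digits of `w` bits at the positions `pos v < n`.

`dw w pos f = ∑ v < 11, f v * 2 ^ (w * pos v)`; sums, `land`, shifts, the reduction of the digits, sums
of digits modulo `2 ^ w - 1`, the budget above the bit `w * n`.
-/

set_option autoImplicit false

namespace Pool.Agent.Helper57.TZ

open Finset
open Pool.Agent.Helper63.SIMD

/-- digits `f v` of `w` bits at the positions `pos v` -/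
def dw (w : ℕ) (pos : ℕ → ℕ) (f : ℕ → ℕ) : ℕ := ∑ v ∈ range 11, f v * 2 ^ (w * pos v)

/-- the digit at the slot `k` -/
def gof (pos f : ℕ → ℕ) (k : ℕ) : ℕ := ∑ v ∈ range 11, if pos v = k then f v else 0

/-- positions: different slots below `n` -/
structure PosOK (n : ℕ) (pos : ℕ → ℕ) : Prop where
  lt : ∀ v < 11, pos v < n
  inj : ∀ u < 11, ∀ v < 11, pos u = pos v → u = v

section

variable {w n : ℕ} {pos f g : ℕ → ℕ}

theorem dw_congr (h : ∀ v < 11, f v = g v) : dw w pos f = dw w pos g := by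
  unfold dw
  exact sum_congr rfl fun v hv => by rw [h v (mem_range.1 hv)]

theorem dw_add : dw w pos f + dw w pos g = dw w pos (fun v => f v + g v) := by
  unfold dw
  rw [← sum_add_distrib]
  exact sum_congr rfl fun v _ => by ring

theorem dw_mul (c : ℕ) : c * dw w pos f = dw w pos (fun v => c * f v) := by
  unfold dw
  rw [mul_sum]
  exact sum_congr rfl fun v _ => by ring

theorem dw_sub (h : ∀ v < 11, g v ≤ f v) :
    dw w pos f - dw w pos g = dw w pos (fun v => f v - g v) := by
  have h1 : dw w pos (fun v => f v - g v) + dw w pos g = dw w pos f := by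
    rw [dw_add]
    exact dw_congr fun v hv => Nat.sub_add_cancel (h v hv)
  omega

theorem gof_pos (hp : PosOK n pos) {v : ℕ} (hv : v < 11) : gof pos f (pos v) = f v := by
  unfold gof
  rw [sum_eq_single v]
  · rw [if_pos rfl]
  · intro u hu huv
    rw [mem_range] at hu
    rw [if_neg fun h => huv (hp.inj u hu v hv h)]
  · intro h
    exact absurd (mem_range.2 hv) h

theorem gof_other {k : ℕ} (hk : ∀ v < 11, pos v ≠ k) : gof pos f k = 0 := by
  unfold gof
  refine sum_eq_zero fun v hv => ?_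
  rw [if_neg (hk v (mem_range.1 hv))]

theorem gof_cases (hp : PosOK n pos) (k : ℕ) :
    (∃ v < 11, pos v = k ∧ ∀ f : ℕ → ℕ, gof pos f k = f v) ∨ ∀ f : ℕ → ℕ, gof pos f k = 0 := by
  by_cases h : ∃ v < 11, pos v = k
  · obtain ⟨v, hv, rfl⟩ := h
    exact Or.inl ⟨v, hv, rfl, fun f => gof_pos hp hv⟩
  · right
    intro f
    refine gof_other fun v hv h2 => h ⟨v, hv, h2⟩

/-- as a packed number -/
theorem dw_eq_pk (hp : PosOK n pos) : dw w pos f = pk w n (gof pos f) := by
  unfold dw pk gof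
  have h1 : ∀ k ∈ range n, (∑ v ∈ range 11, if pos v = k then f v else 0) * 2 ^ (w * k) =
      ∑ v ∈ range 11, if pos v = k then f v * 2 ^ (w * pos v) else 0 := by
    intro k _
    rw [sum_mul]
    refine sum_congr rfl fun v _ => ?_
    by_cases h : pos v = k
    · rw [if_pos h, if_pos h, h]
    · rw [if_neg h, if_neg h, Nat.zero_mul]
  rw [sum_congr rfl h1, sum_comm]
  refine sum_congr rfl fun v hv => ?_
  rw [sum_ite_eq, if_pos (mem_range.2 (hp.lt v (mem_range.1 hv)))]

theorem gof_lt (hp : PosOK n pos) (hf : ∀ v < 11, f v < 2 ^ w) (k : ℕ) : gof pos f k < 2 ^ w := by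
  rcases gof_cases hp k with ⟨v, hv, -, h⟩ | h
  · rw [h]
    exact hf v hv
  · rw [h]
    exact Nat.two_pow_pos w

theorem dw_lt (hp : PosOK n pos) (hf : ∀ v < 11, f v < 2 ^ w) : dw w pos f < 2 ^ (w * n) := by
  rw [dw_eq_pk hp]
  exact pk_lt fun k _ => gof_lt hp hf k

theorem gof_land (hp : PosOK n pos) (k : ℕ) :
    gof pos f k &&& gof pos g k = gof pos (fun v => f v &&& g v) k := by
  rcases gof_cases hp k with ⟨v, hv, -, h⟩ | h
  · rw [h, h, h]
  · rw [h, h, h]
    rfl

theorem dw_land (hp : PosOK n pos) (hf : ∀ v < 11, f v < 2 ^ w) (hg : ∀ v < 11, g v < 2 ^ w) :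
    dw w pos f &&& dw w pos g = dw w pos (fun v => f v &&& g v) := by
  rw [dw_eq_pk hp, dw_eq_pk hp, dw_eq_pk hp, pk_land (fun k _ => gof_lt hp hf k)
    fun k _ => gof_lt hp hg k]
  exact pk_congr fun k _ => gof_land hp k

theorem gof_lor (hp : PosOK n pos) (k : ℕ) :
    gof pos f k ||| gof pos g k = gof pos (fun v => f v ||| g v) k := by
  rcases gof_cases hp k with ⟨v, hv, -, h⟩ | h
  · rw [h, h, h]
  · rw [h, h, h]
    rfl

theorem dw_lor (hp : PosOK n pos) (hf : ∀ v < 11, f v < 2 ^ w) (hg : ∀ v < 11, g v < 2 ^ w) :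
    dw w pos f ||| dw w pos g = dw w pos (fun v => f v ||| g v) := by
  rw [dw_eq_pk hp, dw_eq_pk hp, dw_eq_pk hp, pk_lor (fun k _ => gof_lt hp hf k)
    fun k _ => gof_lt hp hg k]
  exact pk_congr fun k _ => gof_lor hp k

theorem dw_eq_zero (hp : PosOK n pos) (hf : ∀ v < 11, f v < 2 ^ w) :
    dw w pos f = 0 ↔ ∀ v < 11, f v = 0 := by
  constructor
  · intro h v hv
    unfold dw at h
    rw [sum_eq_zero_iff] at h
    have h1 := h v (mem_range.2 hv)
    have h2 := Nat.two_pow_pos (w * pos v)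
    rcases Nat.mul_eq_zero.1 h1 with h3 | h3
    · exact h3
    · omega
  · intro h
    unfold dw
    exact sum_eq_zero fun v hv => by rw [h v (mem_range.1 hv), Nat.zero_mul]

theorem dw_inj (hp : PosOK n pos) (hf : ∀ v < 11, f v < 2 ^ w) (hg : ∀ v < 11, g v < 2 ^ w)
    (h : dw w pos f = dw w pos g) : ∀ v < 11, f v = g v := by
  intro v hv
  rw [dw_eq_pk hp, dw_eq_pk hp] at h
  have h1 := (pk_inj (fun k _ => gof_lt hp hf k) fun k _ => gof_lt hp hg k).1 h (pos v)
    (hp.lt v hv)
  rw [gof_pos hp hv, gof_pos hp hv] at h1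
  exact h1

/-- one digit -/
theorem dw_single (v : ℕ) (hv : v < 11) (x : ℕ) :
    dw w pos (fun u => if u = v then x else 0) = x * 2 ^ (w * pos v) := by
  unfold dw
  rw [sum_eq_single v]
  · show (if v = v then x else 0) * 2 ^ (w * pos v) = _
    rw [if_pos rfl]
  · intro u _ huv
    show (if u = v then x else 0) * 2 ^ (w * pos u) = _
    rw [if_neg huv, Nat.zero_mul]
  · intro h
    exact absurd (mem_range.2 hv) h

theorem testBit_pk : ∀ {N : ℕ} {a : ℕ → ℕ} {k i : ℕ}, (∀ k < N, a k < 2 ^ w) → k < N → i < w →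
    (pk w N a).testBit (w * k + i) = (a k).testBit i := by
  intro N
  induction N with
  | zero =>
    intro a k i _ hk
    omega
  | succ N ih =>
    intro a k i ha hk hi
    rw [pk_cons, Nat.testBit_two_pow_mul_add _ (ha 0 (Nat.succ_pos N))]
    rcases k with _ | k
    · rw [if_pos (by omega), Nat.mul_zero, Nat.zero_add]
    · have h1 : w * (k + 1) + i = w + (w * k + i) := by ring
      rw [h1, if_neg (by omega), Nat.add_sub_cancel_left]
      exact ih (a := fun k => a (k + 1)) (fun k hk => ha (k + 1) (by omega)) (by omega) hi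

theorem testBit_dw (hp : PosOK n pos) (hf : ∀ v < 11, f v < 2 ^ w) {v i : ℕ} (hv : v < 11)
    (hi : i < w) : (dw w pos f).testBit (w * pos v + i) = (f v).testBit i := by
  rw [dw_eq_pk hp, testBit_pk (fun k _ => gof_lt hp hf k) (hp.lt v hv) hi, gof_pos hp hv]

/-- a shift to the right followed by a mask with different fields, the rest above ignored -/
theorem pk_shift_land' {N p : ℕ} {a m : ℕ → ℕ} (hw : p ≤ w) (R : ℕ) (hm : ∀ i < N, m i < 2 ^ (w - p))
    (ha : ∀ i < N, a i < 2 ^ w) :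
    Nat.land (Nat.shiftRight (pk w N a + 2 ^ (w * N) * R) p) (pk w N m) =
      pk w N (fun i => Nat.land (Nat.shiftRight (a i) p) (m i)) := by
  have e1 : ∀ x y : ℕ, Nat.land x y = x &&& y := fun _ _ => rfl
  have e2 : ∀ x y : ℕ, Nat.shiftRight x y = x >>> y := fun _ _ => rfl
  induction N generalizing a m with
  | zero => simp [pk, e1]
  | succ N ih =>
    have ih' := ih (a := fun i => a (i + 1)) (m := fun i => m (i + 1))
      (fun i hi => hm (i + 1) (by omega)) (fun i hi => ha (i + 1) (by omega))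
    have h0 := ha 0 (Nat.succ_pos N)
    have hm0 := hm 0 (Nat.succ_pos N)
    have hmW : m 0 < 2 ^ w := lt_of_lt_of_le hm0 (Nat.pow_le_pow_right (by norm_num) (Nat.sub_le _ _))
    have e3 : pk w (N + 1) a + 2 ^ (w * (N + 1)) * R =
        2 ^ w * (pk w N (fun i => a (i + 1)) + 2 ^ (w * N) * R) + a 0 := by
      rw [pk_cons, Nat.mul_add w N 1, Nat.mul_one, pow_add]
      ring
    rw [e3, pk_cons, pk_cons, ← ih']
    rw [e1, e1, e2, e2, e1, e2]
    have h1 : (a 0 >>> p) &&& m 0 < 2 ^ w := lt_of_le_of_lt Nat.and_le_right hmW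
    refine Nat.eq_of_testBit_eq fun j => ?_
    rw [Nat.testBit_and, Nat.testBit_shiftRight, Nat.testBit_two_pow_mul_add _ h0,
      Nat.testBit_two_pow_mul_add _ hmW, Nat.testBit_two_pow_mul_add _ h1]
    by_cases hj : j < w
    · rw [if_pos hj, if_pos hj, Nat.testBit_and, Nat.testBit_shiftRight]
      by_cases hpj : p + j < w
      · rw [if_pos hpj]
      · have h2 : (m 0).testBit j = false := Nat.testBit_lt_two_pow (lt_of_lt_of_le hm0
          (Nat.pow_le_pow_right (by norm_num) (by omega)))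
        rw [h2, Bool.and_false, Bool.and_false]
    · rw [if_neg hj, if_neg hj, if_neg (by omega : ¬ p + j < w), Nat.testBit_and,
        Nat.testBit_shiftRight, show p + j - w = p + (j - w) by omega]

/-- **detecting the digits which are at least 6**, the budget above the digits -/
theorem overW_spec (hp : PosOK n pos) (hw : 5 ≤ w) (hf : ∀ v < 11, f v ≤ 21) (B : ℕ) :
    Nat.land (Nat.shiftRight (Nat.add (dw w pos f + 2 ^ (w * n) * B)
      (Nat.mul 10 (dw w pos fun _ => 1))) 4) (dw w pos fun _ => 1) =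
      dw w pos fun v => if 6 ≤ f v then 1 else 0 := by
  have h32 : 2 ^ 5 ≤ 2 ^ w := Nat.pow_le_pow_right (by norm_num) hw
  have e0 : Nat.add (dw w pos f + 2 ^ (w * n) * B) (Nat.mul 10 (dw w pos fun _ => 1)) =
      dw w pos (fun v => f v + 10 * 1) + 2 ^ (w * n) * B := by
    show dw w pos f + 2 ^ (w * n) * B + 10 * (dw w pos fun _ => 1) = _
    rw [dw_mul, ← dw_add, Nat.add_right_comm]
  rw [e0, dw_eq_pk hp, dw_eq_pk hp, dw_eq_pk hp, pk_shift_land' (by omega) B]
  · refine pk_congr fun k _ => ?_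
    rcases gof_cases hp k with ⟨v, hv, -, h⟩ | h
    · rw [h, h, h]
      have h1 := hf v hv
      have h2 : ∀ x < 22, Nat.land (Nat.shiftRight (x + 10 * 1) 4) 1 = if 6 ≤ x then 1 else 0 := by
        decide
      exact h2 (f v) (by omega)
    · rw [h, h, h]
      rfl
  · intro k _
    have h3 : 2 ^ 1 ≤ 2 ^ (w - 4) := Nat.pow_le_pow_right (by norm_num) (by omega)
    rcases gof_cases hp k with ⟨v, hv, -, h⟩ | h
    · rw [h]
      omega
    · rw [h]
      omega
  · intro k _
    refine gof_lt hp (fun v hv => ?_) k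
    have := hf v hv
    omega

theorem two_pow_mod_pred (w k : ℕ) : 2 ^ (w * k) % (2 ^ w - 1) = 1 % (2 ^ w - 1) := by
  have h1 : 1 ≤ 2 ^ w := Nat.one_le_two_pow
  induction k with
  | zero => rw [Nat.mul_zero, pow_zero]
  | succ k ih =>
    rw [Nat.mul_add, Nat.mul_one, pow_add, Nat.mul_mod, ih]
    have h2 : 2 ^ w % (2 ^ w - 1) = 1 % (2 ^ w - 1) := by
      obtain ⟨x, hx⟩ : ∃ x, x = 2 ^ w - 1 := ⟨_, rfl⟩
      have h3 : 2 ^ w = 1 + x := by omega
      rw [h3, show 1 + x - 1 = x by omega, Nat.add_mod_right]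
    rw [h2, ← Nat.mul_mod, Nat.mul_one]

/-- the sum of the digits modulo `2 ^ w - 1` -/
theorem dw_mod (h : ∑ v ∈ range 11, f v < 2 ^ w - 1) :
    dw w pos f % (2 ^ w - 1) = ∑ v ∈ range 11, f v := by
  have h1 : dw w pos f % (2 ^ w - 1) = (∑ v ∈ range 11, f v) % (2 ^ w - 1) := by
    unfold dw
    rw [sum_nat_mod, sum_nat_mod (s := range 11) (f := f)]
    congr 1
    refine sum_congr rfl fun v _ => ?_
    rw [Nat.mul_mod, two_pow_mod_pred, ← Nat.mul_mod, Nat.mul_one]
  rw [h1, Nat.mod_eq_of_lt h]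

theorem sum_ind (p : ℕ → Prop) [DecidablePred p] :
    ∑ v ∈ range 11, (if p v then 1 else 0) = ((range 11).filter fun v => p v).card := by
  rw [card_filter]

theorem card_le_eleven (p : ℕ → Prop) [DecidablePred p] :
    ((range 11).filter fun v => p v).card ≤ 11 := by
  have h := card_filter_le (range 11) p
  rw [card_range] at h
  exact h

/-- **reduced digits and the budget** -/
theorem normW_spec (hw : 5 ≤ w) (B : ℕ) {G : ℕ}
    (hG : G = dw w pos fun v => if 6 ≤ f v then 1 else 0) :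
    Nat.sub (Nat.add (dw w pos f + 2 ^ (w * n) * B)
      (Nat.shiftLeft (Nat.mod G (2 ^ w - 1)) (w * n))) (Nat.mul 3 G) =
      dw w pos (fun v => if 6 ≤ f v then f v - 3 else f v) +
        2 ^ (w * n) * (B + ((range 11).filter fun v => 6 ≤ f v).card) := by
  have h32 : 2 ^ 5 ≤ 2 ^ w := Nat.pow_le_pow_right (by norm_num) hw
  have h1 : G % (2 ^ w - 1) = ((range 11).filter fun v => 6 ≤ f v).card := by
    rw [hG, dw_mod, sum_ind]
    rw [sum_ind]
    have := card_le_eleven fun v => 6 ≤ f v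
    omega
  have h2 : Nat.shiftLeft (Nat.mod G (2 ^ w - 1)) (w * n) =
      2 ^ (w * n) * ((range 11).filter fun v => 6 ≤ f v).card := by
    have e : Nat.shiftLeft (Nat.mod G (2 ^ w - 1)) (w * n) = (G % (2 ^ w - 1)) <<< (w * n) := rfl
    rw [e, h1, Nat.shiftLeft_eq, Nat.mul_comm]
  have h3 : dw w pos f = dw w pos (fun v => if 6 ≤ f v then f v - 3 else f v) + 3 * G := by
    rw [hG, dw_mul, dw_add]
    refine dw_congr fun v hv => ?_
    by_cases h : 6 ≤ f v
    · rw [if_pos h, if_pos h]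
      omega
    · rw [if_neg h, if_neg h]
      rfl
  rw [h2]
  show dw w pos f + 2 ^ (w * n) * B + 2 ^ (w * n) * _ - 3 * G = _
  rw [h3, Nat.mul_add]
  omega

/-- the budget test -/
theorem bleW_cap (hp : PosOK n pos) (hf : ∀ v < 11, f v < 2 ^ w) (B cap : ℕ) :
    Nat.ble (Nat.shiftLeft (Nat.add cap 1) (w * n)) (dw w pos f + 2 ^ (w * n) * B) =
      decide (cap < B) := by
  have e : Nat.shiftLeft (Nat.add cap 1) (w * n) = (cap + 1) <<< (w * n) := rfl
  have h1 := dw_lt hp hf
  rw [e, Nat.shiftLeft_eq, Bool.eq_iff_iff, Nat.ble_eq, decide_eq_true_eq]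
  constructor
  · intro h
    by_contra h2
    have h3 : B ≤ cap := by omega
    have h4 : 2 ^ (w * n) * B ≤ 2 ^ (w * n) * cap := Nat.mul_le_mul_left _ h3
    rw [Nat.add_mul, Nat.mul_comm cap] at h
    omega
  · intro h
    have h4 : 2 ^ (w * n) * (cap + 1) ≤ 2 ^ (w * n) * B := Nat.mul_le_mul_left _ h
    rw [Nat.mul_comm]
    omega

end

/-! ## 4 bits: cells -/

section

variable {n : ℕ} {pos f : ℕ → ℕ}

/-- **detecting the digits which are at least 6**, digits of 4 bits, anything above -/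
theorem over4_spec (hp : PosOK n pos) (hf : ∀ v < 11, f v ≤ 13) (R : ℕ) :
    Nat.land (Nat.shiftRight (Nat.add (dw 4 pos f + 2 ^ (4 * n) * R)
      (Nat.mul 2 (dw 4 pos fun _ => 1))) 3) (dw 4 pos fun _ => 1) =
      dw 4 pos fun v => if 6 ≤ f v then 1 else 0 := by
  have e0 : Nat.add (dw 4 pos f + 2 ^ (4 * n) * R) (Nat.mul 2 (dw 4 pos fun _ => 1)) =
      dw 4 pos (fun v => f v + 2 * 1) + 2 ^ (4 * n) * R := by
    show dw 4 pos f + 2 ^ (4 * n) * R + 2 * (dw 4 pos fun _ => 1) = _
    rw [dw_mul, ← dw_add, Nat.add_right_comm]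
  rw [e0, dw_eq_pk hp, dw_eq_pk hp, dw_eq_pk hp, pk_shift_land' (by norm_num) R]
  · refine pk_congr fun k _ => ?_
    rcases gof_cases hp k with ⟨v, hv, -, h⟩ | h
    · rw [h, h, h]
      have h1 := hf v hv
      have h2 : ∀ x < 14, Nat.land (Nat.shiftRight (x + 2 * 1) 3) 1 = if 6 ≤ x then 1 else 0 := by
        decide
      exact h2 (f v) (by omega)
    · rw [h, h, h]
      rfl
  · intro k _
    rcases gof_cases hp k with ⟨v, hv, -, h⟩ | h
    · rw [h]
      norm_num
    · rw [h]
      norm_num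
  · intro k _
    refine gof_lt hp (fun v hv => ?_) k
    have := hf v hv
    show f v + 2 * 1 < 2 ^ 4
    omega

/-- **reduced digits**, anything (with the budget) above -/
theorem norm4_spec (R s : ℕ) {G : ℕ} (hG : G = dw 4 pos fun v => if 6 ≤ f v then 1 else 0) :
    Nat.sub (Nat.add (dw 4 pos f + 2 ^ (4 * n) * R)
      (Nat.shiftLeft (Nat.mod G 15) (4 * n + s))) (Nat.mul 3 G) =
      dw 4 pos (fun v => if 6 ≤ f v then f v - 3 else f v) +
        2 ^ (4 * n) * (R + 2 ^ s * ((range 11).filter fun v => 6 ≤ f v).card) := by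
  have h1 : G % 15 = ((range 11).filter fun v => 6 ≤ f v).card := by
    rw [hG, show (15 : ℕ) = 2 ^ 4 - 1 by norm_num, dw_mod, sum_ind]
    rw [sum_ind]
    have := card_le_eleven fun v => 6 ≤ f v
    omega
  have h2 : Nat.shiftLeft (Nat.mod G 15) (4 * n + s) =
      2 ^ (4 * n) * (2 ^ s * ((range 11).filter fun v => 6 ≤ f v).card) := by
    have e : Nat.shiftLeft (Nat.mod G 15) (4 * n + s) = (G % 15) <<< (4 * n + s) := rfl
    rw [e, h1, Nat.shiftLeft_eq, pow_add]
    ring
  have h3 : dw 4 pos f = dw 4 pos (fun v => if 6 ≤ f v then f v - 3 else f v) + 3 * G := by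
    rw [hG, dw_mul, dw_add]
    refine dw_congr fun v hv => ?_
    by_cases h : 6 ≤ f v
    · rw [if_pos h, if_pos h]
      omega
    · rw [if_neg h, if_neg h]
      rfl
  rw [h2]
  show dw 4 pos f + 2 ^ (4 * n) * R + 2 ^ (4 * n) * _ - 3 * G = _
  rw [h3, Nat.mul_add]
  omega

end

/-- the positions of the points in the cube -/
theorem posOK_cube : PosOK 2048 fun v => 2 ^ v where
  lt := by decide
  inj := fun _ _ _ _ h => Nat.pow_right_injective (le_refl 2) h

/-! ## 14 bits, the positions `2 ^ v % 13` -/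

/-- the positions -/
def po (v : ℕ) : ℕ := 2 ^ v % 13

theorem posOK_po : PosOK 13 po where
  lt := fun v _ => Nat.mod_lt _ (by norm_num)
  inj := by decide

/-- **spreading a word of 13 bits**: one multiplication -/
theorem spread_spec {x : ℕ} (hx : x < 2 ^ 13) :
    Nat.land (Nat.mul x (pk 13 13 fun _ => 1)) (∑ k ∈ range 13, 2 ^ (14 * k)) =
      ∑ k ∈ range 13, (x.testBit k).toNat * 2 ^ (14 * k) := by
  have h1 : Nat.mul x (pk 13 13 fun _ => 1) = pk 13 13 fun _ => x := by
    have h := mul_pk (W := 13) (N := 13) (a := fun _ => 1) x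
    refine h.trans (pk_congr fun i _ => Nat.mul_one x)
  have e1 : ∀ y z : ℕ, Nat.land y z = y &&& z := fun _ _ => rfl
  have h2 : (∑ k ∈ range 13, 2 ^ (14 * k)) = pk 14 13 fun _ => 1 := by
    unfold pk
    exact sum_congr rfl fun k _ => (Nat.one_mul _).symm
  have h3 : (∑ k ∈ range 13, (x.testBit k).toNat * 2 ^ (14 * k)) =
      pk 14 13 fun k => (x.testBit k).toNat := rfl
  have hb : ∀ k < 13, (x.testBit k).toNat < 2 ^ 14 := fun k _ => by
    cases x.testBit k
    · norm_num
    · norm_num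
  rw [h1, h2, h3, e1]
  refine Nat.eq_of_testBit_eq fun j => ?_
  rw [Nat.testBit_and]
  by_cases hj : j < 182
  · obtain ⟨k, i, hk, hi, rfl⟩ : ∃ k i, k < 13 ∧ i < 14 ∧ j = 14 * k + i :=
      ⟨j / 14, j % 14, by omega, by omega, by omega⟩
    rw [testBit_pk (fun _ _ => by norm_num) hk hi, testBit_pk hb hk hi]
    by_cases hi0 : i = 0
    · subst hi0
      have h4 : 14 * k + 0 = 13 * k + k := by ring
      rw [h4, testBit_pk (fun _ _ => hx) hk hk]
      cases x.testBit k <;> decide
    · have h5 : ∀ i < 14, i ≠ 0 → (1 : ℕ).testBit i = false := by decide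
      rw [h5 i hi hi0, Bool.and_false]
      cases x.testBit k
      · exact (Nat.zero_testBit i).symm
      · exact (h5 i hi hi0).symm
  · have h6 : (pk 14 13 fun _ => 1).testBit j = false :=
      Nat.testBit_lt_two_pow (lt_of_lt_of_le (pk_lt fun _ _ => by norm_num)
        (Nat.pow_le_pow_right (by norm_num) (by omega)))
    have h7 : (pk 14 13 fun k => (x.testBit k).toNat).testBit j = false :=
      Nat.testBit_lt_two_pow (lt_of_lt_of_le (pk_lt hb)
        (Nat.pow_le_pow_right (by norm_num) (by omega)))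
    rw [h6, h7, Bool.and_false]

end Pool.Agent.Helper57.TZ
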