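import Pool.Agent.Helper57.TZ.RelE
import Pool.Agent.Helper28.TY.V3K

/-!
MP_8ee768_co, project TH-Y', stage 0: one child and one step of the loop over the children, in the words of
the function V3.
-/

set_option autoImplicit false
set_option maxRecDepth 100000
set_option exponentiation.threshold 20000

namespace Pool.Agent.Helper57.TZ

open Finset
open Pool.Agent.Helper79.CV (L length_L mem_L lt_of_mem_L nodup_L)
open Pool.Agent.Helper63.SIMD Pool.Agent.Helper97.TY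
open Pool.Agent.Helper69.TY (CountLe Ent abv abv_eq xb parL pcb above mem_above)
open Pool.Agent.Helper58.TB
open Pool.Agent.Helper54.TZ (PT TR QU)
open Pool.Agent.Helper28.TY.V3T (P mem_P subs mem_subs mem_bad mem_ovr P_lt subs_lt subs_lt')

section

variable {T Z F cap inc : ℕ} {av : ℕ → Prop} {w : ℕ → ℕ}

/-- the budget cell stays below 16 -/
theorem NRel.oh_le (h : NRel T Z F cap inc av w) {q : ℕ} (hq : q < 330) : oh w (M4 q) ≤ 4 := by
  unfold oh
  have h1 : ((range 11).filter fun v => 6 ≤ fh w (M4 q) v) ⊆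
      (range 11).filter fun v => (M4 q).testBit v = true := by
    intro v hv
    rw [mem_filter] at hv ⊢
    refine ⟨hv.1, ?_⟩
    by_contra h2
    have h3 : jh w (M4 q) v = 0 := by
      unfold jh
      rw [card_eq_zero, eq_empty_iff_forall_notMem]
      intro m hm
      rw [mem_filter, mem_oddIn] at hm
      have h4 := congrArg (fun x => Nat.testBit x v) hm.1.2.1
      simp only [Nat.testBit_and, hm.2, Bool.true_and] at h4
      exact h2 h4
    have h5 := hv.2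
    unfold fh at h5
    rw [h3, h.pt v (mem_range.1 hv.1)] at h5
    have := dgt_le (F.testBit v) (Pool.Agent.Helper58.TB.hv T inc v)
    omega
  refine (card_le_card h1).trans ?_
  have h6 : ∀ Q ∈ L 11 4, ((range 11).filter fun v => Q.testBit v = true).card ≤ 4 := by
    decide +kernel
  exact h6 _ (M4_mem hq)

/-- **a child**: either there is no member above it and it is skipped, or it is searched -/
theorem NRel.child (h : NRel T Z F cap inc av w) (hcap : cap ≤ 7) {q : ℕ} (ha : av q)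
    {zs Zs : Finset ℕ} (hzs : ∀ a ∈ zs, a < 2049)
    (hz : ∀ v < 11, 2 ^ v ∈ zs → Z.testBit v = true) (hZ : ZRel T Z F cap inc Zs)
    (ih kn : ℕ → ℕ → ℕ → ℕ) (rest S : ℕ) :
    (Pool.Agent.Helper69.TY.V3.c0 (gs 4 zs) ih kn (gs 4 Zs) rest (pk 4 2049 w) S
        (2 ^ (4 * M4 q + 3)) = kn rest (pk 4 2049 (rmvW w (M4 q))) S ∧
      ∀ K, CountLe (St T Z F cap (inc ||| 2 ^ q) fun r => av r ∧ r ≠ q) K) ∨
    ∃ (av' : ℕ → Prop) (w' : ℕ → ℕ) (Zs' : Finset ℕ),
      Pool.Agent.Helper69.TY.V3.c0 (gs 4 zs) ih kn (gs 4 Zs) rest (pk 4 2049 w) S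
        (2 ^ (4 * M4 q + 3)) =
          kn rest (pk 4 2049 (rmvW w (M4 q))) (ih (pk 4 2049 w') (gs 4 Zs') S) ∧
      NRel T Z F cap (inc ||| 2 ^ q) av' w' ∧ ZRel T Z F cap (inc ||| 2 ^ q) Zs' ∧
      ∀ K, CountLe (St T Z F cap (inc ||| 2 ^ q) av') K →
        CountLe (St T Z F cap (inc ||| 2 ^ q) fun r => av r ∧ r ≠ q) K := by
  have hq := h.lt q ha
  have hi := h.dis q ha
  have h' := h.rmW ha
  have hna : ¬ (av q ∧ q ≠ q) := fun h1 => h1.2 rfl
  have h8 : 8 ≤ w (M4 q) := by rw [h.qa q hq ha]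
  by_cases h0 : badW (rmvW w (M4 q)) (M4 q) = ∅
  · right
    obtain ⟨av', w', e1, e2, e3, e4⟩ := h'.childFree hcap hq hi hna h0 hZ
    refine ⟨av', w', Zs, ?_, e2, e3, e4⟩
    rw [Pool.Agent.Helper28.TY.V3K.c0_fast (h.w_lt hcap) (M4_mem hq) h8 h0]
    have e5 : Nat.add (pk 4 2049 (rmvW w (M4 q))) (gs 4 (subs (M4 q))) =
      pk 4 2049 (flipW (rmvW w (M4 q)) (M4 q)) := Pool.Agent.Helper28.TY.V3T.add_tm (M4 q) h0
    rw [e5] at e1
    rw [e1]
  · have h1 := nonempty_iff_ne_empty.2 h0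
    have e1 := Pool.Agent.Helper28.TY.V3K.c0_slow (zm := gs 4 zs) (Zt := gs 4 Zs) (S := S)
      (rest := rest) (ih := ih) (kn := kn) (h.w_lt hcap) (M4_mem hq) h8 h1
    have e2 := h'.N2_eq hcap hq
    rw [Pool.Agent.Helper28.TY.V3T.xor_tm (h'.w_lt hcap)] at e2
    obtain ⟨X, hX⟩ : ∃ X, X = Pool.Agent.Helper69.TY.V3.c0 (gs 4 zs) ih kn (gs 4 Zs) rest
      (pk 4 2049 w) S (2 ^ (4 * M4 q + 3)) := ⟨_, rfl⟩
    rw [← hX]
    have e3 : X = Pool.Agent.Helper69.TY.V3.h1 (gs 4 zs) ih kn rest (pk 4 2049 (rmvW w (M4 q))) S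
        (pk 4 2049 (hitW (rmvW w (M4 q)) (M4 q))) := by
      rw [hX, e1]
      exact congrArg _ e2
    have hw := h'.hitW_ok (M4 q)
    obtain ⟨hlt, hlt2⟩ := h'.hitW_lt hcap hq
    have hbud : hitW (rmvW w (M4 q)) (M4 q) 2048 = rmvW w (M4 q) 2048 :=
      hw.oth 2048 (by norm_num) (pow_not_three (v := 11) (by norm_num)) fun v hv h3 => by
        have := pow_lt hv
        omega
    have hoh := h'.oh_le hq
    have hb7 := h'.bud_lt hcap
    have hc := hw.ohEq
    by_cases hd : ovrW (hitW (rmvW w (M4 q)) (M4 q)) ∩ zs = ∅ ∧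
        normW (hitW (rmvW w (M4 q)) (M4 q)) 2048 < 8
    · right
      have f1 := h'.hitAlive hcap hq hi hna hw hd.2
      have hb := hd.2
      rw [hw.norm_bud] at hb
      obtain ⟨Zs', f2, f3⟩ := f1.zt hcap hz
      obtain ⟨f4, f5⟩ := f1.land_gs hcap f3
      obtain ⟨f6, f7, f8⟩ := f1.pruneW hcap f3 f5
      refine ⟨_, _, Zs', ?_, f7, f3, f8⟩
      rw [e3, Pool.Agent.Helper28.TY.V3K.h1_live hlt hlt2 (by rw [hbud, hc]; exact hb) hzs hd.1]
      rw [f2, f4, f6]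
    · left
      refine ⟨?_, fun K => h'.hitDead hcap hq hi hw hz hd _ K⟩
      rw [e3]
      refine Pool.Agent.Helper28.TY.V3K.h1_dead hlt hlt2 (by rw [hbud, hc]; omega) hzs ?_
      by_cases h3 : ovrW (hitW (rmvW w (M4 q)) (M4 q)) ∩ zs = ∅
      · right
        have h4 : ¬ normW (hitW (rmvW w (M4 q)) (M4 q)) 2048 < 8 := fun h5 => hd ⟨h3, h5⟩
        rw [hw.norm_bud] at h4
        rw [hbud, hc]
        omega
      · exact Or.inl (nonempty_iff_ne_empty.2 h3)

/-- **one step of the loop over the children** -/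
theorem NRel.kidStep (h : NRel T Z F cap inc av w) {t : ℕ} (ht : t < 165)
    (hne : candW w (M3 t) ≠ ∅) (zm Zt n S : ℕ) (ih : ℕ → ℕ → ℕ → ℕ) :
    ∃ q, av q ∧ Pool.Agent.Helper69.TY.V3.kids zm ih Zt (4 * M3 t) (n + 1)
        (8 * gs 4 (candW w (M3 t))) (pk 4 2049 w) S =
      Pool.Agent.Helper69.TY.V3.c0 zm ih (Pool.Agent.Helper69.TY.V3.kids zm ih Zt (4 * M3 t) n) Zt
        (8 * gs 4 (candW (rmvW w (M4 q)) (M3 t))) (pk 4 2049 w) S (2 ^ (4 * M4 q + 3)) := by
  have hn : (candW w (M3 t)).Nonempty := nonempty_iff_ne_empty.2 hne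
  obtain ⟨a, ha⟩ : ∃ a, a = (candW w (M3 t)).min' hn := ⟨_, rfl⟩
  have ha1 : a ∈ candW w (M3 t) := by
    rw [ha]
    exact min'_mem _ _
  have ha2 : ∀ b ∈ candW w (M3 t), a ≤ b := by
    intro b hb
    rw [ha]
    exact min'_le _ _ hb
  obtain ⟨-, q, hq, h1, h2, h3⟩ := (h.mem_cand ht).1 ha1
  refine ⟨q, h1, ?_⟩
  rw [Pool.Agent.Helper28.TY.V3K.kids_step ha1 ha2, h.cand_rmv ht h1 h3, h3]

/-- the number of candidates drops -/
theorem NRel.card_cand (h : NRel T Z F cap inc av w) {t q : ℕ} (ht : t < 165) (ha : av q)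
    (hm : M3 t &&& M4 q = M3 t) :
    (candW (rmvW w (M4 q)) (M3 t)).card + 1 = (candW w (M3 t)).card := by
  obtain ⟨p, hp, h1⟩ := h.cand_of ht ha hm
  rw [h.cand_rmv ht ha h1, card_erase_of_mem hp]
  have := card_pos.2 ⟨p, hp⟩
  omega

/-- the node test: an even triple -/
theorem NRel.node (h : NRel T Z F cap inc av w) {m : ℕ} (hm : m < 2048) (h6 : w m = 6) :
    ∃ t < 165, m = M3 t ∧ nT T inc t % 2 = 0 := by
  rcases h.cases (by omega : m < 2049) with ⟨r, hr, h2, h3⟩ | ⟨q, hq, h3, h4 | h4⟩ |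
      ⟨v, hv11, h4, h3⟩ | h3 | h3
  · have h4 := h.tri r hr
    rw [← h2] at h4
    exact ⟨r, hr, h2, by omega⟩
  · omega
  · omega
  · have h5 := h.pt v hv11
    have h7 := dgt_le (F.testBit v) (Pool.Agent.Helper58.TB.hv T inc v)
    rw [← h4] at h5
    omega
  · omega
  · omega

end

end Pool.Agent.Helper57.TZ
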