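import Pool.Agent.Helper57.TZ.Cube

/-!
MP_8ee768_co, project TH-Y', stage 0: the cube parity `W` of a state and the hits of a block.

`ParC T inc W`: the bits of `W` are the masks of the triples with an odd number of blocks.
-/

set_option autoImplicit false

namespace Pool.Agent.Helper57.TZ

open Finset
open Pool.Agent.Helper79.CV (L length_L mem_L lt_of_mem_L nodup_L)
open Pool.Agent.Helper69.TY (abv abv_eq above mem_above)
open Pool.Agent.Helper58.TB (nT hC hP hv hv_insert nT_insert nT_mono)

/-- `W` is the cube code of the odd triples -/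
structure ParC (T inc W : ℕ) : Prop where
  sub : ∀ i, W.testBit i = true → i ∈ L 11 3
  par : ∀ t < 165, W.testBit ((L 11 3).getD t 0) = decide (nT T inc t % 2 = 1)

theorem getD3_mem {t : ℕ} (ht : t < 165) : (L 11 3).getD t 0 ∈ L 11 3 := by
  have ht' : t < (L 11 3).length := by
    rw [length_L]
    exact ht
  rw [List.getD_eq_getElem _ _ ht']
  exact List.getElem_mem ht'

theorem getD4_mem {q : ℕ} (hq : q < 330) : (L 11 4).getD q 0 ∈ L 11 4 := by
  have hq' : q < (L 11 4).length := by
    rw [length_L]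
    exact hq
  rw [List.getD_eq_getElem _ _ hq']
  exact List.getElem_mem hq'

theorem exists_pos3 {m : ℕ} (hm : m ∈ L 11 3) : ∃ t < 165, (L 11 3).getD t 0 = m := by
  obtain ⟨t, ht, h⟩ := List.getElem_of_mem hm
  have ht' : t < 165 := by
    rw [length_L] at ht
    exact ht
  exact ⟨t, ht', by rw [List.getD_eq_getElem _ _ ht]; exact h⟩

theorem exists_pos4 {m : ℕ} (hm : m ∈ L 11 4) : ∃ q < 330, (L 11 4).getD q 0 = m := by
  obtain ⟨q, hq, h⟩ := List.getElem_of_mem hm
  have hq' : q < 330 := by
    rw [length_L] at hq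
    exact hq
  exact ⟨q, hq', by rw [List.getD_eq_getElem _ _ hq]; exact h⟩

theorem getD3_inj {t r : ℕ} (ht : t < 165) (hr : r < 165)
    (h : (L 11 3).getD t 0 = (L 11 3).getD r 0) : t = r := by
  have ht' : t < (L 11 3).length := by
    rw [length_L]
    exact ht
  have hr' : r < (L 11 3).length := by
    rw [length_L]
    exact hr
  rw [List.getD_eq_getElem _ _ ht', List.getD_eq_getElem _ _ hr'] at h
  exact (List.Nodup.getElem_inj_iff (nodup_L 11 3)).1 h

theorem getD4_inj {t r : ℕ} (ht : t < 330) (hr : r < 330)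
    (h : (L 11 4).getD t 0 = (L 11 4).getD r 0) : t = r := by
  have ht' : t < (L 11 4).length := by
    rw [length_L]
    exact ht
  have hr' : r < (L 11 4).length := by
    rw [length_L]
    exact hr
  rw [List.getD_eq_getElem _ _ ht', List.getD_eq_getElem _ _ hr'] at h
  exact (List.Nodup.getElem_inj_iff (nodup_L 11 4)).1 h

section

variable {T inc inc' W : ℕ}

/-- the parity at the mask of a triple -/
theorem ParC.even_of (h : ParC T inc W) {t : ℕ} (ht : t < 165)
    (h1 : W.testBit ((L 11 3).getD t 0) = false) : nT T inc t % 2 = 0 := by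
  rw [h.par t ht, decide_eq_false_iff_not] at h1
  omega

theorem ParC.odd_of (h : ParC T inc W) {t : ℕ} (ht : t < 165)
    (h1 : W.testBit ((L 11 3).getD t 0) = true) : nT T inc t % 2 = 1 := by
  rw [h.par t ht, decide_eq_true_eq] at h1
  exact h1

/-- all triples odd when the cube code is full -/
theorem ParC.all_odd (h : ParC T inc W) (hW : W = TRI) : ∀ t < 165, nT T inc t % 2 = 1 := by
  intro t ht
  refine h.odd_of ht ?_
  rw [hW, testBit_TRI, decide_eq_true_eq]
  exact getD3_mem ht

theorem ParC.sub_TRI (h : ParC T inc W) : Nat.land W TRI = W := by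
  refine Nat.eq_of_testBit_eq fun i => ?_
  have e : Nat.land W TRI = W &&& TRI := rfl
  rw [e, Nat.testBit_and, testBit_TRI]
  cases h1 : W.testBit i
  · rfl
  · rw [decide_eq_true (h.sub i h1)]
    rfl

/-- **adding a block** -/
theorem ParC.insert (h : ParC T inc W) {q : ℕ} (hq : q < 330)
    (h1 : ∀ r, r ≠ q → inc'.testBit r = inc.testBit r) (h2 : inc'.testBit q = true)
    (h3 : inc.testBit q = false) :
    ParC T inc' (Nat.xor W (tmq (2 ^ ((L 11 4).getD q 0)))) := by
  have e : Nat.xor W (tmq (2 ^ ((L 11 4).getD q 0))) = W ^^^ (tmq (2 ^ ((L 11 4).getD q 0))) := rfl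
  rw [e]
  constructor
  · intro i hi
    rw [Nat.testBit_xor] at hi
    cases h4 : W.testBit i
    · rw [h4, Bool.false_xor] at hi
      have h5 := tmq_sub_TRI _ _ hi
      rw [testBit_TRI, decide_eq_true_eq] at h5
      exact h5
    · exact h.sub i h4
  · intro t ht
    rw [Nat.testBit_xor, h.par t ht, nT_insert h1 h2 h3 ht]
    have h4 : (tmq (2 ^ ((L 11 4).getD q 0))).testBit ((L 11 3).getD t 0) =
        decide (q ∈ abv.getD t []) := by
      rw [Bool.eq_iff_iff, decide_eq_true_eq]
      exact testBit_tmq_pos hq ht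
    rw [h4]
    by_cases h5 : q ∈ abv.getD t []
    · rw [decide_eq_true h5]
      rcases Nat.mod_two_eq_zero_or_one (nT T inc t) with h6 | h6
      · have h7 : (nT T inc t + 1) % 2 = 1 := by omega
        simp [h6, h7]
      · have h7 : (nT T inc t + 1) % 2 = 0 := by omega
        simp [h6, h7]
    · rw [decide_eq_false h5]
      simp

/-- the points `x` of the block such that the rest of the block is an odd triple through `v` -/
def hset (W Q v : ℕ) : Finset ℕ := (range 11).filter fun x =>
  Q.testBit x = true ∧ x ≠ v ∧ Q.testBit v = true ∧ W.testBit (Q - 2 ^ x) = true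

/-- a point of a quad and the rest -/
def subOK : Bool := (L 11 4).all fun Q => (List.range 11).all fun x =>
  !(Q.testBit x) || ((L 11 3).contains (Q - 2 ^ x) && !((Q - 2 ^ x).testBit x) &&
    Nat.beq ((Q - 2 ^ x) + 2 ^ x) Q && (List.range 11).all fun v =>
      Nat.beq x v || !(xor ((Q - 2 ^ x).testBit v) (Q.testBit v)))

theorem subOK_ok : subOK = true := by decide +kernel

theorem quad_sub {Q x : ℕ} (hQ : Q ∈ L 11 4) (hx : x < 11) (h : Q.testBit x = true) :
    Q - 2 ^ x ∈ L 11 3 ∧ (Q - 2 ^ x).testBit x = false ∧ (Q - 2 ^ x) + 2 ^ x = Q ∧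
      ∀ v < 11, v ≠ x → (Q - 2 ^ x).testBit v = Q.testBit v := by
  have h1 := subOK_ok
  unfold subOK at h1
  rw [List.all_eq_true] at h1
  have h2 := h1 Q hQ
  rw [List.all_eq_true] at h2
  have h3 := h2 x (List.mem_range.2 hx)
  rw [h, Bool.not_true, Bool.false_or, Bool.and_eq_true, Bool.and_eq_true, Bool.and_eq_true,
    Bool.not_eq_true', List.all_eq_true, List.contains_iff_mem] at h3
  refine ⟨h3.1.1.1, h3.1.1.2, Nat.eq_of_beq_eq_true h3.1.2, fun v hv hvx => ?_⟩
  have h4 := h3.2 v (List.mem_range.2 hv)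
  have h5 : Nat.beq x v = false := by
    rw [← Bool.not_eq_true]
    intro h6
    exact hvx (Nat.eq_of_beq_eq_true h6).symm
  rw [h5, Bool.false_or] at h4
  revert h4
  cases (Q - 2 ^ x).testBit v <;> cases Q.testBit v <;> decide

/-- **the hits of a block** -/
theorem ParC.hits (h : ParC T inc W) {q : ℕ} (hq : q < 330)
    (h1 : ∀ r, r ≠ q → inc'.testBit r = inc.testBit r) (h2 : inc'.testBit q = true)
    (h3 : inc.testBit q = false) {v : ℕ} (hv11 : v < 11) :
    hv T inc' v = hv T inc v + (hset W ((L 11 4).getD q 0) v).card := by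
  rw [hv_insert h1 h2 h3]
  congr 1
  have hQ := getD4_mem hq
  refine card_bij' (fun t _ => Nat.log 2 ((L 11 4).getD q 0 - (L 11 3).getD t 0))
    (fun x _ => (L 11 3).idxOf ((L 11 4).getD q 0 - 2 ^ x)) ?_ ?_ ?_ ?_
  · intro t ht
    rw [mem_filter, mem_range] at ht
    obtain ⟨h4, h5, h6, h7⟩ := ht
    rw [mem_abv_iff hq h4] at h6
    obtain ⟨d, hd, h8, h9⟩ := exists_point (getD3_mem h4) hQ h6
    have h10 : (L 11 4).getD q 0 - (L 11 3).getD t 0 = 2 ^ d := by
      rw [h9, Nat.add_sub_cancel_left]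
    have h11 : (L 11 4).getD q 0 - 2 ^ d = (L 11 3).getD t 0 := by
      rw [h9, Nat.add_sub_cancel]
    rw [h10, Nat.log_pow (by norm_num)]
    unfold hset
    rw [mem_filter, mem_range, h11]
    have h12 := (qua_of_notMem (getD3_mem h4) hd h8).2
    have h13 : d ≠ v := by
      rintro rfl
      rw [h8] at h5
      exact Bool.false_ne_true h5
    refine ⟨hd, ?_, h13, ?_, ?_⟩
    · rw [h9, h12, Nat.testBit_or, Nat.testBit_two_pow_self, Bool.or_true]
    · rw [h9, h12, Nat.testBit_or, h5, Bool.true_or]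
    · rw [h.par t h4, decide_eq_true_eq]
      exact h7
  · intro x hx
    unfold hset at hx
    rw [mem_filter, mem_range] at hx
    obtain ⟨h4, h5, h6, h7, h8⟩ := hx
    obtain ⟨h9, h10, h11, h12⟩ := quad_sub hQ h4 h5
    obtain ⟨t, ht, h13⟩ := exists_pos3 h9
    have ht' : t < (L 11 3).length := by
      rw [length_L]
      exact ht
    have h14 : (L 11 3).idxOf ((L 11 4).getD q 0 - 2 ^ x) = t := by
      rw [← h13, List.getD_eq_getElem _ _ ht']
      exact (nodup_L 11 3).idxOf_getElem _ _
    rw [h14, mem_filter, mem_range]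
    refine ⟨ht, ?_, ?_, ?_⟩
    · rw [h13, h12 v hv11 (Ne.symm h6)]
      exact h7
    · rw [mem_abv_iff hq ht, h13]
      have h15 := (qua_of_notMem h9 h4 h10).2
      rw [h11] at h15
      refine Nat.eq_of_testBit_eq fun j => ?_
      rw [Nat.testBit_and]
      cases h16 : ((L 11 4).getD q 0 - 2 ^ x).testBit j
      · rw [Bool.false_and]
      · rw [Bool.true_and, h15, Nat.testBit_or, h16, Bool.true_or]
    · exact h.odd_of ht (by rw [h13]; exact h8)
  · intro t ht
    rw [mem_filter, mem_range] at ht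
    obtain ⟨h4, h5, h6, h7⟩ := ht
    rw [mem_abv_iff hq h4] at h6
    obtain ⟨d, hd, h8, h9⟩ := exists_point (getD3_mem h4) hQ h6
    have h10 : (L 11 4).getD q 0 - (L 11 3).getD t 0 = 2 ^ d := by
      rw [h9, Nat.add_sub_cancel_left]
    have h11 : (L 11 4).getD q 0 - 2 ^ d = (L 11 3).getD t 0 := by
      rw [h9, Nat.add_sub_cancel]
    have ht' : t < (L 11 3).length := by
      rw [length_L]
      exact h4
    rw [h10, Nat.log_pow (by norm_num), h11, List.getD_eq_getElem _ _ ht']
    exact (nodup_L 11 3).idxOf_getElem _ _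
  · intro x hx
    unfold hset at hx
    rw [mem_filter, mem_range] at hx
    obtain ⟨h4, h5, h6, h7, h8⟩ := hx
    obtain ⟨h9, h10, h11, h12⟩ := quad_sub hQ h4 h5
    obtain ⟨t, ht, h13⟩ := exists_pos3 h9
    have ht' : t < (L 11 3).length := by
      rw [length_L]
      exact ht
    have h14 : (L 11 3).idxOf ((L 11 4).getD q 0 - 2 ^ x) = t := by
      rw [← h13, List.getD_eq_getElem _ _ ht']
      exact (nodup_L 11 3).idxOf_getElem _ _
    rw [h14, h13]
    have h15 : (L 11 4).getD q 0 - ((L 11 4).getD q 0 - 2 ^ x) = 2 ^ x := by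
      have h16 := Nat.two_pow_pos x
      omega
    rw [h15, Nat.log_pow (by norm_num)]

end

end Pool.Agent.Helper57.TZ
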