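import Pool.Agent.Helper57.TZ.Core

/-!
MP_8ee768_co, project TH-Y', stage 0: the state as a function on cells.

`NRel T Z F cap inc av w`: `w m` for the mask `m` of a triple is `6 +` parity, of a quad `8` if available,
of a point its digit, `w 2048 = 7 - cap +` budget, all other cells are 0. The transitions: `remove`,
`addFree` (no hit), `addHit`, `deadHit`, `prune`, and the node (`kids_nil`, `kids_cons`).
-/

set_option autoImplicit false
set_option maxRecDepth 100000

namespace Pool.Agent.Helper57.TZ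

open Finset
open Pool.Agent.Helper79.CV (L length_L mem_L lt_of_mem_L nodup_L)
open Pool.Agent.Helper69.TY (CountLe Ent abv abv_eq xb parL pcb above mem_above)
open Pool.Agent.Helper58.TB

/-- mask of a triple -/
def M3 (t : ℕ) : ℕ := (L 11 3).getD t 0

/-- mask of a quad -/
def M4 (q : ℕ) : ℕ := (L 11 4).getD q 0

/-! ## masks -/

/-- the masks of triples, quads, points and 2048 are different -/
def disjOK : Bool := ((L 11 3).all fun m => !((L 11 4).contains m)) &&
  ((List.range 12).all fun v => !((L 11 3).contains (2 ^ v)) && !((L 11 4).contains (2 ^ v)))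

theorem disjOK_ok : disjOK = true := by decide +kernel

theorem three_ne_four {m : ℕ} (h3 : m ∈ L 11 3) : m ∉ L 11 4 := by
  have h := disjOK_ok
  unfold disjOK at h
  rw [Bool.and_eq_true, List.all_eq_true, List.all_eq_true] at h
  have h1 := h.1 m h3
  rw [Bool.not_eq_true', ← Bool.not_eq_true, List.contains_iff_mem] at h1
  exact h1

theorem pow_not_three {v : ℕ} (hv : v < 12) : 2 ^ v ∉ L 11 3 := by
  have h := disjOK_ok
  unfold disjOK at h
  rw [Bool.and_eq_true, List.all_eq_true, List.all_eq_true] at h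
  have h1 := h.2 v (List.mem_range.2 hv)
  rw [Bool.and_eq_true, Bool.not_eq_true', ← Bool.not_eq_true, List.contains_iff_mem] at h1
  exact h1.1

theorem pow_not_four {v : ℕ} (hv : v < 12) : 2 ^ v ∉ L 11 4 := by
  have h := disjOK_ok
  unfold disjOK at h
  rw [Bool.and_eq_true, List.all_eq_true, List.all_eq_true] at h
  have h1 := h.2 v (List.mem_range.2 hv)
  rw [Bool.and_eq_true, Bool.not_eq_true', ← Bool.not_eq_true, Bool.not_eq_true',
    ← Bool.not_eq_true, List.contains_iff_mem, List.contains_iff_mem] at h1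
  exact h1.2

theorem M3_mem {t : ℕ} (ht : t < 165) : M3 t ∈ L 11 3 := getD3_mem ht

theorem M4_mem {q : ℕ} (hq : q < 330) : M4 q ∈ L 11 4 := getD4_mem hq

theorem M3_inj {t r : ℕ} (ht : t < 165) (hr : r < 165) (h : M3 t = M3 r) : t = r := getD3_inj ht hr h

theorem M4_inj {q r : ℕ} (hq : q < 330) (hr : r < 330) (h : M4 q = M4 r) : q = r := getD4_inj hq hr h

theorem M3_ne_M4 {t q : ℕ} (ht : t < 165) (hq : q < 330) : M3 t ≠ M4 q := by
  intro h
  exact three_ne_four (M3_mem ht) (h ▸ M4_mem hq)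

theorem pow_ne_M3 {v t : ℕ} (hv : v < 12) (ht : t < 165) : 2 ^ v ≠ M3 t := by
  intro h
  exact pow_not_three hv (h ▸ M3_mem ht)

theorem pow_ne_M4 {v q : ℕ} (hv : v < 12) (hq : q < 330) : 2 ^ v ≠ M4 q := by
  intro h
  exact pow_not_four hv (h ▸ M4_mem hq)

theorem mem_abv_M {q t : ℕ} (hq : q < 330) (ht : t < 165) :
    q ∈ abv.getD t [] ↔ M3 t &&& M4 q = M3 t := mem_abv_iff hq ht

/-! ## the relation -/

/-- the cells of a state -/
structure NRel (T Z F cap inc : ℕ) (av : ℕ → Prop) (w : ℕ → ℕ) : Prop where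
  tri : ∀ t < 165, w (M3 t) = 6 + nT T inc t % 2
  qa : ∀ q < 330, av q → w (M4 q) = 8
  qn : ∀ q < 330, ¬ av q → w (M4 q) = 0
  lt : ∀ q, av q → q < 330
  dis : ∀ q, av q → inc.testBit q = false
  pt : ∀ v < 11, w (2 ^ v) = dgt (F.testBit v) (hv T inc v)
  bud : w 2048 = 7 - cap + ∑ v ∈ range 11, bgt (F.testBit v) (hv T inc v)
  ok : ∑ v ∈ range 11, bgt (F.testBit v) (hv T inc v) ≤ cap
  oth : ∀ m < 2048, m ∉ L 11 3 → m ∉ L 11 4 → (∀ v < 11, m ≠ 2 ^ v) → w m = 0

section

variable {T Z F cap inc : ℕ} {av : ℕ → Prop} {w : ℕ → ℕ}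

/-- all cells except the budget cell -/
theorem NRel.cases (h : NRel T Z F cap inc av w) {m : ℕ} (hm : m < 2049) :
    (∃ t < 165, m = M3 t ∧ (w m = 6 ∨ w m = 7)) ∨ (∃ q < 330, m = M4 q ∧ (w m = 0 ∨ w m = 8)) ∨
      (∃ v < 11, m = 2 ^ v ∧ w m ≤ 5) ∨ m = 2048 ∨ w m = 0 := by
  by_cases h3 : m ∈ L 11 3
  · obtain ⟨t, ht, rfl⟩ := exists_pos3 h3
    left
    refine ⟨t, ht, rfl, ?_⟩
    have := h.tri t ht
    unfold M3 at this
    omega
  · by_cases h4 : m ∈ L 11 4
    · obtain ⟨q, hq, rfl⟩ := exists_pos4 h4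
      right
      left
      refine ⟨q, hq, rfl, ?_⟩
      by_cases ha : av q
      · exact Or.inr (h.qa q hq ha)
      · exact Or.inl (h.qn q hq ha)
    · by_cases h5 : ∃ v < 11, m = 2 ^ v
      · obtain ⟨v, hv11, rfl⟩ := h5
        right
        right
        left
        refine ⟨v, hv11, rfl, ?_⟩
        rw [h.pt v hv11]
        exact dgt_le _ _
      · right
        right
        right
        by_cases h6 : m = 2048
        · exact Or.inl h6
        · right
          exact h.oth m (by omega) h3 h4 fun v hv h7 => h5 ⟨v, hv, h7⟩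

theorem M3_lt {t : ℕ} (ht : t < 165) : M3 t < 2048 := lt_of_mem_L (M3_mem ht)

theorem M4_lt {q : ℕ} (hq : q < 330) : M4 q < 2048 := lt_of_mem_L (M4_mem hq)

/-- only the cells below 2049 count -/
theorem NRel.congr (h : NRel T Z F cap inc av w) {w' : ℕ → ℕ} (hw : ∀ m < 2049, w' m = w m) :
    NRel T Z F cap inc av w' where
  tri := fun t ht => by
    rw [hw _ (by have := M3_lt ht; omega)]
    exact h.tri t ht
  qa := fun q hq ha => by
    rw [hw _ (by have := M4_lt hq; omega)]
    exact h.qa q hq ha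
  qn := fun q hq ha => by
    rw [hw _ (by have := M4_lt hq; omega)]
    exact h.qn q hq ha
  lt := h.lt
  dis := h.dis
  pt := fun v hv' => by
    rw [hw _ (by
      have : (2 : ℕ) ^ v < 2 ^ 11 := Nat.pow_lt_pow_right (by norm_num) hv'
      omega)]
    exact h.pt v hv'
  bud := by
    rw [hw _ (by norm_num)]
    exact h.bud
  ok := h.ok
  oth := fun m hm h3 h4 h5 => by
    rw [hw m (by omega)]
    exact h.oth m hm h3 h4 h5

/-- no cell is larger than 8 if `cap ≤ 7` -/
theorem NRel.le8 (h : NRel T Z F cap inc av w) (hcap : cap ≤ 7) {m : ℕ} (hm : m < 2049) :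
    w m ≤ 8 := by
  rcases h.cases hm with ⟨t, -, -, h1 | h1⟩ | ⟨q, -, -, h1 | h1⟩ | ⟨v, -, -, h1⟩ | h1 | h1
  · omega
  · omega
  · omega
  · omega
  · omega
  · rw [h1, h.bud]
    have := h.ok
    omega
  · omega

/-- **reading an even triple**: a cell 6 below the budget cell -/
theorem NRel.even (h : NRel T Z F cap inc av w) {m : ℕ} (hm : m < 2048) (h6 : w m = 6) :
    ∃ t < 165, m = M3 t ∧ nT T inc t % 2 = 0 := by
  rcases h.cases (by omega : m < 2049) with ⟨t, ht, rfl, -⟩ | ⟨q, -, -, h1 | h1⟩ | ⟨v, -, -, h1⟩ |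
    h1 | h1
  · refine ⟨t, ht, rfl, ?_⟩
    have := h.tri t ht
    omega
  · omega
  · omega
  · omega
  · omega
  · omega

/-- all triple cells are 7: complete -/
theorem NRel.complete (h : NRel T Z F cap inc av w) (h7 : ∀ m ∈ L 11 3, w m = 7) :
    ∀ t < 165, nT T inc t % 2 = 1 := by
  intro t ht
  have h1 := h.tri t ht
  have h2 := h7 _ (M3_mem ht)
  omega

/-! ## removing a quad -/

theorem NRel.remove (h : NRel T Z F cap inc av w) {q : ℕ} (hq : q < 330) :
    NRel T Z F cap inc (fun r => av r ∧ r ≠ q) (fun m => if m = M4 q then 0 else w m) where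
  tri := fun t ht => by
    show (if M3 t = M4 q then 0 else w (M3 t)) = _
    rw [if_neg (M3_ne_M4 ht hq)]
    exact h.tri t ht
  qa := fun r hr ha => by
    show (if M4 r = M4 q then 0 else w (M4 r)) = _
    rw [if_neg fun h1 => ha.2 (M4_inj hr hq h1)]
    exact h.qa r hr ha.1
  qn := fun r hr ha => by
    show (if M4 r = M4 q then 0 else w (M4 r)) = _
    by_cases h1 : M4 r = M4 q
    · rw [if_pos h1]
    · rw [if_neg h1]
      refine h.qn r hr fun h2 => ha ⟨h2, fun h3 => h1 (by rw [h3])⟩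
  lt := fun r ha => h.lt r ha.1
  dis := fun r ha => h.dis r ha.1
  pt := fun v hv' => by
    show (if 2 ^ v = M4 q then 0 else w (2 ^ v)) = _
    rw [if_neg (pow_ne_M4 (by omega) hq)]
    exact h.pt v hv'
  bud := by
    show (if 2048 = M4 q then 0 else w 2048) = _
    have h1 : (2048 : ℕ) ≠ M4 q := by
      have := pow_ne_M4 (v := 11) (by norm_num) hq
      exact this
    rw [if_neg h1]
    exact h.bud
  ok := h.ok
  oth := fun m hm h3 h4 h5 => by
    show (if m = M4 q then 0 else w m) = 0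
    split
    · rfl
    · exact h.oth m hm h3 h4 h5

/-! ## hits of a new quad -/

/-- the odd triples inside the quad with the mask `Q` -/
def oddIn (w : ℕ → ℕ) (Q : ℕ) : Finset ℕ :=
  (L 11 3).toFinset.filter fun m => m &&& Q = m ∧ w m = 7

theorem mem_oddIn {Q m : ℕ} : m ∈ oddIn w Q ↔ m ∈ L 11 3 ∧ m &&& Q = m ∧ w m = 7 := by
  unfold oddIn
  rw [mem_filter, List.mem_toFinset]

/-- number of the odd triples of the quad through the point `v` -/
def jh (w : ℕ → ℕ) (Q v : ℕ) : ℕ := ((oddIn w Q).filter fun m => m.testBit v = true).card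

theorem NRel.odd_iff (h : NRel T Z F cap inc av w) {t : ℕ} (ht : t < 165) :
    w (M3 t) = 7 ↔ nT T inc t % 2 = 1 := by
  have := h.tri t ht
  omega

/-- **the hits of a new quad** -/
theorem NRel.hits (h : NRel T Z F cap inc av w) {q : ℕ} (hq : q < 330)
    (hi : inc.testBit q = false) (v : ℕ) :
    hv T (inc ||| 2 ^ q) v = hv T inc v + jh w (M4 q) v := by
  rw [hv_insert (inc := inc) (inc' := inc ||| 2 ^ q) (q := q) (fun r hr => by
    rw [testBit_or_pow, decide_eq_false (Ne.symm hr), Bool.or_false]) (by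
    rw [testBit_or_pow, decide_eq_true rfl, Bool.or_true]) hi]
  congr 1
  unfold jh
  refine card_bij (fun t _ => M3 t) ?_ ?_ ?_
  · intro t ht
    rw [mem_filter, mem_range] at ht
    obtain ⟨h4, h5, h6, h7⟩ := ht
    rw [mem_filter, mem_oddIn]
    exact ⟨⟨M3_mem h4, (mem_abv_M hq h4).1 h6, (h.odd_iff h4).2 h7⟩, h5⟩
  · intro t ht r hr htr
    rw [mem_filter, mem_range] at ht hr
    exact M3_inj ht.1 hr.1 htr
  · intro m hm
    rw [mem_filter, mem_oddIn] at hm
    obtain ⟨⟨h4, h5, h6⟩, h7⟩ := hm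
    obtain ⟨t, ht, rfl⟩ := exists_pos3 h4
    refine ⟨t, ?_, rfl⟩
    rw [mem_filter, mem_range]
    exact ⟨ht, h7, (mem_abv_M hq ht).2 h5, (h.odd_iff ht).1 h6⟩

/-- at most three triples of a quad through a point -/
theorem jh_le {Q v : ℕ} (hQ : Q ∈ L 11 4) (hv11 : v < 11) : jh w Q v ≤ 3 := by
  refine le_trans ?_ (hset_le (W := 2 ^ 2048 - 1) hQ hv11)
  unfold jh
  have key : ∀ m ∈ (oddIn w Q).filter (fun m => m.testBit v = true),
      ∃ d < 11, m.testBit d = false ∧ Q = m + 2 ^ d ∧ m ∈ L 11 3 ∧ m.testBit v = true := by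
    intro m hm
    rw [mem_filter, mem_oddIn] at hm
    obtain ⟨d, hd, h1, h2⟩ := exists_point hm.1.1 hQ hm.1.2.1
    exact ⟨d, hd, h1, h2, hm.1.1, hm.2⟩
  refine card_le_card_of_injOn (fun m => Nat.log 2 (Q - m)) ?_ ?_
  · intro m hm
    obtain ⟨d, hd, h1, h2, h3, h4⟩ := key m hm
    have h5 : Q - m = 2 ^ d := by rw [h2, Nat.add_sub_cancel_left]
    have h6 : Q = m ||| 2 ^ d := by
      rw [h2]
      exact (qua_of_notMem h3 hd h1).2
    show Nat.log 2 (Q - m) ∈ _
    rw [h5, Nat.log_pow (by norm_num)]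
    have h7 : d ∈ hset (2 ^ 2048 - 1) Q v := by
      unfold hset
      rw [mem_filter, mem_range]
      refine ⟨hd, ?_, ?_, ?_, ?_⟩
      · rw [h6, Nat.testBit_or, Nat.testBit_two_pow_self, Bool.or_true]
      · rintro rfl
        rw [h1] at h4
        exact Bool.false_ne_true h4
      · rw [h6, Nat.testBit_or, h4, Bool.true_or]
      · have h8 : Q - 2 ^ d = m := by rw [h2, Nat.add_sub_cancel]
        have h9 : m < 2048 := lt_of_mem_L h3
        rw [h8, Nat.testBit_two_pow_sub_one, decide_eq_true h9]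
    exact h7
  · intro m hm r hr hmr
    obtain ⟨d, hd, h1, h2, -⟩ := key m hm
    obtain ⟨d', hd', h1', h2', -⟩ := key r hr
    have h5 : Q - m = 2 ^ d := by rw [h2, Nat.add_sub_cancel_left]
    have h5' : Q - r = 2 ^ d' := by
      conv_lhs => rw [h2']
      rw [Nat.add_sub_cancel_left]
    have hmr' : Nat.log 2 (Q - m) = Nat.log 2 (Q - r) := hmr
    rw [h5, h5', Nat.log_pow (by norm_num), Nat.log_pow (by norm_num)] at hmr'
    subst hmr'
    omega

/-- parity after adding the quad -/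
theorem nT_or {q t : ℕ} (hi : inc.testBit q = false) (ht : t < 165) :
    nT T (inc ||| 2 ^ q) t = nT T inc t + (decide (q ∈ abv.getD t [])).toNat :=
  nT_insert (fun r hr => by
    rw [testBit_or_pow, decide_eq_false (Ne.symm hr), Bool.or_false]) (by
    rw [testBit_or_pow, decide_eq_true rfl, Bool.or_true]) hi ht

/-! ## adding a quad without hit -/

/-- **no odd triple inside the quad** -/
theorem NRel.addFree (h : NRel T Z F cap inc av w) {q : ℕ} (hq : q < 330)
    (hi : inc.testBit q = false) (ha : ¬ av q) (h0 : oddIn w (M4 q) = ∅) :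
    NRel T Z F cap (inc ||| 2 ^ q) av
      (fun m => if m ∈ L 11 3 ∧ m &&& M4 q = m then w m + 1 else w m) where
  tri := fun t ht => by
    show (if M3 t ∈ L 11 3 ∧ M3 t &&& M4 q = M3 t then w (M3 t) + 1 else w (M3 t)) = _
    rw [nT_or hi ht, h.tri t ht]
    by_cases h1 : q ∈ abv.getD t []
    · have h2 := (mem_abv_M hq ht).1 h1
      rw [if_pos ⟨M3_mem ht, h2⟩, decide_eq_true h1]
      have h3 : w (M3 t) ≠ 7 := by
        intro h4
        have : M3 t ∈ oddIn w (M4 q) := mem_oddIn.2 ⟨M3_mem ht, h2, h4⟩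
        rw [h0] at this
        exact absurd this (notMem_empty _)
      rw [Ne, h.odd_iff ht] at h3
      simp only [Bool.toNat_true]
      omega
    · rw [if_neg fun h2 => h1 ((mem_abv_M hq ht).2 h2.2), decide_eq_false h1]
      simp only [Bool.toNat_false, Nat.add_zero]
  qa := fun r hr hr' => by
    show (if M4 r ∈ L 11 3 ∧ M4 r &&& M4 q = M4 r then w (M4 r) + 1 else w (M4 r)) = _
    rw [if_neg fun h1 => three_ne_four h1.1 (M4_mem hr)]
    exact h.qa r hr hr'
  qn := fun r hr hr' => by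
    show (if M4 r ∈ L 11 3 ∧ M4 r &&& M4 q = M4 r then w (M4 r) + 1 else w (M4 r)) = _
    rw [if_neg fun h1 => three_ne_four h1.1 (M4_mem hr)]
    exact h.qn r hr hr'
  lt := h.lt
  dis := fun r hr => by
    rw [testBit_or_pow, h.dis r hr, Bool.false_or]
    refine decide_eq_false fun h1 => ha (h1 ▸ hr)
  pt := fun v hv' => by
    show (if 2 ^ v ∈ L 11 3 ∧ 2 ^ v &&& M4 q = 2 ^ v then w (2 ^ v) + 1 else w (2 ^ v)) = _
    rw [if_neg fun h1 => pow_not_three (by omega : v < 12) h1.1, h.pt v hv', h.hits hq hi v]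
    have h1 : jh w (M4 q) v = 0 := by
      unfold jh
      rw [h0]
      rfl
    rw [h1, Nat.add_zero]
  bud := by
    show (if 2048 ∈ L 11 3 ∧ 2048 &&& M4 q = 2048 then w 2048 + 1 else w 2048) = _
    rw [if_neg fun h1 => pow_not_three (v := 11) (by norm_num) h1.1, h.bud]
    refine congrArg (fun x => 7 - cap + x) (sum_congr rfl fun v _ => ?_)
    rw [h.hits hq hi v]
    have h1 : jh w (M4 q) v = 0 := by
      unfold jh
      rw [h0]
      rfl
    rw [h1, Nat.add_zero]
  ok := by
    refine le_trans (le_of_eq (sum_congr rfl fun v _ => ?_)) h.ok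
    rw [h.hits hq hi v]
    have h1 : jh w (M4 q) v = 0 := by
      unfold jh
      rw [h0]
      rfl
    rw [h1, Nat.add_zero]
  oth := fun m hm h3 h4 h5 => by
    show (if m ∈ L 11 3 ∧ m &&& M4 q = m then w m + 1 else w m) = 0
    rw [if_neg fun h1 => h3 h1.1]
    exact h.oth m hm h3 h4 h5

/-! ## adding a quad with hits -/

/-- the digit with the hits, before the reduction -/
def fh (w : ℕ → ℕ) (Q v : ℕ) : ℕ := w (2 ^ v) + jh w Q v

/-- the number of the reduced digits -/
def oh (w : ℕ → ℕ) (Q : ℕ) : ℕ := ((range 11).filter fun v => 6 ≤ fh w Q v).card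

/-- the cells after adding the quad -/
def wh (w : ℕ → ℕ) (Q m : ℕ) : ℕ :=
  if m ∈ L 11 3 then (if m &&& Q = m then 13 - w m else w m)
  else if m = 2048 then w m + oh w Q
  else if m ∈ (range 11).image (fun v => 2 ^ v) then
    (if 6 ≤ fh w Q (Nat.log 2 m) then fh w Q (Nat.log 2 m) - 3 else fh w Q (Nat.log 2 m))
  else w m

theorem fh_le (h : NRel T Z F cap inc av w) {Q v : ℕ} (hQ : Q ∈ L 11 4) (hv11 : v < 11) :
    fh w Q v ≤ 8 := by
  unfold fh
  have h1 := jh_le (w := w) hQ hv11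
  have h2 := h.pt v hv11
  have h3 := dgt_le (F.testBit v) (hv T inc v)
  omega

/-- digit and budget of a point after the hits -/
theorem NRel.step_pt (h : NRel T Z F cap inc av w) {q v : ℕ} (hq : q < 330)
    (hi : inc.testBit q = false) (hv11 : v < 11) :
    dgt (F.testBit v) (hv T (inc ||| 2 ^ q) v) =
        (if 6 ≤ fh w (M4 q) v then fh w (M4 q) v - 3 else fh w (M4 q) v) ∧
      bgt (F.testBit v) (hv T (inc ||| 2 ^ q) v) =
        bgt (F.testBit v) (hv T inc v) + if 6 ≤ fh w (M4 q) v then 1 else 0 := by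
  have h1 := dgt_step (F.testBit v) (hv T inc v) (jh w (M4 q) v) (jh_le (M4_mem hq) hv11)
  rw [h.hits hq hi v]
  unfold fh
  rw [h.pt v hv11]
  exact h1

theorem NRel.sum_step (h : NRel T Z F cap inc av w) {q : ℕ} (hq : q < 330)
    (hi : inc.testBit q = false) :
    ∑ v ∈ range 11, bgt (F.testBit v) (hv T (inc ||| 2 ^ q) v) =
      ∑ v ∈ range 11, bgt (F.testBit v) (hv T inc v) + oh w (M4 q) := by
  unfold oh
  rw [card_filter, ← sum_add_distrib]
  exact sum_congr rfl fun v hv' => (h.step_pt hq hi (mem_range.1 hv')).2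

/-- **a dead child**: a zero point is hit twice or the budget is exceeded -/
theorem NRel.deadHit (h : NRel T Z F cap inc av w) (hcap : cap ≤ 7) {q : ℕ} (hq : q < 330)
    (hi : inc.testBit q = false)
    (hd : (∃ v < 11, Z.testBit v = true ∧ 6 ≤ fh w (M4 q) v) ∨ 8 ≤ w 2048 + oh w (M4 q))
    (av' : ℕ → Prop) (K : ℕ) : CountLe (St T Z F cap (inc ||| 2 ^ q) av') K := by
  rcases hd with ⟨v, hv11, hz, h6⟩ | h8
  · refine St.dead_zero hv11 hz ?_ K
    have h1 := (h.step_pt hq hi hv11).1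
    have h2 := dgt_add (F.testBit v) (hv T (inc ||| 2 ^ q) v)
    have h3 := dgt_add (F.testBit v) (hv T inc v)
    have h4 := (h.step_pt hq hi hv11).2
    have h5 := h.pt v hv11
    rw [if_pos h6] at h1 h4
    omega
  · refine St.dead_budget ?_ K
    rw [h.sum_step hq hi]
    have h1 := h.bud
    have h2 := h.ok
    omega

/-- **a child which is not dead** -/
theorem NRel.addHit (h : NRel T Z F cap inc av w) (hcap : cap ≤ 7) {q : ℕ} (hq : q < 330)
    (hi : inc.testBit q = false) (ha : ¬ av q) (hb : w 2048 + oh w (M4 q) ≤ 7) :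
    NRel T Z F cap (inc ||| 2 ^ q) av (wh w (M4 q)) where
  tri := fun t ht => by
    have h1 : wh w (M4 q) (M3 t) = if M3 t &&& M4 q = M3 t then 13 - w (M3 t) else w (M3 t) := by
      unfold wh
      rw [if_pos (M3_mem ht)]
    rw [h1, nT_or hi ht]
    have h2 := h.tri t ht
    by_cases h3 : q ∈ abv.getD t []
    · rw [if_pos ((mem_abv_M hq ht).1 h3), decide_eq_true h3]
      simp only [Bool.toNat_true]
      omega
    · rw [if_neg fun h4 => h3 ((mem_abv_M hq ht).2 h4), decide_eq_false h3]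
      simp only [Bool.toNat_false, Nat.add_zero]
      exact h2
  qa := fun r hr hr' => by
    have h1 : wh w (M4 q) (M4 r) = w (M4 r) := by
      unfold wh
      rw [if_neg fun h1 => three_ne_four h1 (M4_mem hr), if_neg, if_neg]
      · rw [mem_image]
        rintro ⟨v, hv, h2⟩
        exact pow_ne_M4 (by have := mem_range.1 hv; omega : v < 12) hr h2
      · intro h2
        exact pow_ne_M4 (v := 11) (by norm_num) hr h2.symm
    rw [h1]
    exact h.qa r hr hr'
  qn := fun r hr hr' => by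
    have h1 : wh w (M4 q) (M4 r) = w (M4 r) := by
      unfold wh
      rw [if_neg fun h1 => three_ne_four h1 (M4_mem hr), if_neg, if_neg]
      · rw [mem_image]
        rintro ⟨v, hv, h2⟩
        exact pow_ne_M4 (by have := mem_range.1 hv; omega : v < 12) hr h2
      · intro h2
        exact pow_ne_M4 (v := 11) (by norm_num) hr h2.symm
    rw [h1]
    exact h.qn r hr hr'
  lt := h.lt
  dis := fun r hr => by
    rw [testBit_or_pow, h.dis r hr, Bool.false_or]
    refine decide_eq_false fun h1 => ha (h1 ▸ hr)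
  pt := fun v hv' => by
    have h1 : wh w (M4 q) (2 ^ v) =
        if 6 ≤ fh w (M4 q) v then fh w (M4 q) v - 3 else fh w (M4 q) v := by
      unfold wh
      rw [if_neg (pow_not_three (by omega : v < 12)), if_neg, if_pos, Nat.log_pow (by norm_num)]
      · rw [mem_image]
        exact ⟨v, mem_range.2 hv', rfl⟩
      · intro h2
        have h3 : (2 : ℕ) ^ v < 2 ^ 11 := Nat.pow_lt_pow_right (by norm_num) hv'
        omega
    rw [h1]
    exact (h.step_pt hq hi hv').1.symm
  bud := by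
    have h1 : wh w (M4 q) 2048 = w 2048 + oh w (M4 q) := by
      have h0 : (2048 : ℕ) ∉ L 11 3 := pow_not_three (v := 11) (by norm_num)
      unfold wh
      rw [if_neg h0, if_pos rfl]
    rw [h1, h.sum_step hq hi, h.bud]
    omega
  ok := by
    rw [h.sum_step hq hi]
    have h1 := h.bud
    have h2 := h.ok
    omega
  oth := fun m hm h3 h4 h5 => by
    have h1 : wh w (M4 q) m = w m := by
      unfold wh
      rw [if_neg h3, if_neg, if_neg]
      · rw [mem_image]
        rintro ⟨v, hv, h2⟩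
        exact h5 v (mem_range.1 hv) h2.symm
      · omega
    rw [h1]
    exact h.oth m hm h3 h4 h5

/-! ## bad triples, pruning -/

/-- `Zs`: bad triples (masks) -/
def ZRel (T Z F cap inc : ℕ) (Zs : Finset ℕ) : Prop :=
  ∀ m ∈ Zs, m ∈ L 11 3 ∧ BadC T Z F cap inc m

theorem ZRel.add {Zs : Finset ℕ} (h : ZRel T Z F cap inc Zs) (q : ℕ) :
    ZRel T Z F cap (inc ||| 2 ^ q) Zs := fun m hm => ⟨(h m hm).1, (h m hm).2.mono (fun r hr => by
    rw [testBit_or_pow, hr, Bool.true_or]) (fun _ _ h => h) fun _ _ h => h⟩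

/-- a zero point with the digit 5, or budget cell + number of the digits 5 at least 8 -/
theorem NRel.bad (h : NRel T Z F cap inc av w) (hcap : cap ≤ 7) {m : ℕ}
    (hd : (∃ v < 11, m.testBit v = true ∧ Z.testBit v = true ∧ w (2 ^ v) = 5) ∨
      8 ≤ w 2048 + ((range 11).filter fun v => m.testBit v = true ∧ w (2 ^ v) = 5).card) :
    BadC T Z F cap inc m := by
  rcases hd with ⟨v, hv11, h1, h2, h3⟩ | h8
  · left
    refine ⟨v, hv11, h1, h2, ?_⟩
    have h4 := h.pt v hv11
    have h5 := dgt_add (F.testBit v) (hv T inc v)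
    omega
  · right
    have h1 : ((range 11).filter fun v => m.testBit v = true ∧ w (2 ^ v) = 5) =
        (range 11).filter fun v => m.testBit v = true ∧ dgt (F.testBit v) (hv T inc v) = 5 := by
      refine filter_congr fun v hv' => ?_
      rw [h.pt v (mem_range.1 hv')]
    rw [h1, h.bud] at h8
    have h2 := h.ok
    omega

/-- the available quads which are not above a triple of `X` -/
def avX (av : ℕ → Prop) (X : Finset ℕ) (q : ℕ) : Prop := av q ∧ ∀ m ∈ X, m &&& M4 q ≠ m

/-- **pruning**: the relation -/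
theorem NRel.prune (h : NRel T Z F cap inc av w) {X : Finset ℕ} {w' : ℕ → ℕ}
    (hw1 : ∀ m ∈ L 11 4, (∃ x ∈ X, x &&& m = x) → w' m = 0)
    (hw2 : ∀ m ∈ L 11 4, (∀ x ∈ X, x &&& m ≠ x) → w' m = w m)
    (hw3 : ∀ m, m ∉ L 11 4 → w' m = w m) : NRel T Z F cap inc (avX av X) w' where
  tri := fun t ht => by
    rw [hw3 _ (three_ne_four (M3_mem ht))]
    exact h.tri t ht
  qa := fun q hq ha => by
    rw [hw2 _ (M4_mem hq) fun x hx => ha.2 x hx]
    exact h.qa q hq ha.1
  qn := fun q hq ha => by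
    by_cases h1 : ∃ x ∈ X, x &&& M4 q = x
    · exact hw1 _ (M4_mem hq) h1
    · have h2 : ∀ x ∈ X, x &&& M4 q ≠ x := fun x hx h3 => h1 ⟨x, hx, h3⟩
      rw [hw2 _ (M4_mem hq) h2]
      exact h.qn q hq fun h3 => ha ⟨h3, h2⟩
  lt := fun q ha => h.lt q ha.1
  dis := fun q ha => h.dis q ha.1
  pt := fun v hv' => by
    rw [hw3 _ (pow_not_four (by omega : v < 12))]
    exact h.pt v hv'
  bud := by
    have h1 := hw3 2048 (pow_not_four (v := 11) (by norm_num))
    rw [h1]
    exact h.bud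
  ok := h.ok
  oth := fun m hm h3 h4 h5 => by
    rw [hw3 m h4]
    exact h.oth m hm h3 h4 h5

/-- **pruning**: the members -/
theorem NRel.prune_count (h : NRel T Z F cap inc av w) {X Zs : Finset ℕ} {K : ℕ}
    (hZ : ZRel T Z F cap inc Zs) (hX : ∀ m ∈ X, m ∈ Zs ∧ w m = 7)
    (hK : CountLe (St T Z F cap inc (avX av X)) K) : CountLe (St T Z F cap inc av) K := by
  refine St.prune_bad hK fun q ha hna => ?_
  have hq := h.lt q ha
  have h1 : ∃ m ∈ X, m &&& M4 q = m := by
    by_contra h2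
    exact hna ⟨ha, fun m hm h3 => h2 ⟨m, hm, h3⟩⟩
  obtain ⟨m, hm, h2⟩ := h1
  obtain ⟨h3, h4⟩ := hX m hm
  obtain ⟨h5, h6⟩ := hZ m h3
  obtain ⟨t, ht, rfl⟩ := exists_pos3 h5
  exact ⟨t, ht, (mem_abv_M hq ht).2 h2, (h.odd_iff ht).1 h4, h6⟩

/-! ## the node -/

/-- **no candidate left** -/
theorem NRel.kids_nil (h : NRel T Z F cap inc av w) {t : ℕ} (ht : t < 165)
    (hev : nT T inc t % 2 = 0) (hc : ∀ q < 330, av q → M3 t &&& M4 q ≠ M3 t) (K : ℕ) :
    CountLe (St T Z F cap inc av) K := by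
  refine St.dead_row ht hev (fun q hq ha => ?_) K
  exact absurd ((mem_abv_M (h.lt q ha) ht).1 hq) (hc q (h.lt q ha) ha)

/-- **the next candidate** -/
theorem NRel.kids_cons (h : NRel T Z F cap inc av w) {q K1 K2 : ℕ} (ha : av q)
    (h1 : CountLe (St T Z F cap (inc ||| 2 ^ q) fun r => av r ∧ r ≠ q) K1)
    (h2 : CountLe (St T Z F cap inc fun r => av r ∧ r ≠ q) K2) :
    CountLe (St T Z F cap inc av) (K1 + K2) := St.split h1 h2 (h.dis q ha)

/-- the available quads above a triple by the added point -/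
theorem exists_d {t q : ℕ} (ht : t < 165) (hq : q < 330) (h : M3 t &&& M4 q = M3 t) :
    ∃ d < 11, (M3 t).testBit d = false ∧ M4 q = M3 t + 2 ^ d := exists_point (M3_mem ht) (M4_mem hq) h

/-- the quad `m + 2 ^ d` -/
theorem quad_of_d {t d : ℕ} (ht : t < 165) (hd : d < 11) (h : (M3 t).testBit d = false) :
    ∃ q < 330, M4 q = M3 t + 2 ^ d ∧ M3 t &&& M4 q = M3 t := by
  obtain ⟨h1, h2⟩ := qua_of_notMem (M3_mem ht) hd h
  obtain ⟨q, hq, h3⟩ := exists_pos4 h1
  refine ⟨q, hq, h3, ?_⟩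
  have e : M4 q = M3 t ||| 2 ^ d := h3.trans h2
  rw [e]
  refine Nat.eq_of_testBit_eq fun j => ?_
  rw [Nat.testBit_and, Nat.testBit_or]
  cases (M3 t).testBit j <;> simp

end

end Pool.Agent.Helper57.TZ
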