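import Pool.Agent.Helper57.TZ.Rel
import Pool.Agent.Helper28.TY.V3T

/-!
MP_8ee768_co, project TH-Y', stage 0: the transitions of `NRel` for the cell functions `rmv`, `flip`,
`norm`, `cand` of `Helper28.TY.V3T`.
-/

set_option autoImplicit false
set_option exponentiation.threshold 20000

namespace Pool.Agent.Helper57.TZ

open Finset
open Pool.Agent.Helper79.CV (L length_L mem_L lt_of_mem_L nodup_L)
open Pool.Agent.Helper69.TY (CountLe Ent abv abv_eq xb parL pcb above mem_above)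
open Pool.Agent.Helper58.TB
open Pool.Agent.Helper28.TY.V3T (P mem_P subs mem_subs mem_bad mem_ovr P_lt)

/-- cell functions of `Helper28.TY.V3T` under other names -/
abbrev rmvW := @Pool.Agent.Helper28.TY.V3T.rmv
/-- parity step -/
abbrev flipW := @Pool.Agent.Helper28.TY.V3T.flip
/-- reduction -/
abbrev normW := @Pool.Agent.Helper28.TY.V3T.norm
/-- odd triples of a quad -/
abbrev badW := @Pool.Agent.Helper28.TY.V3T.bad
/-- points with the digit at least 6 -/
abbrev ovrW := @Pool.Agent.Helper28.TY.V3T.ovr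
/-- candidates -/
abbrev candW := @Pool.Agent.Helper28.TY.V3T.cand

/-- masks with one point -/
def oneOK : Bool := ((L 11 1).all fun p => (List.range 11).any fun v => Nat.beq p (2 ^ v)) &&
  (List.range 11).all fun v => (L 11 1).contains (2 ^ v)

theorem oneOK_ok : oneOK = true := by decide +kernel

theorem mem_one {p : ℕ} : p ∈ L 11 1 ↔ ∃ v < 11, p = 2 ^ v := by
  have h := oneOK_ok
  unfold oneOK at h
  rw [Bool.and_eq_true, List.all_eq_true, List.all_eq_true] at h
  constructor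
  · intro hp
    have h1 := h.1 p hp
    rw [List.any_eq_true] at h1
    obtain ⟨v, hv, h2⟩ := h1
    exact ⟨v, List.mem_range.1 hv, Nat.eq_of_beq_eq_true h2⟩
  · rintro ⟨v, hv, rfl⟩
    have h1 := h.2 v (List.mem_range.2 hv)
    rw [List.contains_iff_mem] at h1
    exact h1

theorem mem_P1 {p : ℕ} : p ∈ P 1 ↔ ∃ v < 11, p = 2 ^ v := by
  rw [mem_P, mem_one]

theorem pow_lt {v : ℕ} (hv : v < 11) : (2 : ℕ) ^ v < 2048 := by
  have : (2 : ℕ) ^ v < 2 ^ 11 := Nat.pow_lt_pow_right (by norm_num) hv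
  omega

theorem pow_inj {u v : ℕ} (h : (2 : ℕ) ^ u = 2 ^ v) : u = v :=
  Nat.pow_right_injective (le_refl 2) h

section

variable {T Z F cap inc : ℕ} {av : ℕ → Prop} {w : ℕ → ℕ}

theorem NRel.w_lt (h : NRel T Z F cap inc av w) (hcap : cap ≤ 7) : ∀ m < 2049, w m < 16 := by
  intro m hm
  have := h.le8 hcap hm
  omega

theorem NRel.bud_lt (h : NRel T Z F cap inc av w) (hcap : cap ≤ 7) : w 2048 < 8 := by
  have h1 := h.bud
  have h2 := h.ok
  omega

/-- removing a quad -/
theorem NRel.rmW (h : NRel T Z F cap inc av w) {q : ℕ} (ha : av q) :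
    NRel T Z F cap inc (fun r => av r ∧ r ≠ q) (rmvW w (M4 q)) := by
  refine (h.remove (h.lt q ha)).congr fun m _ => ?_
  unfold rmvW Pool.Agent.Helper28.TY.V3T.rmv
  by_cases h1 : m = M4 q
  · rw [if_pos h1, if_pos h1, h1, h.qa q (h.lt q ha) ha]
  · rw [if_neg h1, if_neg h1]

/-- the two descriptions of the odd triples -/
theorem NRel.bad_eq (h : NRel T Z F cap inc av w) (Q : ℕ) : badW w Q = oddIn w Q := by
  ext m
  rw [mem_bad, mem_oddIn]
  refine and_congr_right fun h3 => and_congr_right fun _ => ?_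
  obtain ⟨t, ht, rfl⟩ := exists_pos3 h3
  have h1 := h.tri t ht
  have e : M3 t = (L 11 3).getD t 0 := rfl
  rw [← e]
  omega

/-- values of `flip` -/
theorem NRel.flip_val (h : NRel T Z F cap inc av w) {Q m : ℕ} (hm : m ∈ L 11 3) :
    flipW w Q m = if m &&& Q = m then 13 - w m else w m := by
  obtain ⟨t, ht, rfl⟩ := exists_pos3 hm
  have h1 := h.tri t ht
  have e : M3 t = (L 11 3).getD t 0 := rfl
  rw [← e] at hm ⊢
  unfold flipW Pool.Agent.Helper28.TY.V3T.flip
  by_cases h2 : M3 t &&& Q = M3 t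
  · rw [if_pos (mem_subs.2 ⟨hm, h2⟩), if_pos h2]
    have h3 : w (M3 t) = 6 ∨ w (M3 t) = 7 := by omega
    rcases h3 with h3 | h3
    · rw [h3]
      rfl
    · rw [h3]
      rfl
  · rw [if_neg fun h3 => h2 (mem_subs.1 h3).2, if_neg h2]

theorem flip_other {Q m : ℕ} (hm : m ∉ L 11 3) : flipW w Q m = w m := by
  unfold flipW Pool.Agent.Helper28.TY.V3T.flip
  rw [if_neg fun h => hm (mem_subs.1 h).1]

/-- **adding a quad without hit** -/
theorem NRel.flipFree (h : NRel T Z F cap inc av w) {q : ℕ} (hq : q < 330)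
    (hi : inc.testBit q = false) (ha : ¬ av q) (h0 : badW w (M4 q) = ∅) :
    NRel T Z F cap (inc ||| 2 ^ q) av (flipW w (M4 q)) := by
  rw [h.bad_eq] at h0
  refine (h.addFree hq hi ha h0).congr fun m _ => ?_
  by_cases h3 : m ∈ L 11 3
  · rw [h.flip_val h3]
    by_cases h4 : m &&& M4 q = m
    · rw [if_pos h4, if_pos ⟨h3, h4⟩]
      have h5 : m ∉ oddIn w (M4 q) := by
        rw [h0]
        exact notMem_empty m
      rw [mem_oddIn] at h5
      have h6 : w m ≠ 7 := fun h7 => h5 ⟨h3, h4, h7⟩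
      obtain ⟨t, ht, rfl⟩ := exists_pos3 h3
      have h7 := h.tri t ht
      unfold M3 at h7
      omega
    · rw [if_neg h4, if_neg fun h5 => h4 h5.2]
  · rw [flip_other h3, if_neg fun h5 => h3 h5.1]

/-! ## hits -/

/-- the words after the parity step and the hits -/
structure HitW (w w2 : ℕ → ℕ) (Q : ℕ) : Prop where
  tri : ∀ m ∈ L 11 3, w2 m = flipW w Q m
  pt : ∀ v < 11, w2 (2 ^ v) = w (2 ^ v) + jh w Q v
  oth : ∀ m < 2049, m ∉ L 11 3 → (∀ v < 11, m ≠ 2 ^ v) → w2 m = w m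

theorem HitW.fhEq {w2 : ℕ → ℕ} {Q v : ℕ} (hw : HitW w w2 Q) (hv11 : v < 11) : w2 (2 ^ v) = fh w Q v :=
  hw.pt v hv11

theorem HitW.ohEq {w2 : ℕ → ℕ} {Q : ℕ} (hw : HitW w w2 Q) : (ovrW w2).card = oh w Q := by
  unfold oh
  symm
  refine card_bij (fun v _ => 2 ^ v) ?_ ?_ ?_
  · intro v hv
    rw [mem_filter, mem_range] at hv
    rw [mem_ovr, mem_one, hw.fhEq hv.1]
    exact ⟨⟨v, hv.1, rfl⟩, hv.2⟩
  · intro u _ v _ huv
    exact pow_inj huv
  · intro p hp
    rw [mem_ovr, mem_one] at hp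
    obtain ⟨⟨v, hv, rfl⟩, h1⟩ := hp
    refine ⟨v, ?_, rfl⟩
    rw [hw.fhEq hv] at h1
    rw [mem_filter, mem_range]
    exact ⟨hv, h1⟩

/-- the budget cell after the reduction -/
theorem HitW.norm_bud {w2 : ℕ → ℕ} {Q : ℕ} (hw : HitW w w2 Q) :
    normW w2 2048 = w 2048 + oh w Q := by
  have h0 : (2048 : ℕ) ∉ L 11 3 := pow_not_three (v := 11) (by norm_num)
  have h1 : (2048 : ℕ) ∉ ovrW w2 := by
    rw [mem_ovr, mem_one]
    rintro ⟨⟨v, hv, h2⟩, -⟩
    have := pow_lt hv
    omega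
  have h2 : w2 2048 = w 2048 := hw.oth 2048 (by norm_num) h0 fun v hv h3 => by
    have := pow_lt hv
    omega
  unfold normW Pool.Agent.Helper28.TY.V3T.norm
  rw [if_neg h1, if_pos rfl, hw.ohEq, h2]

/-- **adding a quad with hits: alive** -/
theorem NRel.hitAlive (h : NRel T Z F cap inc av w) (hcap : cap ≤ 7) {q : ℕ} (hq : q < 330)
    (hi : inc.testBit q = false) (ha : ¬ av q) {w2 : ℕ → ℕ} (hw : HitW w w2 (M4 q))
    (hb : normW w2 2048 < 8) : NRel T Z F cap (inc ||| 2 ^ q) av (normW w2) := by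
  have hb' := hb
  rw [hw.norm_bud] at hb'
  refine (h.addHit hcap hq hi ha (by omega)).congr fun m hm => ?_
  by_cases h3 : m ∈ L 11 3
  · have h1 : m ∉ ovrW w2 := by
      rw [mem_ovr, mem_one]
      rintro ⟨⟨v, hv, h2⟩, -⟩
      exact pow_not_three (by omega : v < 12) (h2 ▸ h3)
    have h2 : m ≠ 2048 := by
      have := lt_of_mem_L h3
      omega
    have h4 : normW w2 m = w2 m := by
      unfold normW Pool.Agent.Helper28.TY.V3T.norm
      rw [if_neg h1, if_neg h2]
    have h5 : wh w (M4 q) m = if m &&& M4 q = m then 13 - w m else w m := by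
      unfold wh
      rw [if_pos h3]
    rw [h4, h5, hw.tri m h3, h.flip_val h3]
  · by_cases h5 : m = 2048
    · subst h5
      have h0 : wh w (M4 q) 2048 = w 2048 + oh w (M4 q) := by
        unfold wh
        rw [if_neg h3, if_pos rfl]
      rw [hw.norm_bud, h0]
    · by_cases h6 : ∃ v < 11, m = 2 ^ v
      · obtain ⟨v, hv, rfl⟩ := h6
        have h7 : wh w (M4 q) (2 ^ v) =
            if 6 ≤ fh w (M4 q) v then
              fh w (M4 q) v - 3 else fh w (M4 q) v := by
          unfold wh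
          rw [if_neg h3, if_neg h5, if_pos, Nat.log_pow (by norm_num)]
          rw [mem_image]
          exact ⟨v, mem_range.2 hv, rfl⟩
        rw [h7]
        unfold normW Pool.Agent.Helper28.TY.V3T.norm
        rw [← hw.fhEq hv]
        by_cases h8 : 6 ≤ w2 (2 ^ v)
        · rw [if_pos (mem_ovr.2 ⟨mem_one.2 ⟨v, hv, rfl⟩, h8⟩), if_pos h8]
        · rw [if_neg fun h9 => h8 (mem_ovr.1 h9).2, if_neg h5, if_neg h8]
      · have h7 : wh w (M4 q) m = w m := by
          unfold wh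
          rw [if_neg h3, if_neg h5, if_neg]
          rw [mem_image]
          rintro ⟨v, hv, h8⟩
          exact h6 ⟨v, mem_range.1 hv, h8.symm⟩
        have h8 : m ∉ ovrW w2 := by
          rw [mem_ovr, mem_one]
          exact fun h9 => h6 h9.1
        rw [h7]
        unfold normW Pool.Agent.Helper28.TY.V3T.norm
        rw [if_neg h8, if_neg h5]
        exact hw.oth m hm h3 fun v hv h9 => h6 ⟨v, hv, h9⟩

/-- **adding a quad with hits: dead** (`zs` = cells of the zero points) -/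
theorem NRel.hitDead (h : NRel T Z F cap inc av w) (hcap : cap ≤ 7) {q : ℕ} (hq : q < 330)
    (hi : inc.testBit q = false) {w2 : ℕ → ℕ} (hw : HitW w w2 (M4 q)) {zs : Finset ℕ}
    (hz : ∀ v < 11, 2 ^ v ∈ zs → Z.testBit v = true)
    (hd : ¬ (ovrW w2 ∩ zs = ∅ ∧ normW w2 2048 < 8)) (av' : ℕ → Prop) (K : ℕ) :
    CountLe (St T Z F cap (inc ||| 2 ^ q) av') K := by
  refine h.deadHit hcap hq hi ?_ av' K
  by_cases h1 : ovrW w2 ∩ zs = ∅
  · right
    have h2 : ¬ normW w2 2048 < 8 := fun h3 => hd ⟨h1, h3⟩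
    rw [hw.norm_bud] at h2
    omega
  · left
    obtain ⟨p, hp⟩ := nonempty_iff_ne_empty.2 h1
    rw [mem_inter, mem_ovr, mem_one] at hp
    obtain ⟨⟨⟨v, hv, rfl⟩, h2⟩, h3⟩ := hp
    rw [hw.fhEq hv] at h2
    exact ⟨v, hv, hz v hv h3, h2⟩

/-! ## the candidates -/

/-- **the candidates of a triple** -/
theorem NRel.mem_cand (h : NRel T Z F cap inc av w) {t : ℕ} (ht : t < 165) {p : ℕ} :
    p ∈ candW w (M3 t) ↔ p ∈ L 11 1 ∧ ∃ q < 330, av q ∧ M3 t &&& M4 q = M3 t ∧ M4 q = M3 t + p := by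
  rw [Pool.Agent.Helper28.TY.V3T.mem_cand]
  refine and_congr_right fun hp => ?_
  obtain ⟨d, hd, rfl⟩ := mem_one.1 hp
  constructor
  · rintro ⟨h1, h2⟩
    rcases h.cases (by omega : M3 t + 2 ^ d < 2049) with ⟨r, -, -, h3 | h3⟩ | ⟨q, hq, h3, h4 | h4⟩ |
      ⟨v, -, -, h3⟩ | h3 | h3
    · omega
    · omega
    · omega
    · refine ⟨q, hq, ?_, ?_, h3.symm⟩
      · by_contra h5
        have h6 := h.qn q hq h5
        rw [h3] at h4
        omega
      · have h5 : (M3 t).testBit d = false := notMem_of_qua (M3_mem ht) hd (by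
          rw [testBit_QUA, decide_eq_true_eq, h3]
          exact M4_mem hq)
        obtain ⟨q', hq', h6, h7⟩ := quad_of_d ht hd h5
        rw [← h3, ← h6]
        exact h7
    · omega
    · omega
    · omega
  · rintro ⟨q, hq, ha, h1, h2⟩
    rw [← h2]
    exact ⟨M4_lt hq, by rw [h.qa q hq ha]⟩

/-- every available quad above the triple is a candidate -/
theorem NRel.cand_of (h : NRel T Z F cap inc av w) {t q : ℕ} (ht : t < 165) (ha : av q)
    (hm : M3 t &&& M4 q = M3 t) : ∃ p ∈ candW w (M3 t), M4 q = M3 t + p := by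
  obtain ⟨d, hd, -, h1⟩ := exists_d ht (h.lt q ha) hm
  exact ⟨2 ^ d, (h.mem_cand ht).2 ⟨mem_one.2 ⟨d, hd, rfl⟩, q, h.lt q ha, ha, hm, h1⟩, h1⟩

/-- no candidate: no member -/
theorem NRel.no_cand (h : NRel T Z F cap inc av w) {t : ℕ} (ht : t < 165)
    (hev : nT T inc t % 2 = 0) (hc : candW w (M3 t) = ∅) (K : ℕ) :
    CountLe (St T Z F cap inc av) K := by
  refine h.kids_nil ht hev (fun q _ ha hm => ?_) K
  obtain ⟨p, hp, -⟩ := h.cand_of ht ha hm
  rw [hc] at hp
  exact absurd hp (notMem_empty p)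

/-- the candidates after removing a quad above the triple -/
theorem NRel.cand_rmv (h : NRel T Z F cap inc av w) {t q p : ℕ} (ht : t < 165) (ha : av q)
    (hq : M4 q = M3 t + p) : candW (rmvW w (M4 q)) (M3 t) =
      (candW w (M3 t)).erase p := by
  have h' := h.rmW ha
  ext r
  rw [h'.mem_cand ht, mem_erase, h.mem_cand ht]
  constructor
  · rintro ⟨h1, q', hq', ⟨h2, h3⟩, h4, h5⟩
    refine ⟨?_, h1, q', hq', h2, h4, h5⟩
    rintro rfl
    exact h3 (M4_inj hq' (h.lt q ha) (by rw [h5, hq]))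
  · rintro ⟨h0, h1, q', hq', h2, h4, h5⟩
    refine ⟨h1, q', hq', ⟨h2, ?_⟩, h4, h5⟩
    rintro rfl
    rw [hq] at h5
    omega

end

end Pool.Agent.Helper57.TZ
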