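import Pool.Agent.Helper57.TZ.RelC
import Pool.Agent.Helper54.TZ.Zt

/-!
MP_8ee768_co, project TH-Y', stage 0: complete states with wrong digits, the bad triples of a state.
-/

set_option autoImplicit false
set_option exponentiation.threshold 20000

namespace Pool.Agent.Helper57.TZ

open Finset
open Pool.Agent.Helper89.CV (ofMask)
open Pool.Agent.Helper97.CV
open Pool.Agent.Helper79.CV
open Pool.Agent.Helper82.TY (below)
open Pool.Agent.Helper63.SIMD Pool.Agent.Helper97.TY
open Pool.Agent.Helper69.TY (CountLe Ent abv abv_eq xb parL pcb above mem_above)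
open Pool.Agent.Helper58.TB

/-- **a member above a complete state is the state** -/
theorem St.eq_of_complete {T Z F cap inc e : ℕ} {av : ℕ → Prop} (hT : pcb T 165 = 19)
    (hcap : cap ≤ 6) (h : ∀ t < 165, nT T inc t % 2 = 1) (he : St T Z F cap inc av e) :
    ∀ q < 330, e.testBit q = inc.testBit q := by
  intro q hq
  by_contra hne
  obtain ⟨h1, h2, -⟩ := he
  have hinc := card_complete hT h
  -- the added blocks
  obtain ⟨R, hR⟩ : ∃ R, R = fam 11 4 e \ fam 11 4 inc := ⟨_, rfl⟩
  have hsub : fam 11 4 inc ⊆ fam 11 4 e := by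
    intro s hs
    rw [mem_fam_iff (by norm_num : 11 ≤ 13)] at hs ⊢
    exact ⟨hs.1, h2 _ hs.2⟩
  have hcard : R.card + pcb inc 330 = pcb e 330 := by
    have h3 := card_sdiff_add_card_eq_card hsub
    rw [← hR, card_fam 11 4 inc (by norm_num), card_fam 11 4 e (by norm_num)] at h3
    exact h3
  have hcnt : ∀ s, cnt R s + cnt (fam 11 4 inc) s = cnt (fam 11 4 e) s := by
    intro s
    unfold cnt
    rw [← card_union_of_disjoint]
    · refine congrArg card ?_
      ext b
      rw [mem_union, mem_filter, mem_filter, mem_filter, hR, mem_sdiff]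
      constructor
      · rintro (⟨⟨h3, -⟩, h4⟩ | ⟨h3, h4⟩)
        · exact ⟨h3, h4⟩
        · exact ⟨hsub h3, h4⟩
      · rintro ⟨h3, h4⟩
        by_cases h5 : b ∈ fam 11 4 inc
        · exact Or.inr ⟨h5, h4⟩
        · exact Or.inl ⟨⟨h3, h5⟩, h4⟩
    · rw [disjoint_left]
      intro b hb hb2
      rw [mem_filter, hR, mem_sdiff] at hb
      exact hb.1.2 (mem_filter.1 hb2).1
  have hl : q < (L 11 4).length := by rw [length_L]; exact hq
  have hqR : ofMask ((L 11 4)[q]) ∈ R := by
    rw [hR, mem_sdiff, mem_fam_iff (by norm_num : 11 ≤ 13), mem_fam_iff (by norm_num : 11 ≤ 13),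
      rk_getElem (by norm_num : 11 ≤ 13) hl]
    have h3 : e.testBit q = true ∧ inc.testBit q = false := by
      cases h4 : inc.testBit q
      · refine ⟨?_, rfl⟩
        rw [h4] at hne
        simpa using hne
      · rw [h4, h2 q h4] at hne
        exact absurd rfl hne
    refine ⟨⟨ofMask_getElem_sub (by norm_num) hl, h3.1⟩, fun h4 => ?_⟩
    rw [h3.2] at h4
    exact Bool.false_ne_true h4.2
  have h5 := five_le (R := R) (fun b hb => by
      rw [hR, mem_sdiff] at hb
      exact (sub_of_mem_fam (by norm_num) hb.1).2) (fun b hb s hs hs3 => by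
      rw [hR, mem_sdiff] at hb
      have h6 : Sub 11 3 s := by
        refine ⟨mk_lt_iff.2 fun x hx => ?_, hs3⟩
        exact mk_lt_iff.1 (sub_of_mem_fam (by norm_num) hb.1).1 x (hs hx)
      obtain ⟨t, ht, h7⟩ := exists_pos h6
      have h8 := h t ht
      have h9 := h1.odd t ht
      unfold nT at h8 h9
      rw [cb_eq_cnt ht, h7] at h8 h9
      have h10 := hcnt s
      omega) ⟨_, hqR⟩
  have h6 := SubRun_num hT hcap h1
  omega

theorem hv_congr {T e inc : ℕ} (h : ∀ q < 330, e.testBit q = inc.testBit q) (v : ℕ) :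
    hv T e v = hv T inc v := by
  unfold hv hC nT
  refine congrArg (fun x => x + hP T v) (sum_congr rfl fun t ht => ?_)
  rw [mem_filter, mem_range] at ht
  rw [cb_congr fun q hq => h q (abv_lt t ht.1 q hq)]

/-- the digit of a point of a member is 5 -/
theorem dgt_member {T Z F cap e v : ℕ} (he : SubRun T Z F cap e) (hv11 : v < 11) :
    dgt (F.testBit v) (hv T e v) = 5 := by
  have h1 := he.mod v hv11
  unfold dgt
  cases h2 : F.testBit v
  · rw [Bool.false_and, cond_false]
    omega
  · have h3 := he.flag v hv11 h2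
    have h4 : Nat.ble (hv T e v) 1 = false := by
      rw [← Bool.not_eq_true, Nat.ble_eq]
      omega
    rw [h4, Bool.and_false, cond_false]
    omega

section

variable {T Z F cap inc : ℕ} {av : ℕ → Prop} {w : ℕ → ℕ}

/-- **a complete state with a digit different from 5 has no member** -/
theorem NRel.leafWrong (h : NRel T Z F cap inc av w) (hT : pcb T 165 = 19) (hcap : cap ≤ 6)
    (h7 : ∀ m ∈ L 11 3, w m = 7) (h5 : ∃ v < 11, w (2 ^ v) ≠ 5) (K : ℕ) :
    CountLe (St T Z F cap inc av) K := by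
  refine countLe_le (Nat.zero_le K) (countLe_zero fun e he => ?_)
  obtain ⟨v, hv11, h8⟩ := h5
  have h1 := St.eq_of_complete hT hcap (h.complete h7) he
  have h2 := dgt_member he.1 hv11
  rw [hv_congr h1, ← h.pt v hv11] at h2
  exact h8 h2

/-- **a complete state has at most one member** -/
theorem NRel.leafGood (h : NRel T Z F cap inc av w) (hT : pcb T 165 = 19) (hcap : cap ≤ 6)
    (h7 : ∀ m ∈ L 11 3, w m = 7) : CountLe (St T Z F cap inc av) 1 :=
  St.leaf hT hcap (h.complete h7)

/-- the bad triples computed from a state -/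
theorem NRel.zt (h : NRel T Z F cap inc av w) (hcap : cap ≤ 7) {zs : Finset ℕ}
    (hz : ∀ v < 11, 2 ^ v ∈ zs → Z.testBit v = true) :
    ∃ Zs : Finset ℕ, Pool.Agent.Helper69.TY.V3.zt (gs 4 zs) (pk 4 2049 w) = gs 4 Zs ∧
      ZRel T Z F cap inc Zs := by
  have h1 := h.bud
  have h2 := h.ok
  obtain ⟨X, h3, h4, h5⟩ := Pool.Agent.Helper54.TZ.zt_bad (T := T) (Zp := Z) (F := F) (cap := cap)
    (inc := inc) (w := w) (Z := zs) (h.w_lt hcap) h.pt (by omega) (by omega) hz
  refine ⟨X, h4, fun m hm => ⟨?_, h5 m hm⟩⟩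
  have h6 := h3 hm
  rw [Pool.Agent.Helper54.TZ.TR, List.mem_toFinset] at h6
  exact h6

end

end Pool.Agent.Helper57.TZ
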