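import Pool.Agent.Helper57.TZ.RelD
import Pool.Agent.Helper97.TY.V3P

/-!
MP_8ee768_co, project TH-Y', stage 0: the children of a node in the words of the function V3.

`childFree`: no hit; `childDead`: the dead test; `childHit`: alive after hits. Each of them gives the word
of the child (after the pruning) with its relation, and the transfer of the number of members.
-/

set_option autoImplicit false
set_option maxRecDepth 100000
set_option exponentiation.threshold 20000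

namespace Pool.Agent.Helper57.TZ

open Finset
open Pool.Agent.Helper79.CV (L length_L mem_L lt_of_mem_L nodup_L)
open Pool.Agent.Helper63.SIMD Pool.Agent.Helper97.TY
open Pool.Agent.Helper69.TY (CountLe Ent abv abv_eq xb parL pcb above mem_above)
open Pool.Agent.Helper58.TB
open Pool.Agent.Helper54.TZ (PT TR QU)
open Pool.Agent.Helper28.TY.V3T (P mem_P subs mem_subs mem_bad mem_ovr P_lt subs_lt subs_lt')

theorem mem_TR {m : ℕ} : m ∈ TR ↔ m ∈ L 11 3 := List.mem_toFinset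

theorem mem_QU {m : ℕ} : m ∈ QU ↔ m ∈ L 11 4 := List.mem_toFinset

theorem mem_PT {m : ℕ} : m ∈ PT ↔ ∃ v < 11, m = 2 ^ v := by
  have h : m ∈ PT ↔ m ∈ L 11 1 := List.mem_toFinset
  rw [h, mem_one]

/-- the word after the pruning -/
def prunW (w : ℕ → ℕ) (X : Finset ℕ) (m : ℕ) : ℕ := if m ∈ QU ∧ ∃ t ∈ X, t &&& m = t then 0 else w m

section

variable {T Z F cap inc : ℕ} {av : ℕ → Prop} {w : ℕ → ℕ}

theorem NRel.quad_cases (h : NRel T Z F cap inc av w) : ∀ m ∈ QU, w m = 0 ∨ w m = 8 := by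
  intro m hm
  obtain ⟨q, hq, rfl⟩ := exists_pos4 (mem_QU.1 hm)
  by_cases ha : av q
  · exact Or.inr (h.qa q hq ha)
  · exact Or.inl (h.qn q hq ha)

/-- **pruning by a set of odd bad triples** -/
theorem NRel.pruneW (h : NRel T Z F cap inc av w) (hcap : cap ≤ 7) {Zs X : Finset ℕ}
    (hZ : ZRel T Z F cap inc Zs) (hX : ∀ m ∈ X, m ∈ Zs ∧ w m = 7) :
    Pool.Agent.Helper69.TY.V3.pr (pk 4 2049 w) (gs 4 X) = pk 4 2049 (prunW w X) ∧
      NRel T Z F cap inc (avX av X) (prunW w X) ∧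
      ∀ K, CountLe (St T Z F cap inc (avX av X)) K → CountLe (St T Z F cap inc av) K := by
  refine ⟨?_, ?_, fun K hK => h.prune_count hZ hX hK⟩
  · exact Pool.Agent.Helper97.TY.pr_eq (fun m hm => mem_TR.2 (hZ m (hX m hm).1).1) (h.w_lt hcap)
      h.quad_cases
  · refine h.prune (fun m hm hx => ?_) (fun m hm hx => ?_) fun m hm => ?_
    · unfold prunW
      rw [if_pos ⟨mem_QU.2 hm, hx⟩]
    · unfold prunW
      rw [if_neg]
      rintro ⟨-, x, hx1, hx2⟩
      exact hx x hx1 hx2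
    · unfold prunW
      rw [if_neg fun h1 => hm (mem_QU.1 h1.1)]

/-- the odd triples in a set, as a word -/
theorem NRel.land_gs (h : NRel T Z F cap inc av w) (hcap : cap ≤ 7) {Zs : Finset ℕ}
    (hZ : ZRel T Z F cap inc Zs) :
    Nat.land (pk 4 2049 w) (gs 4 Zs) = gs 4 (Zs.filter fun m => w m % 2 = 1) ∧
      ∀ m ∈ Zs.filter (fun m => w m % 2 = 1), m ∈ Zs ∧ w m = 7 := by
  constructor
  · exact Pool.Agent.Helper28.TY.V3T.pk_land_gs1 (by norm_num) (fun a ha => by
      have := lt_of_mem_L (hZ a ha).1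
      omega) (h.w_lt hcap)
  · intro m hm
    rw [mem_filter] at hm
    refine ⟨hm.1, ?_⟩
    obtain ⟨t, ht, h1⟩ := exists_pos3 (hZ m hm.1).1
    have h2 := h.tri t ht
    unfold M3 at h2
    rw [h1] at h2
    omega

/-! ## the free child -/

/-- **child without hit**: `w` is the word without the quad `q` -/
theorem NRel.childFree (h : NRel T Z F cap inc av w) (hcap : cap ≤ 7) {q : ℕ} (hq : q < 330)
    (hi : inc.testBit q = false) (ha : ¬ av q) (h0 : badW w (M4 q) = ∅) {Zs : Finset ℕ}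
    (hZ : ZRel T Z F cap inc Zs) :
    ∃ (av' : ℕ → Prop) (w' : ℕ → ℕ),
      Pool.Agent.Helper69.TY.V3.pr (Nat.add (pk 4 2049 w) (gs 4 (subs (M4 q))))
        (Nat.land (gs 4 (subs (M4 q))) (gs 4 Zs)) = pk 4 2049 w' ∧
      NRel T Z F cap (inc ||| 2 ^ q) av' w' ∧ ZRel T Z F cap (inc ||| 2 ^ q) Zs ∧
      ∀ K, CountLe (St T Z F cap (inc ||| 2 ^ q) av') K →
        CountLe (St T Z F cap (inc ||| 2 ^ q) av) K := by
  have h1 := h.flipFree hq hi ha h0
  have hZ' := hZ.add q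
  have hX : ∀ m ∈ subs (M4 q) ∩ Zs, m ∈ Zs ∧ flipW w (M4 q) m = 7 := by
    intro m hm
    rw [mem_inter, mem_subs] at hm
    refine ⟨hm.2, ?_⟩
    rw [h.flip_val hm.1.1, if_pos hm.1.2]
    have h2 : m ∉ badW w (M4 q) := by
      rw [h0]
      exact notMem_empty m
    rw [h.bad_eq, mem_oddIn] at h2
    have h3 : w m ≠ 7 := fun h4 => h2 ⟨hm.1.1, hm.1.2, h4⟩
    obtain ⟨t, ht, h4⟩ := exists_pos3 hm.1.1
    have h5 := h.tri t ht
    unfold M3 at h5
    rw [h4] at h5
    omega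
  obtain ⟨e1, e2, e3⟩ := h1.pruneW hcap hZ' hX
  refine ⟨_, _, ?_, e2, hZ', e3⟩
  rw [Pool.Agent.Helper28.TY.V3T.add_tm (M4 q) h0]
  have e4 : Nat.land (gs 4 (subs (M4 q))) (gs 4 Zs) = gs 4 (subs (M4 q) ∩ Zs) :=
    Pool.Agent.Helper28.TY.V3T.gs_land (n := 2049) (by norm_num) subs_lt' fun a ha => by
      have := lt_of_mem_L (hZ a ha).1
      omega
  rw [e4]
  exact e1

/-! ## hits -/

theorem card_bad_le {Q : ℕ} (hQ : Q ∈ L 11 4) : (badW w Q).card ≤ 4 := by
  have h := fourOK_ok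
  unfold fourOK at h
  rw [List.all_eq_true] at h
  have h1 := h Q hQ
  rw [Bool.and_eq_true] at h1
  have h2 := Nat.le_of_ble_eq_true h1.1
  refine le_trans ?_ h2
  have h3 : badW w Q ⊆ ((L 11 3).filter fun m => Nat.beq (Nat.land m Q) m).toFinset := by
    intro m hm
    rw [mem_bad] at hm
    rw [List.mem_toFinset, List.mem_filter]
    refine ⟨hm.1, ?_⟩
    have e : Nat.land m Q = m := hm.2.1
    rw [e]
    exact Nat.beq_refl m
  exact (card_le_card h3).trans (List.toFinset_card_le _)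

/-- the word with the parities and the hits -/
def hitW (w : ℕ → ℕ) (Q m : ℕ) : ℕ :=
  flipW w Q m + if m ∈ PT then ((badW w Q).filter fun t => m &&& t = m).card else 0

theorem NRel.jh_eq (h : NRel T Z F cap inc av w) (Q v : ℕ) :
    ((badW w Q).filter fun t => 2 ^ v &&& t = 2 ^ v).card = jh w Q v := by
  unfold jh
  rw [h.bad_eq]
  congr 1
  refine filter_congr fun t _ => ?_
  exact Pool.Agent.Helper97.TY.pow_land_eq

theorem NRel.hitW_ok (h : NRel T Z F cap inc av w) (Q : ℕ) : HitW w (hitW w Q) Q where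
  tri := fun m hm => by
    unfold hitW
    rw [if_neg, Nat.add_zero]
    rw [mem_PT]
    rintro ⟨v, hv, rfl⟩
    exact pow_not_three (by omega : v < 12) hm
  pt := fun v hv => by
    unfold hitW
    rw [if_pos (mem_PT.2 ⟨v, hv, rfl⟩), h.jh_eq, flip_other (pow_not_three (by omega : v < 12))]
  oth := fun m _ h3 h5 => by
    unfold hitW
    rw [if_neg, Nat.add_zero, flip_other h3]
    rw [mem_PT]
    rintro ⟨v, hv, h6⟩
    exact h5 v hv h6

/-- **the word after the hits** -/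
theorem NRel.N2_eq (h : NRel T Z F cap inc av w) (hcap : cap ≤ 7) {q : ℕ} (hq : q < 330) :
    Nat.add (Nat.xor (pk 4 2049 w) (gs 4 (subs (M4 q))))
      (Nat.land (Nat.shiftRight (Nat.mul (gs 4 (badW w (M4 q))) Pool.Agent.Helper69.TY.V3.kD) 6144)
        Pool.Agent.Helper69.TY.V3.c3S) = pk 4 2049 (hitW w (M4 q)) := by
  have hQ := M4_mem hq
  rw [Pool.Agent.Helper28.TY.V3T.xor_tm (h.w_lt hcap), Pool.Agent.Helper97.TY.hits_eq]
  · exact pk_add
  · intro m hm
    exact mem_TR.2 (mem_bad.1 hm).1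
  · have := card_bad_le (w := w) hQ
    omega
  · intro m hm
    obtain ⟨v, hv, rfl⟩ := mem_PT.1 hm
    rw [h.jh_eq]
    exact jh_le hQ hv

theorem NRel.hitW_lt (h : NRel T Z F cap inc av w) (hcap : cap ≤ 7) {q : ℕ} (hq : q < 330) :
    (∀ m < 2049, hitW w (M4 q) m < 16) ∧ ∀ p ∈ P 1, hitW w (M4 q) p ≤ 13 := by
  have hQ := M4_mem hq
  have h1 : ∀ v < 11, hitW w (M4 q) (2 ^ v) ≤ 8 := by
    intro v hv11
    rw [(h.hitW_ok (M4 q)).pt v hv11]
    have h2 := jh_le (w := w) hQ hv11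
    have h3 := h.pt v hv11
    have h4 := dgt_le (F.testBit v) (hv T inc v)
    omega
  refine ⟨fun m hm => ?_, fun p hp => ?_⟩
  · by_cases h3 : m ∈ L 11 3
    · rw [(h.hitW_ok (M4 q)).tri m h3, h.flip_val h3]
      have := h.w_lt hcap m hm
      split <;> omega
    · by_cases h5 : ∃ v < 11, m = 2 ^ v
      · obtain ⟨v, hv, rfl⟩ := h5
        have := h1 v hv
        omega
      · rw [(h.hitW_ok (M4 q)).oth m hm h3 fun v hv h6 => h5 ⟨v, hv, h6⟩]
        exact h.w_lt hcap m hm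
  · obtain ⟨v, hv, rfl⟩ := mem_P1.1 hp
    have := h1 v hv
    omega

/-- **the dead test fails or the child is alive** -/
theorem NRel.childHit (h : NRel T Z F cap inc av w) (hcap : cap ≤ 7) {q : ℕ} (hq : q < 330)
    (hi : inc.testBit q = false) (ha : ¬ av q) {zs : Finset ℕ} (hzs : ∀ a ∈ zs, a < 2049)
    (hz : ∀ v < 11, 2 ^ v ∈ zs → Z.testBit v = true) {N2 G N3 : ℕ}
    (hN2 : N2 = Nat.add (Nat.xor (pk 4 2049 w) (gs 4 (subs (M4 q))))
      (Nat.land (Nat.shiftRight (Nat.mul (gs 4 (badW w (M4 q))) Pool.Agent.Helper69.TY.V3.kD) 6144)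
        Pool.Agent.Helper69.TY.V3.c3S))
    (hG : G = Nat.land (Nat.shiftRight (Nat.add N2 Pool.Agent.Helper69.TY.V3.c2S) 3)
      Pool.Agent.Helper69.TY.V3.cS)
    (hN3 : N3 = Nat.sub (Nat.add N2 (Nat.shiftLeft (Nat.mod G 15) 8192)) (Nat.mul 3 G)) :
    (Nat.beq (Nat.lor (Nat.land G (gs 4 zs)) (Nat.land N3 Pool.Agent.Helper69.TY.V3.cB)) 0 = false ∧
      ∀ (av' : ℕ → Prop) (K : ℕ), CountLe (St T Z F cap (inc ||| 2 ^ q) av') K) ∨
    (Nat.beq (Nat.lor (Nat.land G (gs 4 zs)) (Nat.land N3 Pool.Agent.Helper69.TY.V3.cB)) 0 = true ∧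
      ∃ (av' : ℕ → Prop) (w' : ℕ → ℕ) (Zs : Finset ℕ),
        Pool.Agent.Helper69.TY.V3.zt (gs 4 zs) N3 = gs 4 Zs ∧
        Pool.Agent.Helper69.TY.V3.pr N3 (Nat.land N3 (gs 4 Zs)) = pk 4 2049 w' ∧
        NRel T Z F cap (inc ||| 2 ^ q) av' w' ∧ ZRel T Z F cap (inc ||| 2 ^ q) Zs ∧
        ∀ K, CountLe (St T Z F cap (inc ||| 2 ^ q) av') K →
          CountLe (St T Z F cap (inc ||| 2 ^ q) av) K) := by
  have hw := h.hitW_ok (M4 q)
  obtain ⟨hlt, hlt2⟩ := h.hitW_lt hcap hq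
  rw [h.N2_eq hcap hq] at hN2
  rw [hN2, Pool.Agent.Helper28.TY.V3T.G_eq hlt hlt2] at hG
  rw [hG, hN2, Pool.Agent.Helper28.TY.V3T.N3_eq] at hN3
  have hov : ∀ a ∈ ovrW (hitW w (M4 q)), a < 2049 := fun a ha => by
    have := P_lt (mem_P.2 (mem_ovr.1 ha).1)
    omega
  have hcard : (ovrW (hitW w (M4 q))).card ≤ 3 + 3 * 1 + 5 := by
    have := Pool.Agent.Helper28.TY.V3T.ovr_card (w := hitW w (M4 q))
    omega
  -- the budget cell stays below 16
  have hoh : oh w (M4 q) ≤ 4 := by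
    unfold oh
    have h1 : ((range 11).filter fun v => 6 ≤ fh w (M4 q) v) ⊆
        (range 11).filter fun v => (M4 q).testBit v = true := by
      intro v hv
      rw [mem_filter] at hv ⊢
      refine ⟨hv.1, ?_⟩
      by_contra h2
      have h3 : jh w (M4 q) v = 0 := by
        unfold jh
        rw [card_eq_zero, eq_empty_iff_forall_notMem]
        intro m hm
        rw [mem_filter, mem_oddIn] at hm
        have h4 := congrArg (fun x => Nat.testBit x v) hm.1.2.1
        simp only [Nat.testBit_and, hm.2, Bool.true_and] at h4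
        exact h2 h4
      have h5 := hv.2
      unfold fh at h5
      rw [h3, h.pt v (mem_range.1 hv.1)] at h5
      have := dgt_le (F.testBit v) (Pool.Agent.Helper58.TB.hv T inc v)
      omega
    refine (card_le_card h1).trans ?_
    have h6 : ∀ Q ∈ L 11 4, ((range 11).filter fun v => Q.testBit v = true).card ≤ 4 := by
      decide +kernel
    exact h6 _ (M4_mem hq)
  have hn : ∀ j < 2049, normW (hitW w (M4 q)) j < 16 := by
    intro j hj
    by_cases h1 : j = 2048
    · subst h1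
      rw [hw.norm_bud]
      have := h.bud_lt hcap
      omega
    · unfold normW Pool.Agent.Helper28.TY.V3T.norm
      have := hlt j hj
      split
      · omega
      · exact this
  have hde := Pool.Agent.Helper28.TY.V3T.dead_eq (v := normW (hitW w (M4 q)))
    (A := ovrW (hitW w (M4 q))) (Z := zs) hn hov hzs
  rw [← hG, ← hN3] at hde
  by_cases hd : ovrW (hitW w (M4 q)) ∩ zs = ∅ ∧ normW (hitW w (M4 q)) 2048 < 8
  · right
    refine ⟨hde.2 hd, ?_⟩
    have h1 := h.hitAlive hcap hq hi ha hw hd.2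
    obtain ⟨Zs, h2, h3⟩ := h1.zt hcap hz
    obtain ⟨e1, e2⟩ := h1.land_gs hcap h3
    obtain ⟨f1, f2, f3⟩ := h1.pruneW hcap h3 e2
    refine ⟨_, _, Zs, ?_, ?_, f2, h3, f3⟩
    · rw [hN3]
      exact h2
    · rw [hN3]
      have e3 : Nat.land (pk 4 2049 (normW (hitW w (M4 q)))) (gs 4 Zs) = _ := e1
      rw [e3]
      exact f1
  · left
    refine ⟨?_, fun av' K => h.hitDead hcap hq hi hw hz hd av' K⟩
    rw [← Bool.not_eq_true]
    exact fun h1 => hd (hde.1 h1)

end

end Pool.Agent.Helper57.TZ
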