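import Pool.Agent.Helper57.TZ.Dig
import Pool.Agent.Helper58.TB.Dfs

/-!
MP_8ee768_co, project TH-Y', stage 0: the expressions of the search function.

`cTri_eq, cSing_eq, cK_eq`: the constants; `testBit_ztr`; `addD_spec`; `ParC.hitsD`: digits after a new
block; `over10_spec`, `norm10_spec`: reduction of the digits.
-/

set_option autoImplicit false
set_option maxRecDepth 100000

namespace Pool.Agent.Helper57.TZ

open Finset
open Pool.Agent.Helper79.CV (L length_L mem_L lt_of_mem_L nodup_L)
open Pool.Agent.Helper33.CV (layM testBit_layM orL testBit_orL)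
open Pool.Agent.Helper69.TY (abv abv_eq above mem_above)
open Pool.Agent.Helper58.TB (nT hC hP hv hv_insert nT_insert nT_mono cTri cSing cK cTab cDt cC cSt ztr
  addD)

theorem cTri_eq : cTri = TRI := by decide +kernel

theorem cSing_eq : cSing = SING := by decide +kernel

theorem cK_eq : cK = KM := by decide +kernel

theorem cC_eq : cC = dsum fun _ => 1 := by decide +kernel

/-- the triples of the quad with the bit `qb`, as in the search function -/
theorem tm_eq (qb : ℕ) :
    Nat.land (Nat.shiftRight (Nat.mul cK qb) 1024) cTri = tmq qb := by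
  rw [cK_eq, cTri_eq]
  rfl

/-! ## triples through points -/

/-- the entries of `cSt` -/
def stOK : Bool := (List.range 11).all fun v =>
  Nat.beq (cSt.getD v (0, 0)).1 (2 ^ (5 * v)) &&
    Nat.beq (cSt.getD v (0, 0)).2 (orL ((L 11 3).filter fun m => m.testBit v))

theorem stOK_ok : stOK = true := by decide +kernel

theorem length_cSt : cSt.length = 11 := by decide +kernel

theorem testBit_ztr_aux (s m : ℕ) : ∀ l : List (ℕ × ℕ), (ztr s l).testBit m = true ↔
    ∃ p ∈ l, Nat.land s p.1 ≠ 0 ∧ p.2.testBit m = true := by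
  intro l
  induction l with
  | nil =>
    have e : ztr s [] = 0 := rfl
    rw [e, Nat.zero_testBit]
    constructor
    · intro h
      exact absurd h Bool.false_ne_true
    · rintro ⟨p, hp, -⟩
      exact absurd hp (List.not_mem_nil)
  | cons p l ih =>
    have e : ztr s (p :: l) = cond (Nat.beq (Nat.land s p.1) 0) (ztr s l) (Nat.lor p.2 (ztr s l)) := rfl
    rw [e]
    by_cases h : Nat.land s p.1 = 0
    · have e2 : Nat.beq (Nat.land s p.1) 0 = true := by
        rw [h]
        rfl
      rw [e2, cond_true, ih]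
      constructor
      · rintro ⟨r, hr, h2⟩
        exact ⟨r, List.mem_cons_of_mem _ hr, h2⟩
      · rintro ⟨r, hr, h2, h3⟩
        rw [List.mem_cons] at hr
        rcases hr with rfl | hr
        · exact absurd h h2
        · exact ⟨r, hr, h2, h3⟩
    · have e2 : Nat.beq (Nat.land s p.1) 0 = false := by
        rw [← Bool.not_eq_true]
        intro h2
        exact h (Nat.eq_of_beq_eq_true h2)
      have e3 : Nat.lor p.2 (ztr s l) = p.2 ||| ztr s l := rfl
      rw [e2, cond_false, e3, Nat.testBit_or, Bool.or_eq_true, ih]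
      constructor
      · rintro (h2 | ⟨r, hr, h2⟩)
        · exact ⟨p, List.mem_cons_self .., h, h2⟩
        · exact ⟨r, List.mem_cons_of_mem _ hr, h2⟩
      · rintro ⟨r, hr, h2, h3⟩
        rw [List.mem_cons] at hr
        rcases hr with rfl | hr
        · exact Or.inl h3
        · exact Or.inr ⟨r, hr, h2, h3⟩

theorem land_two_pow_ne {s i : ℕ} : Nat.land s (2 ^ i) ≠ 0 ↔ s.testBit i = true := by
  have e : Nat.land s (2 ^ i) = s &&& 2 ^ i := rfl
  rw [e]
  constructor
  · intro h
    by_contra h2
    rw [Bool.not_eq_true] at h2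
    refine h (Nat.eq_of_testBit_eq fun j => ?_)
    rw [Nat.testBit_and, Nat.testBit_two_pow, Nat.zero_testBit]
    by_cases hj : i = j
    · subst hj
      rw [h2, Bool.false_and]
    · rw [decide_eq_false hj, Bool.and_false]
  · intro h h2
    have h3 := congrArg (fun x => Nat.testBit x i) h2
    simp only [Nat.testBit_and, h, Nat.testBit_two_pow_self, Bool.and_self, Nat.zero_testBit] at h3
    exact Bool.noConfusion h3

/-- **triples through the points of `s`** -/
theorem testBit_ztr (s m : ℕ) : (ztr s cSt).testBit m = true ↔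
    m ∈ L 11 3 ∧ ∃ v < 11, s.testBit (5 * v) = true ∧ m.testBit v = true := by
  rw [testBit_ztr_aux]
  have h0 := stOK_ok
  unfold stOK at h0
  rw [List.all_eq_true] at h0
  have h1 : ∀ v < 11, (cSt.getD v (0, 0)).1 = 2 ^ (5 * v) ∧
      (cSt.getD v (0, 0)).2 = orL ((L 11 3).filter fun m => m.testBit v) := by
    intro v hv
    have h2 := h0 v (List.mem_range.2 hv)
    rw [Bool.and_eq_true] at h2
    exact ⟨Nat.eq_of_beq_eq_true h2.1, Nat.eq_of_beq_eq_true h2.2⟩
  constructor
  · rintro ⟨p, hp, h2, h3⟩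
    obtain ⟨v, hv, rfl⟩ := List.getElem_of_mem hp
    have hv' : v < 11 := by
      rw [← length_cSt]
      exact hv
    obtain ⟨h4, h5⟩ := h1 v hv'
    rw [List.getD_eq_getElem _ _ hv] at h4 h5
    rw [h4, land_two_pow_ne] at h2
    rw [h5, testBit_orL, List.mem_filter] at h3
    exact ⟨h3.1, v, hv', h2, h3.2⟩
  · rintro ⟨hm, v, hv, h2, h3⟩
    have hv' : v < cSt.length := by
      rw [length_cSt]
      exact hv
    obtain ⟨h4, h5⟩ := h1 v hv
    rw [List.getD_eq_getElem _ _ hv'] at h4 h5
    refine ⟨cSt[v], List.getElem_mem hv', ?_, ?_⟩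
    · rw [h4, land_two_pow_ne]
      exact h2
    · rw [h5, testBit_orL, List.mem_filter]
      exact ⟨hm, h3⟩

/-! ## digits of triples -/

/-- the table of the digits -/
def dtOK : Bool := (L 11 3).all fun m =>
  Nat.beq (Nat.land (Nat.shiftRight cDt (Nat.mul 55 (Nat.mod (2 ^ m) 1571))) 0x7fffffffffffff)
    (dsum fun v => (m.testBit v).toNat)

theorem dtOK_ok : dtOK = true := by decide +kernel

theorem dt_eq {m : ℕ} (hm : m ∈ L 11 3) :
    Nat.land (Nat.shiftRight cDt (Nat.mul 55 (Nat.mod (2 ^ m) 1571))) 0x7fffffffffffff =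
      dsum fun v => (m.testBit v).toNat := by
  have h := dtOK_ok
  unfold dtOK at h
  rw [List.all_eq_true] at h
  exact Nat.eq_of_beq_eq_true (h m hm)

/-- the triples with bits in `b` -/
def bs (b : ℕ) : Finset ℕ := (L 11 3).toFinset.filter fun m => b.testBit m = true

theorem mem_bs {b m : ℕ} : m ∈ bs b ↔ m ∈ L 11 3 ∧ b.testBit m = true := by
  unfold bs
  rw [mem_filter, List.mem_toFinset]

theorem bs_zero : bs 0 = ∅ := by
  ext m
  rw [mem_bs, Nat.zero_testBit]
  simp

/-- **adding the digits of the triples of `b`** -/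
theorem addD_spec : ∀ (n b : ℕ) (f : ℕ → ℕ) (K : ℕ), (∀ i, b.testBit i = true → i ∈ L 11 3) →
    (bs b).card ≤ n → addD n b (dsum f + K) =
      dsum (fun v => f v + ((bs b).filter fun m => m.testBit v = true).card) + K := by
  intro n
  induction n with
  | zero =>
    intro b f K hb hn
    have h1 : bs b = ∅ := card_eq_zero.1 (Nat.le_zero.1 hn)
    rw [h1]
    show dsum f + K = _
    exact congrArg (fun x => x + K) (dsum_congr fun v _ => rfl)
  | succ n ih =>
    intro b f K hb hn
    have e : addD (n + 1) b (dsum f + K) = cond (Nat.beq b 0) (dsum f + K)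
      (addD n (Nat.land b (Nat.sub b 1)) (Nat.add (dsum f + K) (Nat.land (Nat.shiftRight cDt
        (Nat.mul 55 (Nat.mod (Nat.sub b (Nat.land b (Nat.sub b 1))) 1571))) 0x7fffffffffffff))) := rfl
    rw [e]
    by_cases h0 : b = 0
    · subst h0
      rw [bs_zero]
      show dsum f + K = _
      exact congrArg (fun x => x + K) (dsum_congr fun v _ => rfl)
    · have e2 : Nat.beq b 0 = false := by
        rw [← Bool.not_eq_true]
        intro h2
        exact h0 (Nat.eq_of_beq_eq_true h2)
      obtain ⟨i, h1, h2, h3, h4⟩ := low_spec h0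
      have e3 : Nat.pred b = Nat.sub b 1 := rfl
      rw [e3] at h3 h4
      obtain ⟨r, hr⟩ : ∃ r, r = Nat.land b (Nat.sub b 1) := ⟨_, rfl⟩
      rw [← hr] at h3 h4
      rw [e2, cond_false, ← hr, h3, dt_eq (hb i h1)]
      have e4 : Nat.add (dsum f + K) (dsum fun v => (i.testBit v).toNat) =
          dsum (fun v => f v + (i.testBit v).toNat) + K := by
        show dsum f + K + (dsum fun v => (i.testBit v).toNat) = _
        rw [← dsum_add]
        omega
      have h5 : bs b = insert i (bs r) := by
        ext m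
        rw [mem_insert, mem_bs, mem_bs, h4]
        constructor
        · rintro ⟨h6, h7⟩
          by_cases h8 : m = i
          · exact Or.inl h8
          · right
            rw [h7, decide_eq_true h8]
            exact ⟨h6, rfl⟩
        · rintro (rfl | ⟨h6, h7⟩)
          · exact ⟨hb m h1, h1⟩
          · rw [Bool.and_eq_true] at h7
            exact ⟨h6, h7.1⟩
      have h6 : i ∉ bs r := by
        rw [mem_bs, h4]
        simp
      rw [e4, ih r _ K (fun j hj => hb j (by
        rw [h4, Bool.and_eq_true] at hj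
        exact hj.1)) (by
        rw [h5, card_insert_of_notMem h6] at hn
        omega)]
      refine congrArg (fun x => x + K) (dsum_congr fun v _ => ?_)
      rw [h5, filter_insert]
      cases h7 : i.testBit v
      · simp
      · rw [if_pos rfl, card_insert_of_notMem (by
          rw [mem_filter]
          exact fun h8 => h6 h8.1)]
        simp only [Bool.toNat_true]
        omega

section

variable {T inc inc' W : ℕ}

/-- bits of the odd triples of a block -/
theorem bd_sub (W b : ℕ) : ∀ i, (Nat.land W (tmq b)).testBit i = true → i ∈ L 11 3 := by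
  intro i hi
  have e : Nat.land W (tmq b) = W &&& tmq b := rfl
  rw [e, Nat.testBit_and, Bool.and_eq_true] at hi
  have h := tmq_sub_TRI _ _ hi.2
  rw [testBit_TRI, decide_eq_true_eq] at h
  exact h

/-- number of the triples in a quad -/
def fourOK : Bool := (L 11 4).all fun q =>
  Nat.ble ((L 11 3).filter fun m => Nat.beq (Nat.land m q) m).length 4 &&
    (List.range 11).all fun v =>
      Nat.ble ((List.range 11).filter fun x => q.testBit x && !(Nat.beq x v) && q.testBit v).length 3

theorem fourOK_ok : fourOK = true := by decide +kernel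

theorem card_bd_le {W Q : ℕ} (hQ : Q ∈ L 11 4) : (bs (Nat.land W (tmq (2 ^ Q)))).card ≤ 4 := by
  have h := fourOK_ok
  unfold fourOK at h
  rw [List.all_eq_true] at h
  have h1 := h Q hQ
  rw [Bool.and_eq_true] at h1
  have h2 := Nat.le_of_ble_eq_true h1.1
  refine le_trans ?_ h2
  have h3 : bs (Nat.land W (tmq (2 ^ Q))) ⊆
      ((L 11 3).filter fun m => Nat.beq (Nat.land m Q) m).toFinset := by
    intro m hm
    rw [mem_bs] at hm
    have e : Nat.land W (tmq (2 ^ Q)) = W &&& tmq (2 ^ Q) := rfl
    rw [e, Nat.testBit_and, Bool.and_eq_true, testBit_tmq hQ] at hm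
    rw [List.mem_toFinset, List.mem_filter]
    refine ⟨hm.1, ?_⟩
    have e2 : Nat.land m Q = m &&& Q := rfl
    rw [e2, hm.2.2.2]
    exact Nat.beq_refl m
  exact (card_le_card h3).trans (List.toFinset_card_le _)

theorem hset_le {W Q v : ℕ} (hQ : Q ∈ L 11 4) (hv11 : v < 11) : (hset W Q v).card ≤ 3 := by
  have h := fourOK_ok
  unfold fourOK at h
  rw [List.all_eq_true] at h
  have h1 := h Q hQ
  rw [Bool.and_eq_true, List.all_eq_true] at h1
  have h2 := Nat.le_of_ble_eq_true (h1.2 v (List.mem_range.2 hv11))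
  refine le_trans ?_ h2
  have h3 : hset W Q v ⊆ ((List.range 11).filter fun x =>
      Q.testBit x && !(Nat.beq x v) && Q.testBit v).toFinset := by
    intro x hx
    unfold hset at hx
    rw [mem_filter, mem_range] at hx
    rw [List.mem_toFinset, List.mem_filter, List.mem_range]
    refine ⟨hx.1, ?_⟩
    have e : Nat.beq x v = false := by
      rw [← Bool.not_eq_true]
      intro h4
      exact hx.2.2.1 (Nat.eq_of_beq_eq_true h4)
    rw [hx.2.1, e, hx.2.2.2.1]
    rfl
  exact (card_le_card h3).trans (List.toFinset_card_le _)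

/-- **hits by the odd triples of the block** -/
theorem ParC.hits2 (h : ParC T inc W) {q : ℕ} (hq : q < 330)
    (h1 : ∀ r, r ≠ q → inc'.testBit r = inc.testBit r) (h2 : inc'.testBit q = true)
    (h3 : inc.testBit q = false) (v : ℕ) :
    hv T inc' v = hv T inc v +
      ((bs (Nat.land W (tmq (2 ^ ((L 11 4).getD q 0))))).filter fun m => m.testBit v = true).card := by
  rw [hv_insert h1 h2 h3]
  congr 1
  refine card_bij (fun t _ => (L 11 3).getD t 0) ?_ ?_ ?_
  · intro t ht
    rw [mem_filter, mem_range] at ht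
    obtain ⟨h4, h5, h6, h7⟩ := ht
    rw [mem_filter, mem_bs]
    have e : Nat.land W (tmq (2 ^ ((L 11 4).getD q 0))) = W &&& tmq (2 ^ ((L 11 4).getD q 0)) := rfl
    rw [e, Nat.testBit_and, h.par t h4, decide_eq_true h7, Bool.true_and]
    exact ⟨⟨getD3_mem h4, (testBit_tmq_pos hq h4).2 h6⟩, h5⟩
  · intro t ht r hr htr
    rw [mem_filter, mem_range] at ht hr
    exact getD3_inj ht.1 hr.1 htr
  · intro m hm
    rw [mem_filter, mem_bs] at hm
    obtain ⟨⟨h4, h5⟩, h6⟩ := hm
    obtain ⟨t, ht, rfl⟩ := exists_pos3 h4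
    have e : Nat.land W (tmq (2 ^ ((L 11 4).getD q 0))) = W &&& tmq (2 ^ ((L 11 4).getD q 0)) := rfl
    rw [e, Nat.testBit_and, Bool.and_eq_true] at h5
    refine ⟨t, ?_, rfl⟩
    rw [mem_filter, mem_range]
    exact ⟨ht, h6, (testBit_tmq_pos hq ht).1 h5.2, h.odd_of ht h5.1⟩

/-- at most three hits at a point -/
theorem ParC.hits_le (h : ParC T inc W) {q : ℕ} (hq : q < 330)
    (h1 : ∀ r, r ≠ q → inc'.testBit r = inc.testBit r) (h2 : inc'.testBit q = true)
    (h3 : inc.testBit q = false) {v : ℕ} (hv11 : v < 11) : hv T inc' v ≤ hv T inc v + 3 := by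
  rw [h.hits hq h1 h2 h3 hv11]
  have := hset_le (W := W) (getD4_mem hq) hv11
  omega

/-- **the digits after adding a block**: `f v + (hv T inc' v - hv T inc v)` -/
theorem ParC.addD (h : ParC T inc W) {q : ℕ} (hq : q < 330)
    (h1 : ∀ r, r ≠ q → inc'.testBit r = inc.testBit r) (h2 : inc'.testBit q = true)
    (h3 : inc.testBit q = false) (f : ℕ → ℕ) (K : ℕ) :
    Pool.Agent.Helper58.TB.addD 4 (Nat.land W (tmq (2 ^ ((L 11 4).getD q 0)))) (dsum f + K) =
      dsum (fun v => f v + (hv T inc' v - hv T inc v)) + K := by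
  rw [addD_spec 4 _ f K (bd_sub _ _) (card_bd_le (getD4_mem hq))]
  refine congrArg (fun x => x + K) (dsum_congr fun v _ => ?_)
  rw [h.hits2 hq h1 h2 h3 v]
  omega

end

/-! ## reduction of the digits -/

/-- no carry between disjoint words -/
theorem add_eq_xor : ∀ {a b : ℕ}, Nat.land a b = 0 → Nat.add a b = Nat.xor a b := by
  intro a
  induction a using Nat.strong_induction_on with
  | _ a ih =>
    intro b h
    by_cases h0 : a = 0
    · subst h0
      show 0 + b = 0 ^^^ b
      rw [Nat.zero_add, Nat.zero_xor]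
    · have h1 : (a &&& b) / 2 = 0 := by
        have h2 : a &&& b = 0 := h
        rw [h2]
      rw [Nat.and_div_two] at h1
      have h3 : a / 2 + b / 2 = (a / 2) ^^^ (b / 2) := ih (a / 2) (by omega) h1
      have h4 : (a ^^^ b) / 2 = (a / 2) ^^^ (b / 2) := Nat.xor_div_two
      have h5 : (a ^^^ b) % 2 = a % 2 + b % 2 := by
        have h6 := Nat.xor_mod_two_eq_one (a := a) (b := b)
        have h7 : ¬ ((a &&& b) % 2 = 1) := by
          have h2 : a &&& b = 0 := h
          rw [h2]
          decide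
        rw [Nat.and_mod_two_eq_one] at h7
        omega
      show a + b = a ^^^ b
      omega

theorem testBit_dsn : ∀ n (g : ℕ → ℕ) v i, (∀ v < n, g v < 32) → v < n → i < 5 →
    (dsn g n).testBit (5 * v + i) = (g v).testBit i := by
  intro n
  induction n with
  | zero =>
    intro g v i _ hv
    omega
  | succ n ih =>
    intro g v i hg hv hi
    show (g 0 + 32 * dsn (fun v => g (v + 1)) n).testBit (5 * v + i) = _
    have h5 : (32 : ℕ) = 2 ^ 5 := rfl
    rw [h5, Nat.add_comm, Nat.testBit_two_pow_mul_add _ (h5 ▸ hg 0 (Nat.succ_pos n))]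
    rcases v with _ | v
    · rw [if_pos (by omega), Nat.mul_zero, Nat.zero_add]
    · rw [if_neg (by omega), ← ih (fun v => g (v + 1)) v i (fun w hw => hg (w + 1) (by omega))
        (by omega) hi, show 5 * (v + 1) + i - 5 = 5 * v + i by omega]

theorem testBit_dsum {g : ℕ → ℕ} (hg : ∀ v < 11, g v < 32) {v i : ℕ} (hv : v < 11) (hi : i < 5) :
    (dsum g).testBit (5 * v + i) = (g v).testBit i := testBit_dsn 11 g v i hg hv hi

theorem dsum_lt {g : ℕ → ℕ} (hg : ∀ v < 11, g v < 32) : dsum g < 2 ^ 55 := by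
  have h := dsn_lt (f := g) (n := 11) hg
  have e : (32 : ℕ) ^ 11 = 2 ^ 55 := by norm_num
  rw [e] at h
  exact h

theorem testBit_dsum_high {g : ℕ → ℕ} (hg : ∀ v < 11, g v < 32) {i : ℕ} (hi : 55 ≤ i) :
    (dsum g).testBit i = false :=
  Nat.testBit_lt_two_pow (lt_of_lt_of_le (dsum_lt hg) (Nat.pow_le_pow_right (by norm_num) hi))

theorem ind_lt (p : ℕ → Prop) [DecidablePred p] : ∀ v < 11, (if p v then 1 else 0) < 32 := by
  intro v _
  by_cases h : p v
  · rw [if_pos h]
    norm_num
  · rw [if_neg h]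
    norm_num

/-- **detecting the digits which are at least 6**, the budget above the digits -/
theorem over10_spec {f : ℕ → ℕ} (hf : ∀ v < 11, f v ≤ 21) (B : ℕ) :
    Nat.land (Nat.shiftRight (Nat.add (dsum f + 2 ^ 55 * B) (Nat.mul 10 cC)) 4) cC =
      dsum fun v => if 6 ≤ f v then 1 else 0 := by
  have e0 : Nat.add (dsum f + 2 ^ 55 * B) (Nat.mul 10 cC) =
      dsum (fun v => f v + 10 * 1) + 2 ^ 55 * B := by
    show dsum f + 2 ^ 55 * B + 10 * cC = _
    rw [cC_eq, dsum_mul, ← dsum_add, Nat.add_right_comm]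
  have h1 : ∀ v < 11, f v + 10 * 1 < 32 := fun v hv => by
    have := hf v hv
    omega
  rw [e0]
  refine Nat.eq_of_testBit_eq fun i => ?_
  have e2 : ∀ x : ℕ, Nat.land (Nat.shiftRight x 4) cC = (x >>> 4) &&& cC := fun _ => rfl
  rw [e2, Nat.testBit_and, Nat.testBit_shiftRight]
  by_cases hi : i < 55
  · obtain ⟨v, j, hv, hj, rfl⟩ : ∃ v j, v < 11 ∧ j < 5 ∧ i = 5 * v + j :=
      ⟨i / 5, i % 5, by omega, by omega, by omega⟩
    rw [cC_eq, testBit_dsum (fun _ _ => by norm_num) hv hj, testBit_dsum (ind_lt _) hv hj]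
    by_cases hj0 : j = 0
    · subst hj0
      have e3 : (1 : ℕ).testBit 0 = true := rfl
      rw [e3, Bool.and_true, Nat.add_comm (dsum _), Nat.testBit_two_pow_mul_add _ (dsum_lt h1),
        if_pos (by omega), show 4 + (5 * v + 0) = 5 * v + 4 by omega, testBit_dsum h1 hv (by omega)]
      have h3 := hf v hv
      have h4 : ∀ x < 22, (x + 10 * 1).testBit 4 = (if 6 ≤ x then 1 else 0 : ℕ).testBit 0 := by decide
      exact h4 (f v) (by omega)
    · have e3 : (1 : ℕ).testBit j = false := by
        have h5 : ∀ j < 5, j ≠ 0 → (1 : ℕ).testBit j = false := by decide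
        exact h5 j hj hj0
      rw [e3, Bool.and_false]
      symm
      by_cases h6 : 6 ≤ f v
      · rw [if_pos h6]
        exact e3
      · rw [if_neg h6]
        exact Nat.zero_testBit j
  · rw [testBit_dsum_high (ind_lt _) (by omega), cC_eq, testBit_dsum_high (fun _ _ => by norm_num)
      (by omega), Bool.and_false]

/-- **reduced digits and the budget** -/
theorem norm10_spec {f : ℕ → ℕ} (B : ℕ) {G : ℕ}
    (hG : G = dsum fun v => if 6 ≤ f v then 1 else 0) :
    Nat.sub (Nat.add (dsum f + 2 ^ 55 * B) (Nat.shiftLeft (Nat.mod G 31) 55)) (Nat.mul 3 G) =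
      dsum (fun v => if 6 ≤ f v then f v - 3 else f v) +
        2 ^ 55 * (B + ((range 11).filter fun v => 6 ≤ f v).card) := by
  have h1 : G % 31 = ((range 11).filter fun v => 6 ≤ f v).card := by
    rw [hG, dsum_mod, card_filter]
    refine lt_of_le_of_lt (b := ∑ v ∈ range 11, 1) (sum_le_sum fun v _ => ?_) (by decide)
    by_cases h : 6 ≤ f v
    · rw [if_pos h]
    · rw [if_neg h]
      exact Nat.zero_le _
  have h2 : Nat.shiftLeft (Nat.mod G 31) 55 =
      2 ^ 55 * ((range 11).filter fun v => 6 ≤ f v).card := by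
    have e : Nat.shiftLeft (Nat.mod G 31) 55 = (G % 31) <<< 55 := rfl
    rw [e, h1, Nat.shiftLeft_eq, Nat.mul_comm]
  have h3 : dsum f = dsum (fun v => if 6 ≤ f v then f v - 3 else f v) + 3 * G := by
    rw [hG, dsum_mul, dsum_add]
    refine dsum_congr fun v _ => ?_
    by_cases h : 6 ≤ f v
    · rw [if_pos h, if_pos h]
      omega
    · rw [if_neg h, if_neg h]
      rfl
  rw [h2]
  show dsum f + 2 ^ 55 * B + 2 ^ 55 * _ - 3 * G = _
  rw [h3, Nat.mul_add]
  omega

/-- the budget test -/
theorem ble_cap {f : ℕ → ℕ} (hf : ∀ v < 11, f v < 32) (B cap : ℕ) :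
    Nat.ble (Nat.shiftLeft (Nat.add cap 1) 55) (dsum f + 2 ^ 55 * B) = decide (cap < B) := by
  have e : Nat.shiftLeft (Nat.add cap 1) 55 = (cap + 1) <<< 55 := rfl
  have h1 := dsum_lt hf
  rw [e, Nat.shiftLeft_eq, Bool.eq_iff_iff, Nat.ble_eq, decide_eq_true_eq]
  constructor
  · intro h
    by_contra h2
    have h3 : B ≤ cap := by omega
    have h4 : 2 ^ 55 * B ≤ 2 ^ 55 * cap := Nat.mul_le_mul_left _ h3
    rw [Nat.add_mul, Nat.mul_comm cap] at h
    omega
  · intro h
    have h4 : 2 ^ 55 * (cap + 1) ≤ 2 ^ 55 * B := Nat.mul_le_mul_left _ h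
    rw [Nat.mul_comm]
    omega

end Pool.Agent.Helper57.TZ
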